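import Pool.Agent.H174.GP.Defs

open MeasureTheory ProbabilityTheory Finset Filter Topology

namespace Pool.Agent.H174.GP

/-- The exponent hypothesis: `uu L = L^{-θ+o(1)}`. -/
def IsTheta (θ : ℝ) : Prop :=
  Tendsto (fun L : ℕ => -Real.log (uu L) / Real.log L) atTop (𝓝 θ)

/-- **The Laplace process is admissible**: `φ_j(x) = x/j`, `E (x/j)² = 2/j²`, `E (x/j)⁴ = 24/j⁴`. -/
def S_AdmCh : Prop := ∀ L : ℕ, Adm (fun j x => x / (j : ℝ)) 1 L 2 2 24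

/-- **The geometric process is admissible** with `A = 1/σ`. Let `a = σj ≤ s2`. `|Tq a x| ≤ |x|/a + 1 ≤ (|x|+s2)/a`
gives the upper bounds for the second and fourth moments and integrability; for `|x| ≥ 2 s2 ≥ 2a`:
`|Tq a x| ≥ |x|/a - 1 ≥ |x|/(2a)` gives `∫ Tq² ≥ (1/(4a²)) ∫_{|x| ≥ 2 s2} x² dlap =: cv/a²`. -/
def S_AdmGeo : Prop := ∀ s2 : ℝ, 0 < s2 → ∃ cv : ℝ, 0 < cv ∧ ∃ Cv : ℝ, 0 < Cv ∧ ∃ κ : ℝ, 0 < κ ∧ ∀ (σ : ℝ) (d : ℕ), 0 < σ →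
  σ * d ≤ s2 → Adm (fun j x => (Tq (σ * j) x : ℝ)) (1 / σ) d cv Cv κ

/-- **Variance bound without symmetry.** Chebyshev: `Var ψ_j(ω_j) ≤ E ψ_j²`, independence. -/
def S_var2 : Prop := ∀ (J : Finset ℕ) (ψ : ℕ → ℝ → ℝ) (t : ℝ), 0 < t → (∀ j ∈ J, Measurable (ψ j)) →
  (∀ j ∈ J, Integrable (fun x => (ψ j x) ^ 2) lap) →
  PP.real {ω | t ≤ |∑ j ∈ J, (ψ j (ω j) - ∫ x, ψ j x ∂lap)|} ≤ (∑ j ∈ J, ∫ x, (ψ j x) ^ 2 ∂lap) / t ^ 2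

/-- **Positivity on a short block with constant probability.** Put `T = ∑_{j≤a} jφ_j`, variance
`V1 ∈ [cv A² a, Cv A² a]`, fourth moments `∑ j⁴ E φ_j⁴ ≤ κA⁴a ≤ (κ/cv²) V1²`: `S_pz` gives
`P(T ≥ √V1/2) ≥ c0 := (9/32)/(3+κ/cv²)`. For `x ∈ [a,b]`: `∑_{a<j≤b} min(j,x)φ_j = ∑_{a<j≤x} jφ_j + x(T_b - T_x)`,
`T_x = ∑_{a<j≤x} φ_j`; by `S_cheb` with `u = A√(cv a)/8`: `P(max_x |∑_{a<j≤x} jφ_j| ≥ u) ≤ 2Cv A²(b-a)/u²` and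
`P(max_x |T_x| ≥ u/(3a)) ≤ 2 (Cv A²(b-a)/a²)·9a²/u²`, and outside both events the block sum is `≥ -2u` for all
`x ∈ [a,b]` (`x ≤ b ≤ 3a/2`, `|T_b-T_x| ≤ 2u/(3a)`). With `b - a ≤ ha` the two probabilities add up to at most
`20 Cv h·64/cv ≤ 1/2` if `h ≤ cv/(2560 Cv)` (and `h ≤ 1/2`). The sum `x∑_{b<j≤L} φ_j ≥ 0` has probability `≥ 1/2`
(`S_half`). Three independent events (`S_indep`): probability `≥ c1 := c0/4`, and then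
`Cs ≥ √V1/2 - A√(cv a)/4 ≥ A√(cv a)/4 ≥ δ0 A √x`, `δ0 = √cv/8`. -/
def S_block : Prop := ∀ cv Cv κ : ℝ, 0 < cv → 0 < Cv → 0 < κ → ∃ h : ℝ, 0 < h ∧ h ≤ 1 / 2 ∧ ∃ c1 : ℝ, 0 < c1 ∧ c1 ≤ 1 / 2 ∧
  ∃ δ0 : ℝ, 0 < δ0 ∧ ∀ (φ : ℕ → ℝ → ℝ) (A : ℝ) (L a b : ℕ), Adm φ A L cv Cv κ → 1 ≤ a → a ≤ b → b ≤ L →
    (b : ℝ) ≤ (1 + h) * a →
    c1 ≤ PP.real {ω | ∀ x ∈ Finset.Icc a b, δ0 * A * Real.sqrt x ≤ Cs (fun j => φ j (ω j)) L x}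

/-- **Crude lower bound.** Cover `[a,b]` by the windows `W_k = [y_k, ⌊(1+h)y_k⌋] ∩ [a,b]`,
`y_k = ⌈a(1+h)^k⌉`, `k = 0..m`, `m = ⌈log(b/a)/log(1+h)⌉` (`y_{k+1} ≤ ⌊(1+h)y_k⌋ + 1`). `S_block` for each window
and Harris (`S_harrisN`; the events are increasing since the `φ_j` are monotone, and depend on `1..L`) give
`≥ c1^{m+1} ≥ c1² (a/b)^{κ1}`, `κ1 = log(1/c1)/log(1+h)`. -/
def S_crude : Prop := ∀ cv Cv κ : ℝ, 0 < cv → 0 < Cv → 0 < κ → ∃ c : ℝ, 0 < c ∧ ∃ κ1 : ℝ, 0 < κ1 ∧ ∃ δ0 : ℝ, 0 < δ0 ∧   ∀ (φ : ℕ → ℝ → ℝ) (A : ℝ) (L a b : ℕ), Adm φ A L cv Cv κ → 1 ≤ a → a ≤ b → b ≤ L →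
    c * ((a : ℝ) / b) ^ κ1 ≤
      PP.real {ω | ∀ x ∈ Finset.Icc a b, δ0 * A * Real.sqrt x ≤ Cs (fun j => φ j (ω j)) L x}

/-- **A large deviation of constant order has positive probability.** Split `(0,L]` into `G` consecutive groups
of size `⌊L/G⌋` (the rest: nonnegative with probability `≥ 1/2`). By `S_pz` each group sum of `jφ_j` is
`≥ ½√(cv A² ⌊L/G⌋)` with probability `≥ c0`. By independence all hold with probability `≥ c0^G/2`, and then the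
total is `≥ G·½ A √(cv L/(2G)) ≥ R A √L` if `G ≥ 8R²/cv` (`L ≥ L0 = 2G`). -/
def S_big : Prop := ∀ cv Cv κ R : ℝ, 0 < cv → 0 < Cv → 0 < κ → 0 < R → ∃ c : ℝ, 0 < c ∧ ∃ L0 : ℕ,
  ∀ (φ : ℕ → ℝ → ℝ) (A : ℝ) (L : ℕ), Adm φ A L cv Cv κ → L0 ≤ L →
    c ≤ PP.real {ω | R * A * Real.sqrt L ≤ ∑ j ∈ Finset.Icc 1 L, (j : ℝ) * φ j (ω j)}

/-- **Steps for `uu`.** For `x ≤ K ≤ L`: `Ch ω L x = Ch ω K x + x ∑_{K<j≤L} ω_j/j`, so by independence and `S_half`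
`P(∀x≤K, 0 ≤ Ch ω L x) ≥ uu K / 2`. Harris with `P(∀x∈[K,L], 0 ≤ Ch ω L x) ≥ c (K/L)^{κ1}` (`S_crude`, `S_AdmCh`). The
first claim with `K = 1`, `uu 1 = 1/2`, bounds `uu` below; all numbers are probabilities. -/
def S_step : Prop := ∃ c : ℝ, 0 < c ∧ ∃ κ1 : ℝ, 0 < κ1 ∧ (∀ K L : ℕ, 1 ≤ K → K ≤ L →
    c * uu K * ((K : ℝ) / L) ^ κ1 ≤ uu L) ∧
  (∀ K L : ℕ, 1 ≤ K → K ≤ L → uu K / 2 ≤ PP.real {ω | ∀ x ∈ Finset.Icc 1 K, 0 ≤ Ch ω L x}) ∧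
  (∀ a b L : ℕ, 1 ≤ a → a ≤ b → b ≤ L →
    c * ((a : ℝ) / b) ^ κ1 ≤ PP.real {ω | ∀ x ∈ Finset.Icc a b, 0 ≤ Ch ω L x}) ∧
  (∀ L : ℕ, 1 ≤ L → c * (L : ℝ) ^ (-κ1) ≤ uu L) ∧ (∀ L : ℕ, uu L ≤ 1)

/-- **Near supermultiplicativity.** Let `e = ε/4` (`≤ 1/4`), `δ = e/4`, `A = 2κ1 + 3`, `l = 2(A+1)log n`,
`x0 = ⌈(41 l^{3/2}/δ)^4⌉ = O((log n)^6)`. By Harris on the coordinates `1..Kn`
`uu (Kn) ≥ P(∀y∈[1,K]) · P(∀y∈[K, min(Kx0,Kn)]) · P(∀y∈[Kx0,Kn])` (events `0 ≤ Ch ω (Kn) y`). The first factor is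
`≥ uu K/2`, the second `≥ c x0^{-κ1}` (`S_step`), the third is by `S_coarse` and `S_shiftC` (with `ε := e`, `t = 0`,
`X = [1,n]`) `≥ (uu n)^{1+e} exp(-(4/e)δ²(1+log n)) - 40 n^{-A} ≥ (uu n)^{1+e} n^{-e} e^{-e} - 40 n^{-A}`, and since
`uu n ≥ c n^{-κ1}` and `(1+e)κ1 + e < A` it is `≥ ½ (uu n)^{1+e} n^{-e} e^{-1}` for large `n`. As `uu n ≤ 1`,
`(uu n)^{1+e} ≥ (uu n)^{1+ε}`; all logarithmic factors are `≥ n^{-ε/4}` for large `n`, uniformly in `K`. -/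
def S_super : Prop := ∀ ε : ℝ, 0 < ε → ε ≤ 1 → ∃ n0 : ℕ, 2 ≤ n0 ∧ ∀ n ≥ n0, ∀ K : ℕ, 1 ≤ K →
  uu K * (uu n) ^ (1 + ε) * (n : ℝ) ^ (-ε) ≤ uu (K * n)

/-- **Existence of the exponent.** `f(L) = -log uu L ≥ 0`. `S_super`: `f(Kn) ≤ f(K) + (1+ε)f(n) + ε log n` for
`n ≥ n0(ε)`, so `f(n^m) ≤ m((1+ε)f(n) + ε log n)` (start with `f(1) + ...`, `f(1) ≤ log 2`, harmless: or start the
induction at `m = 1`). `S_step`: `f(L) ≤ f(n^m) + κ1 log n - log c` for `n^m ≤ L < n^{m+1}`; and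
`f(L) ≤ κ1 log L - log c`, so `f(L)/log L` is bounded. Let `θ = liminf f(L)/log L`. Given `ε` choose `n ≥ n0(ε)` with
`f(n)/log n ≤ θ+ε`; then `limsup f(L)/log L ≤ (1+ε)(θ+ε)+ε`. Let `ε → 0`. `θ ≥ 0`. -/
def S_theta : Prop := ∃ θ : ℝ, 0 ≤ θ ∧ IsTheta θ

/-- **Rounding error.** `Cg σ ω L x - Ch ω L x/σ = ∑_{j≤L} min(j,x) e_j(ω_j)`, `e_j(y) = Tq(σj) y - y/(σj)` odd,
`|e_j| ≤ 1` (`S_Tq`); Hoeffding with `V = x²L` for each `x`, union bound over `x ≤ L`. -/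
def S_float : Prop := ∀ (σ : ℝ) (L : ℕ) (t : ℝ), 0 < σ → 1 ≤ L → 0 ≤ t →
  PP.real {ω | ∃ x ∈ Finset.Icc 1 L, x * Real.sqrt L * t ≤ |Cg σ ω L x - Ch ω L x / σ|}
    ≤ 2 * L * Real.exp (-(t ^ 2 / 2))

/-- **Mean of `|Tq|`**: `∑_k |k| (1-ρ)/(1+ρ) ρ^{|k|} = 2ρ/((1+ρ)(1-ρ))`, `ρ = e^{-a}` (from `S_Tqlaw`). -/
def S_Tqmean : Prop := ∀ a : ℝ, 0 < a →
  (∫ x, |(Tq a x : ℝ)| ∂lap) = 2 * Real.exp (-a) / (1 - Real.exp (-(2 * a)))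

/-- **Moment generating functions.** General fact: if `∫ Y dlap = 0`, `|Y(x)| ≤ (|x|+D)/a`, `|θ| ≤ a/4`, then by
`e^y ≤ 1 + y + (y²/2)e^{|y|}`: `∫ e^{θY} ≤ 1 + (θ²/(2a²)) ∫ (|x|+D)² e^{(|x|+D)/4} dlap ≤ exp(Cm θ²/a²)`. Apply it to
`Y = Tq a` (odd; `|Tq a x| ≤ |x|/a+1 ≤ (|x|+s2)/a`) and to `Y = |Tq a x| - E|Tq a|` (`D = 1 + 2 s2`). -/
def S_mgf : Prop := ∀ s2 : ℝ, 0 < s2 → ∃ Cm : ℝ, 0 < Cm ∧ ∀ a θ : ℝ, 0 < a → a ≤ s2 → |θ| ≤ a / 4 →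
  (Integrable (fun x => Real.exp (θ * (Tq a x : ℝ))) lap ∧
    (∫ x, Real.exp (θ * (Tq a x : ℝ)) ∂lap) ≤ Real.exp (Cm * θ ^ 2 / a ^ 2)) ∧
  (Integrable (fun x => Real.exp (θ * (|(Tq a x : ℝ)| - ∫ y, |(Tq a y : ℝ)| ∂lap))) lap ∧
    (∫ x, Real.exp (θ * (|(Tq a x : ℝ)| - ∫ y, |(Tq a y : ℝ)| ∂lap)) ∂lap) ≤ Real.exp (Cm * θ ^ 2 / a ^ 2))

/-- **The far part of the sum.** `S_chern` with `J = (L,d]`, `θ = σ√L/4 ≤ σj/4`, `c_j = Cm θ²/(σj)² = Cm L/(16 j²)`,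
`∑_{j>L} 1/j² ≤ 1/L`, so the bound is `2 exp(-t/4 + Cm/16)`. -/
def S_contam : Prop := ∀ s2 : ℝ, 0 < s2 → ∃ Cc : ℝ, 0 < Cc ∧ ∀ (σ : ℝ) (d L : ℕ) (t : ℝ), 0 < σ → 1 ≤ L → σ * d ≤ s2 →
  0 ≤ t → PP.real {ω | t / (σ * Real.sqrt L) ≤ |∑ j ∈ Finset.Ioc L d, (geo σ ω j : ℝ)|} ≤ Cc * Real.exp (-(t / 4))

/-- **Gaussian tail for the small part of `∑ j|X_j|`.** Note `m1 B σ = E sX σ ω B` (`S_Tqmean`). `S_chern` with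
`φ_j = j(|Tq(σj)| - E)`, `θ = λσ`, `λ ≤ 1/4`: `c_j = Cm (λσj)²/(σj)² = Cm λ²`, so the probability is
`≤ 2 exp(-λσu + Cm B λ²)`, `u = √(ε' log d) d^{3/2}`, `B ≤ η0 d`. `λ = σu/(2 Cm η0 d)` tends to `0`; the exponent is
`≤ -σ²u²/(4 Cm η0 d) ≤ -s1² ε' log d/(4 Cm η0) ≤ -(A+1) log d` if `η0 ≤ s1² ε'/(4 Cm (A+1))`. -/
def S_typs : Prop := ∀ s1 s2 ε' A : ℝ, 0 < s1 → 0 < s2 → 0 < ε' → 0 < A → ∃ η0 : ℝ, 0 < η0 ∧ η0 < 1 ∧ ∃ d0 : ℕ,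
  ∀ d ≥ d0, ∀ σ : ℝ, 0 < σ → s1 ≤ σ * d → σ * d ≤ s2 → ∀ B : ℕ, (B : ℝ) ≤ η0 * d →
    PP.real {ω | Real.sqrt (ε' * Real.log d) * (d : ℝ) ^ (3 / 2 : ℝ) ≤ |(sX σ ω B : ℝ) - m1 B σ|}
      ≤ (d : ℝ) ^ (-A)

/-- **Upper bound for persistence of the geometric process.** Let `e = e(ε)` small, `L = ⌊d^{1-e}⌋`,
`t = (log d)²`, `δ = e/4`, `L2 = ⌊δ²L/(16t²)⌋`. Off an event of probability `≤ Cc e^{-t/4} + 2Le^{-t²/2}`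
(`S_contam`, `S_float`) persistence implies for `1 ≤ k ≤ L2`: `Cg σ ω L k = Cg σ ω d k - k∑_{L<j≤d}X_j ≥
-kt/(σ√L)` and `Ch ω L k ≥ σ Cg σ ω L k - σk√L t ≥ -√k (t√(k/L) + σ√(kL) t) ≥ -δ√k` (the second term is
`≤ s2 d^{-e} t → 0`). By `S_shiftC` (`ε := e`, `X = [1,L2]`, thresholds `-δ√k`):
`P(∀k≤L2: -δ√k ≤ Ch ω L k)^{1+e} exp(-(4/e)δ²(1+log L)) ≤ P(∀k≤L2: 0 ≤ Ch ω L k)`, and by Harris and `S_step`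
`uu L ≥ P(∀k≤L2: 0 ≤ Ch ω L k)·c(L2/L)^{κ1}` (if `L2 ≥ 1`), where `(L/L2)^{κ1}` is a power of `log d`. With
`uu L ≤ L^{-θ+e}` for large `L`, everything is `≤ d^{-θ+ε}` for `e` small (use `θ ≥ 0`), `d` large; the exceptional
probability is smaller than any power of `d`. -/
def S_PU : Prop := ∀ θ s1 s2 ε : ℝ, 0 ≤ θ → IsTheta θ → 0 < s1 → 0 < s2 → 0 < ε → ∃ d0 : ℕ, ∀ d ≥ d0,
  ∀ σ : ℝ, 0 < σ → s1 ≤ σ * d → σ * d ≤ s2 →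
    PP.real {ω | ∀ k ∈ Finset.Icc 1 d, 0 ≤ Cg σ ω d k} ≤ (d : ℝ) ^ (-θ + ε)

/-- **Lower bound, small coordinates.** `B = ⌊ηd⌋`. Harris on the coordinates `1..B` for the three increasing
events (i) `k ≤ Cg σ ω B k` for `k ≤ L := ⌊d^{1-e}⌋`, (ii) the same for `k ∈ [L,B]`, (iii) `R d^{3/2} ≤ Cg σ ω B B =
∑_{j≤B} j X_j`. (iii) has probability `≥ c(R,η,s1,s2) > 0` by `S_big` with `A = 1/σ` (`R d^{3/2} ≤ R' A √B`,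
`R' = 2R s2/√η`), for large `d`. (ii) by `S_crude` has probability `≥ c (L/B)^{κ1} ≥ c d^{-eκ1}`
(`δ0 √k/σ ≥ k` since `σ√k ≤ s2/√d → 0`). (i): `Cg σ ω B k = Cg σ ω L k + k∑_{L<j≤B}X_j`, by independence and `S_half`
probability `≥ ½ P(∀k≤L: k ≤ Cg σ ω L k)`; by `S_float` with `t = log d` this is
`≥ ½(P(∀k≤L: δ√k ≤ Ch ω L k) - 2Le^{-t²/2})`, `δ = e/4`, since `Cg ≥ δ√k/σ - k√L t ≥ k` when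
`δ ≥ σ√k(1+√L t)`, true for large `d` as `σ L t → 0`. Finally `S_shiftC` (`t = 0`, `X = [1,L]`):
`≥ (uu L)^{1+e} exp(-(4/e)δ²(1+log L))`, and `uu L ≥ L^{-θ-e}`. Choose `e` small. -/
def S_PLs : Prop := ∀ θ s1 s2 ε η R : ℝ, 0 ≤ θ → IsTheta θ → 0 < s1 → 0 < s2 → 0 < ε → 0 < η → η < 1 → 0 < R →
  ∃ d0 : ℕ, ∀ d ≥ d0, ∀ σ : ℝ, 0 < σ → s1 ≤ σ * d → σ * d ≤ s2 →
    (d : ℝ) ^ (-θ - ε) ≤ PP.real {ω | (∀ k ∈ Finset.Icc 1 ⌊η * d⌋₊, (k : ℝ) ≤ Cg σ ω ⌊η * d⌋₊ k) ∧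
      R * (d : ℝ) ^ (3 / 2 : ℝ) ≤ Cg σ ω ⌊η * d⌋₊ ⌊η * d⌋₊}

/-- **Middle coordinates.** `J = (B,d] \ {j*}`, `B = ⌊ηd⌋`. `P(∑_J X_j ≥ 0) ≥ 1/2` (`S_half`). With
`E X_j² ≤ Cv/(σj)²` (`S_AdmGeo`): `∑_J E(jX_j)² ≤ Cv d/σ² ≤ (Cv/s1²) d³`, `∑_J E X_j² ≤ Cv d/(σ² B²)
≤ C d` (large `d`, constant depends on `η`); `∑_J min(j,k)X_j = ∑_{j≤k} jX_j + k∑_{j>k}X_j` (`j ∈ J`), so by `S_cheb`
(put `φ_{j*} = 0`) the event `∃k: |∑_J min(j,k)X_j| > R d^{3/2}` has probability `≤ 1/8` for `R` large; and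
`P(|∑_J (j|X_j| - E)| > R d^{3/2}) ≤ (Cv/s1²)/R² ≤ 1/8` by `S_var2`. -/
def S_mid : Prop := ∀ s1 s2 η : ℝ, 0 < s1 → 0 < s2 → 0 < η → η < 1 → ∃ R : ℝ, 0 < R ∧ ∃ d0 : ℕ, ∀ d ≥ d0, ∀ σ : ℝ,
  0 < σ → s1 ≤ σ * d → σ * d ≤ s2 → ∀ js : ℕ,
    1 / 4 ≤ PP.real {ω | 0 ≤ ∑ j ∈ (Finset.Ioc ⌊η * d⌋₊ d).erase js, (geo σ ω j : ℝ) ∧
      (∀ k ∈ Finset.Icc 1 d, -(R * (d : ℝ) ^ (3 / 2 : ℝ)) ≤
        ∑ j ∈ (Finset.Ioc ⌊η * d⌋₊ d).erase js, ((min j k : ℕ) : ℝ) * (geo σ ω j : ℝ)) ∧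
      |∑ j ∈ (Finset.Ioc ⌊η * d⌋₊ d).erase js,
        ((j : ℝ) * |(geo σ ω j : ℝ)| - (j : ℝ) * (2 * Real.exp (-(σ * j)) / (1 - Real.exp (-(2 * σ * j)))))|
        ≤ R * (d : ℝ) ^ (3 / 2 : ℝ)}

/-- **Lower bound for persistence, with typicality and parity.** Choose `η = min(η0, 1/2)` from `S_typs` (with
`ε'/16` for `ε'` and `A = θ + ε + 1`), `R` from `S_mid`, and use `S_PLs` with `2R` for `R` and `ε/2`. Let `j*` be the odd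
number among `d, d-1` (`> B = ⌊ηd⌋`). Events: `E1` (coordinates `≤ B`): that of `S_PLs` and
`|sX σ ω B - m1 B σ| < √(ε' log d/16) d^{3/2}`, probability `≥ d^{-θ-ε/2} - d^{-A}`; `E2` (coordinates `(B,d]\{j*}`):
`S_mid`; and `X_{j*} = q` where `q ∈ {0,1}` makes `sX` have parity `p` (`q` is a function of the other coordinates:
split into the two cases, `S_indep`); `P(X_{j*} = q) ≥ c > 0` by `S_Tqlaw` as `σj* ∈ [s1/2, s2]`. On these events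
`X_{j*} ≥ 0`; for `k ≤ B`: `Cg σ ω d k = Cg σ ω B k + k∑_{j>B}X_j ≥ k`; for `B < k ≤ d`:
`Cg σ ω d k ≥ 2R d^{3/2} - R d^{3/2} ≥ d ≥ k`; and `|sX σ ω d - m1 d σ| ≤ ¼√(ε' log d) d^{3/2} + R d^{3/2} + O(d)`
(the term `j*` contributes `≤ d + d·E|X_{j*}| = O(d)`), `≤ √(ε' log d) d^{3/2}` for large `d`. -/
def S_PL : Prop := ∀ θ s1 s2 ε ε' : ℝ, 0 ≤ θ → IsTheta θ → 0 < s1 → 0 < s2 → 0 < ε → 0 < ε' →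
  ∃ d0 : ℕ, ∀ d ≥ d0, ∀ σ : ℝ, 0 < σ → s1 ≤ σ * d → σ * d ≤ s2 → ∀ p : ℤ, (p = 0 ∨ p = 1) →
    (d : ℝ) ^ (-θ - ε) ≤ PP.real {ω | (∀ k ∈ Finset.Icc 1 d, (k : ℝ) ≤ Cg σ ω d k) ∧
      |(sX σ ω d : ℝ) - m1 d σ| ≤ Real.sqrt (ε' * Real.log d) * (d : ℝ) ^ (3 / 2 : ℝ) ∧
      sX σ ω d % 2 = p}

/-- **Typicality and parity with constant probability.** As in `S_PL` with `J = [1,d] \ {j*}`, `j*` odd among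
`d, d-1`: `P(|∑_J (j|X_j|-E)| ≤ R d^{3/2}) ≥ 1/2` by `S_var2` and `S_AdmGeo` (or `|Tq a x| ≤ |x|/a+1`) for a constant
`R`, and `P(X_{j*} = q) ≥ c`, `q ∈ {0,1}` chosen by parity, independent of the other coordinates. -/
def S_PT : Prop := ∀ s1 s2 ε' : ℝ, 0 < s1 → 0 < s2 → 0 < ε' → ∃ c : ℝ, 0 < c ∧ ∃ d0 : ℕ, ∀ d ≥ d0, ∀ σ : ℝ, 0 < σ →
  s1 ≤ σ * d → σ * d ≤ s2 → ∀ p : ℤ, (p = 0 ∨ p = 1) →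
    c ≤ PP.real {ω | |(sX σ ω d : ℝ) - m1 d σ| ≤ Real.sqrt (ε' * Real.log d) * (d : ℝ) ^ (3 / 2 : ℝ) ∧
      sX σ ω d % 2 = p}

end Pool.Agent.H174.GP
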