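import Pool.Agent.H174.GP.Defs

open MeasureTheory ProbabilityTheory Finset

namespace Pool.Agent.H174.GP

/-- **Laplace moments.** `∫ |x|^k dlap = k!`: `lap` has density `e^{-|x|}/2`; so the second moment is 2, the
fourth is 24, the first absolute moment 1; all exponential moments `E e^{c|x|}`, `c < 1`, are finite. -/
def S_L1 : Prop := (∫ x, x ^ 2 ∂lap) = 2 ∧ (∫ x, x ^ 4 ∂lap) = 24 ∧ (∫ x, |x| ∂lap) = 1 ∧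
  (∀ k : ℕ, Integrable (fun x : ℝ => x ^ k) lap) ∧ (∀ k : ℕ, Integrable (fun x : ℝ => |x| ^ k) lap) ∧
  ∀ (k : ℕ) (c : ℝ), c < 1 → Integrable (fun x : ℝ => |x| ^ k * Real.exp (c * |x|)) lap

/-- **Laplace moment generating function.** `½∫ e^{θx-|x|} dx = ½(1/(1-θ) + 1/(1+θ)) = 1/(1-θ²)`. -/
def S_L2 : Prop := ∀ θ : ℝ, |θ| < 1 → Integrable (fun x : ℝ => Real.exp (θ * x)) lap ∧
  (∫ x, Real.exp (θ * x) ∂lap) = 1 / (1 - θ ^ 2)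

/-- **Symmetry and tail.** The density is even; `lap{|x| ≥ t} = e^{-t}` for `t ≥ 0`; no atoms. -/
def S_L3 : Prop := Measure.map (fun x : ℝ => -x) lap = lap ∧
  (∀ t : ℝ, 0 ≤ t → lap.real {x | t ≤ |x|} = Real.exp (-t)) ∧ ∀ x : ℝ, lap {x} = 0

/-- **Characteristic function**: `½∫ e^{itx-|x|} dx = 1/(1+t²)`. -/
def S_L5 : Prop := ∀ t : ℝ, charFun lap t = 1 / (1 + (t : ℂ) ^ 2)

/-- **Cost of a shift.** `Y = |z| - |z-η| ∈ [-η,η]`, `E Y = 1 - (η + e^{-η}) ≤ 0` (as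
`E|z-η| = η + e^{-η}` for `η ≥ 0`). `e^y ≤ 1 + y + (y²/2) e^{|y|}`, so with `bη ≤ 1/2`:
`E e^{bY} ≤ 1 + (b²η²/2) e^{1/2} ≤ 1 + b²η² ≤ e^{b²η²}`. (If you prefer: bound the explicit integral.) -/
def S_L6 : Prop := ∀ b η : ℝ, 0 < b → 0 ≤ η → b * η ≤ 1 / 2 →
  (∫ z, Real.exp (b * (|z| - |z - η|)) ∂lap) ≤ Real.exp (b ^ 2 * η ^ 2)

/-- **Independence of disjoint blocks of coordinates.** (`iIndepFun_infinitePi` and finset blocks; replace a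
set `F` depending only on `I` by a preimage of a measurable set in `I → ℝ`: `F` is the preimage of
`{v | extension of v by zeros ∈ F}`, measurable because extension is.) -/
def S_indep : Prop := ∀ (I J : Finset ℕ) (F G : Set (ℕ → ℝ)), Disjoint I J → MeasurableSet F →
  MeasurableSet G → DepOn I F → DepOn J G → PP.real (F ∩ G) = PP.real F * PP.real G

/-- **Harris inequality** for increasing events depending on finitely many coordinates. Induction on the number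
of coordinates for increasing bounded functions `f, g` of `(x_i)_{i∈I}`: in one variable
`∬ (f(x)-f(y))(g(x)-g(y)) ≥ 0` gives `E fg ≥ E f E g`; in several, integrate out one coordinate (the partial
integrals are increasing). Transfer from `Measure.pi` on `I → ℝ` by `infinitePi_map_restrict`. -/
def S_harris : Prop := ∀ (I : Finset ℕ) (F G : Set (ℕ → ℝ)), MeasurableSet F → MeasurableSet G →
  DepOn I F → DepOn I G → IsUpperSet F → IsUpperSet G → PP.real F * PP.real G ≤ PP.real (F ∩ G)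

/-- **Harris for a finite family** (induction from `S_harris`; finite intersections of upper sets are upper sets
and depend on `I`). -/
def S_harrisN : Prop := ∀ (I : Finset ℕ) (s : Finset ℕ) (F : ℕ → Set (ℕ → ℝ)),
  (∀ i ∈ s, MeasurableSet (F i)) → (∀ i ∈ s, DepOn I (F i)) → (∀ i ∈ s, IsUpperSet (F i)) →
    ∏ i ∈ s, PP.real (F i) ≤ PP.real (⋂ i ∈ s, F i)

/-- **Symmetric sums are nonnegative with probability at least 1/2.** The map `ω ↦ -ω` preserves `PP`, it maps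
`{sum ≥ 0}` to `{sum ≤ 0}` and the two sets cover everything. -/
def S_half : Prop := ∀ (J : Finset ℕ) (φ : ℕ → ℝ → ℝ), (∀ j ∈ J, Measurable (φ j)) →
  (∀ j ∈ J, ∀ x, φ j (-x) = - φ j x) → 1 / 2 ≤ PP.real {ω | 0 ≤ ∑ j ∈ J, φ j (ω j)}

/-- **Lévy's maximal inequality.** `S_l = ∑_{a<j≤l} φ_j(ω_j)`, `τ` = first `l ≥ a` with `|S_l| ≥ t`. Flipping the
signs of the coordinates `> l` preserves `PP` and the event `{τ = l}` and maps `S_b` to `2S_l - S_b`. Since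
`2|S_l| ≤ |S_b| + |2S_l - S_b|`, on `{τ = l}` one of `|S_b|, |2S_l-S_b|` is `≥ t`. So
`P(τ=l) ≤ 2 P(τ=l, |S_b| ≥ t)`; sum over `l`. -/
def S_levy : Prop := ∀ (a b : ℕ) (φ : ℕ → ℝ → ℝ) (t : ℝ), a ≤ b →
  (∀ j ∈ Finset.Ioc a b, Measurable (φ j)) → (∀ j ∈ Finset.Ioc a b, ∀ x, φ j (-x) = - φ j x) →
  PP.real {ω | ∃ l ∈ Finset.Icc a b, t ≤ |∑ j ∈ Finset.Ioc a l, φ j (ω j)|}
    ≤ 2 * PP.real {ω | t ≤ |∑ j ∈ Finset.Ioc a b, φ j (ω j)|}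

/-- **Second moment.** Odd functions have mean zero, independence kills the mixed terms. -/
def S_var : Prop := ∀ (J : Finset ℕ) (φ : ℕ → ℝ → ℝ), (∀ j ∈ J, Measurable (φ j)) →
  (∀ j ∈ J, ∀ x, φ j (-x) = - φ j x) → (∀ j ∈ J, Integrable (fun x => (φ j x) ^ 4) lap) →
  (∫ ω, (∑ j ∈ J, φ j (ω j)) ^ 2 ∂PP) = ∑ j ∈ J, ∫ x, (φ j x) ^ 2 ∂lap ∧
  Integrable (fun ω : ℕ → ℝ => (∑ j ∈ J, φ j (ω j)) ^ 4) PP ∧
  (∫ ω, (∑ j ∈ J, φ j (ω j)) ^ 4 ∂PP) ≤ 3 * (∑ j ∈ J, ∫ x, (φ j x) ^ 2 ∂lap) ^ 2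
    + ∑ j ∈ J, ∫ x, (φ j x) ^ 4 ∂lap

/-- **Chebyshev + Lévy.** From `S_var` (Markov for the square) and `S_levy`. -/
def S_cheb : Prop := ∀ (a b : ℕ) (φ : ℕ → ℝ → ℝ) (t : ℝ), a ≤ b → 0 < t →
  (∀ j ∈ Finset.Ioc a b, Measurable (φ j)) → (∀ j ∈ Finset.Ioc a b, ∀ x, φ j (-x) = - φ j x) →
  (∀ j ∈ Finset.Ioc a b, Integrable (fun x => (φ j x) ^ 4) lap) →
  PP.real {ω | ∃ l ∈ Finset.Icc a b, t ≤ |∑ j ∈ Finset.Ioc a l, φ j (ω j)|}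
    ≤ 2 * (∑ j ∈ Finset.Ioc a b, ∫ x, (φ j x) ^ 2 ∂lap) / t ^ 2

/-- **Paley–Zygmund.** `V = ∑ E φ_j²`, `W = S²`: `P(W ≥ V/4) ≥ (3/4)² (E W)²/E W² ≥ (9/16)/(3+κ)` since
`E S⁴ ≤ 3V² + κV²` (`S_var`); half of it for `S ≥ √V/2` by the symmetry `ω ↦ -ω`. Direct proof of PZ:
`V = E W ≤ V/4 + E[W; W ≥ V/4] ≤ V/4 + (E W²)^{1/2} P(W ≥ V/4)^{1/2}`. (For `V = 0` trivial.) -/
def S_pz : Prop := ∀ (J : Finset ℕ) (φ : ℕ → ℝ → ℝ) (κ : ℝ), 0 ≤ κ → (∀ j ∈ J, Measurable (φ j)) →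
  (∀ j ∈ J, ∀ x, φ j (-x) = - φ j x) → (∀ j ∈ J, Integrable (fun x => (φ j x) ^ 4) lap) →
  (∑ j ∈ J, ∫ x, (φ j x) ^ 4 ∂lap) ≤ κ * (∑ j ∈ J, ∫ x, (φ j x) ^ 2 ∂lap) ^ 2 →
  (9 / 32) / (3 + κ) ≤ PP.real {ω | Real.sqrt (∑ j ∈ J, ∫ x, (φ j x) ^ 2 ∂lap) / 2 ≤ ∑ j ∈ J, φ j (ω j)}

/-- **Hoeffding.** `φ_j(ω_j)` are independent, bounded by `a_j`, with mean zero (odd function of a symmetric
variable), so sub-Gaussian with parameter `a_j²` (Mathlib: `hasSubgaussianMGF_of_mem_Icc`,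
`HasSubgaussianMGF.measure_sum_ge_le_of_iIndepFun`). -/
def S_hoeff : Prop := ∀ (J : Finset ℕ) (φ : ℕ → ℝ → ℝ) (a : ℕ → ℝ) (V u : ℝ),
  (∀ j ∈ J, Measurable (φ j)) → (∀ j ∈ J, ∀ x, φ j (-x) = - φ j x) → (∀ j ∈ J, 0 ≤ a j) →
  (∀ j ∈ J, ∀ x, |φ j x| ≤ a j) → 0 < V → (∑ j ∈ J, (a j) ^ 2) ≤ V → 0 ≤ u →
  PP.real {ω | u ≤ |∑ j ∈ J, φ j (ω j)|} ≤ 2 * Real.exp (-(u ^ 2 / (2 * V)))

/-- **Exponential tail from a moment generating function.** If `E e^{θφ_j} ≤ e^{c_j}` and `E e^{-θφ_j} ≤ e^{c_j}`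
(`θ ≥ 0`) then `P(|∑ φ_j| ≥ t) ≤ 2 exp(-θt + ∑ c_j)` (Markov, independence). No symmetry needed. -/
def S_chern : Prop := ∀ (J : Finset ℕ) (φ : ℕ → ℝ → ℝ) (c : ℕ → ℝ) (θ t : ℝ), 0 ≤ θ →
  (∀ j ∈ J, Measurable (φ j)) →
  (∀ j ∈ J, Integrable (fun x => Real.exp (θ * φ j x)) lap ∧ Integrable (fun x => Real.exp (-(θ * φ j x))) lap) →
  (∀ j ∈ J, (∫ x, Real.exp (θ * φ j x) ∂lap) ≤ Real.exp (c j) ∧
    (∫ x, Real.exp (-(θ * φ j x)) ∂lap) ≤ Real.exp (c j)) →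
  PP.real {ω | t ≤ |∑ j ∈ J, φ j (ω j)|} ≤ 2 * Real.exp (-(θ * t) + ∑ j ∈ J, c j)

/-- **Shift inequality (Hölder).** Let `a = 1+ε`, `b = (1+ε)/ε` (`1/a + 1/b = 1`, `a/b = ε`). The law of
`ω + η` (shift of the coordinates `1..N`; the others do not matter) has density
`R(z) = ∏_{j≤N} e^{|z_j| - |z_j-η_j|}` with respect to `PP`, so with `F' = {ω | ω - η ∈ F}`:
`P(F) = ∫ 1_{F'} R dPP ≤ P(F')^{1/a} (E R^b)^{1/b}`, hence `P(F') ≥ P(F)^a / (E R^b)^{a/b}`. By `S_L6`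
(`b η_j ≤ (2/ε)(ε/4) = 1/2`) `E R^b ≤ exp(b² ∑ η_j²)` and `(E R^b)^{a/b} ≤ exp(ε b² ∑ η_j²) ≤
exp((4/ε) ∑ η_j²)`. Work on `Measure.pi` over `Icc 1 N` (translation invariance of Lebesgue measure in each
coordinate) and transfer. -/
def S_shift : Prop := ∀ (ε : ℝ) (N : ℕ) (η : ℕ → ℝ) (F : Set (ℕ → ℝ)), 0 < ε → ε ≤ 1 →
  (∀ j, 0 ≤ η j ∧ η j ≤ ε / 4) → MeasurableSet F → DepOn (Finset.Icc 1 N) F →
  (PP.real F) ^ (1 + ε) * Real.exp (-((4 / ε) * ∑ j ∈ Finset.Icc 1 N, (η j) ^ 2))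
    ≤ PP.real {ω | (fun j => ω j - η j) ∈ F}

/-- **Shift for the Laplace process.** `η_j = δ/√j` for `1 ≤ j ≤ L` (`0` else): for `ω = ω' + η`:
`Ch ω L x = Ch ω' L x + ∑_j min(j,x) η_j/j ≥ Ch ω' L x + ∑_{j≤x} δ/√j ≥ Ch ω' L x + δ√x`. And
`∑_{j≤L} η_j² ≤ δ²(1 + log L)`. Apply `S_shift` to `F = {∀ x ∈ X, t x ≤ Ch ω L x}` (`X ⊆ [1,L]`). -/
def S_shiftC : Prop := ∀ (ε δ : ℝ) (L : ℕ) (X : Finset ℕ) (t : ℕ → ℝ), 0 < ε → ε ≤ 1 → 0 < δ → δ ≤ ε / 4 →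
  1 ≤ L → X ⊆ Finset.Icc 1 L →
  (PP.real {ω | ∀ x ∈ X, t x ≤ Ch ω L x}) ^ (1 + ε) * Real.exp (-((4 / ε) * (δ ^ 2 * (1 + Real.log L))))
    ≤ PP.real {ω | ∀ x ∈ X, t x + δ * Real.sqrt x ≤ Ch ω L x}

/-- **Tail of the partial sums.** `E e^{θx} = 1/(1-θ²) ≤ e^{2θ²}` for `|θ| ≤ 1/2`; `θ = 1/(2√N)` gives
`P(|S_{a+N}-S_a| ≥ t) ≤ 2 exp(-t/(2√N) + 1/2)`; with Lévy's inequality for the maximum over the window a factor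
`2`. -/
def S_Stail : Prop := ∀ (a N : ℕ) (t : ℝ), 1 ≤ N → 0 ≤ t →
  PP.real {ω | ∃ l ∈ Finset.Icc a (a + N), t ≤ |S ω l - S ω a|}
    ≤ 4 * Real.exp (1 / 2) * Real.exp (-(t / (2 * Real.sqrt N)))

/-- **Tail of the times.** `G = g+1` with `g` geometric from `0`, success probability `p = 1/K`, mean `K`.
`E e^{sG} = p e^s/(1-(1-p)e^s) = p/(p-(1-e^{-s}))`. For `s = λ/K`, `0 ≤ λ ≤ 1/2`: `1-e^{-s} ≤ s`, so
`E e^{s(G-K)} ≤ e^{-λ}/(1-λ) ≤ e^{λ²}`. For `s = -λ/K`: `E e^{s(G-K)} ≤ e^{λ}/(1+λ) ≤ e^{λ²/2}`.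
`λ = 1/(2√i)`: `P(|τ_i - Ki| ≥ K√i ℓ) ≤ 2 exp(-ℓ/2 + 1/4)`. -/
def S_tautail : Prop := ∀ (K i : ℕ) (l : ℝ), 1 ≤ K → 1 ≤ i → 0 ≤ l →
  (GG K).real {g | K * Real.sqrt i * l ≤ |(tau g i : ℝ) - K * i|}
    ≤ 2 * Real.exp (1 / 4) * Real.exp (-(l / 2))

/-- **Geometric stability of the Laplace distribution.** `p = 1/K`. The mixture over `k` (weights
`p(1-p)^k`) of the laws of `S_{k+1}/√K` has characteristic function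
`∑_k p(1-p)^k φ(t/√K)^{k+1}`, `φ(t/√K) = 1/(1+pt²)`, which is `pφ/(1-(1-p)φ) = 1/(1+t²)`. Conclude by
uniqueness of characteristic functions (`Measure.ext_of_charFun`). -/
def S_Z1 : Prop := ∀ (K : ℕ) (B : Set ℝ), 1 ≤ K → MeasurableSet B →
  ∑' k : ℕ, (geometricMeasure (pK K)) {k} * PP {ω | S ω (k + 1) / Real.sqrt K ∈ B} = lap B

/-- **The coarse sequence is again a Laplace sequence.** Use `Measure.eq_infinitePi`: for a finite set of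
indices (enlarge it to `{0,...,n}` by `univ` factors) and boxes `B_i`:
`P(Z_i ∈ B_i, i ≤ n) = ∑_{g_0..g_{n-1}} ∏ geo(g_l) P(ω_0 ∈ B_0, (S_{τ_i}-S_{τ_{i-1}})/√K ∈ B_i)`; for fixed `g`
the sums over disjoint blocks of coordinates are independent and the `i`-th has the law of `S_{g_{i-1}+1}`, so
the probability factors and `S_Z1` finishes. (Measurability: `g` takes countably many values.) -/
def S_Zmp : Prop := ∀ K : ℕ, 1 ≤ K → MeasurePreserving (fun p => (fun i => Z K p i)) (PP.prod (GG K)) PP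

/-- **Summation by parts.** `min(1, y/j)` is `1` for `j ≤ y` and `w_j - w_{j+1} = y/(j(j+1))` for `j ≥ y`. -/
def S_abel : Prop := ∀ (ω : ℕ → ℝ) (L y : ℕ), 1 ≤ y → y ≤ L →
  Ch ω L y = (∑ j ∈ Finset.Ico y L, ((y : ℝ) / ((j : ℝ) * ((j : ℝ) + 1))) * S ω j) + ((y : ℝ) / L) * S ω L

/-- **Deterministic comparison of the fine and the coarse process.** Write `D = 8 l^{3/2}`, `E_i = D i^{1/4}`.
By `S_abel`, grouping `j ∈ [Ki, K(i+1))`: `∑_j Kx/(j(j+1)) = x/(i(i+1))` exactly, so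
`|K^{-1/2} Ch ω (Kn) (Kx) - Ch ω' n x| ≤ ∑_{i=x}^{n-1} x/(i(i+1)) E_i + (x/n) E_n ≤ 4 D x^{1/4}`
(`∑_{i≥x} i^{-7/4} ≤ x^{-7/4} + (4/3) x^{-3/4}`; `(x/n) n^{1/4} ≤ x^{1/4}`).
For `y ∈ [Kx, K(x+1))`, `x ≥ x0`, `y ≤ Kn`: `Ch ω (Kn) y / y = Ch ω (Kn) (Kx)/(Kx) - ∑_{j=Kx}^{y-1} S_j/(j(j+1))`
and `∑_{j=Kx}^{y-1} 1/(j(j+1)) = 1/(Kx) - 1/y ≤ 1/(Kx(x+1))`, `|S_j| ≤ √K (l √x + E_x)` in this block. So
`Ch ω (Kn) y ≥ 0` follows from `δ√x - 4D x^{1/4} ≥ (l√x + D x^{1/4})/(x+1)`, and the right side is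
`≤ (l + D) x^{1/4}`; `5D + l ≤ 41 l^{3/2}` and `x^{1/4} ≥ x0^{1/4} ≥ 41 l^{3/2}/δ`. -/
def S_cdet : Prop := ∀ (K n x0 : ℕ) (ω ω' : ℕ → ℝ) (l δ : ℝ), 1 ≤ K → 1 ≤ n → 1 ≤ x0 → 1 ≤ l → 0 < δ →
  (41 * l ^ (3 / 2 : ℝ) / δ) ^ 4 ≤ x0 →
  (∀ i ∈ Finset.Icc x0 n, ∀ j : ℕ, K * i ≤ j → j < K * (i + 1) → j ≤ K * n →
    |S ω j - Real.sqrt K * S ω' i| ≤ Real.sqrt K * (8 * l ^ (3 / 2 : ℝ) * (i : ℝ) ^ (1 / 4 : ℝ))) →
  (∀ i ∈ Finset.Icc x0 n, |S ω' i| ≤ l * Real.sqrt i) →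
  (∀ x ∈ Finset.Icc x0 n, δ * Real.sqrt x ≤ Ch ω' n x) →
  ∀ y ∈ Finset.Icc (K * x0) (K * n), 0 ≤ Ch ω (K * n) y

/-- **Coarse graining.** On `PP.prod (GG K)` let `ω' = Z K (ω,g)`, a Laplace sequence by `S_Zmp`, with
`√K S ω' i = S ω (τ_i)`. Outside a bad event the hypotheses of `S_cdet` hold, so
`P(∀x δ√x ≤ Ch ω' n x) ≤ P(∀y 0 ≤ Ch ω (Kn) y) + P(bad)`. With `l = 2(A+1) log n`, for `1 ≤ i ≤ n`:
(a) `|τ_i - Ki| ≥ K√i l`: probability `≤ 2e^{1/4} e^{-l/2}` (`S_tautail`);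
(b) on the complement, `τ_i` and all `j ∈ [Ki, K(i+1))` lie in a window `[a,a+N]` with
`N ≤ 2K(√i l + 1) ≤ 4K√i l`, `N ≥ 1`; if `|S_j - S_{τ_i}| > √K E_i`, `E_i = 8 l^{3/2} i^{1/4}`, then
`|S_l - S_a| ≥ √K E_i/2` for some `l` in the window; probability `≤ 4e^{1/2} exp(-√K E_i/(4√N)) ≤ 4e^{1/2}e^{-l}`
by `S_Stail`;
(c) `|S ω' i| ≥ l√i`: probability `≤ 4e^{1/2} e^{-l/2}` (`S_Stail` with `a = 0`, `N = i`).
Total `≤ n (2e^{1/4} + 8e^{1/2}) e^{-l/2} ≤ 40 n · n^{-(A+1)}`. (`Measure.prod`: for fixed `g` resp. `ω`.) -/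
def S_coarse : Prop := ∀ (K n x0 : ℕ) (A δ : ℝ), 1 ≤ K → 2 ≤ n → 1 ≤ x0 → 0 ≤ A → 0 < δ →
  1 ≤ 2 * (A + 1) * Real.log n → (41 * (2 * (A + 1) * Real.log n) ^ (3 / 2 : ℝ) / δ) ^ 4 ≤ x0 →
  PP.real {ω | ∀ x ∈ Finset.Icc x0 n, δ * Real.sqrt x ≤ Ch ω n x}
    ≤ PP.real {ω | ∀ y ∈ Finset.Icc (K * x0) (K * n), 0 ≤ Ch ω (K * n) y} + 40 * (n : ℝ) ^ (-A)

end Pool.Agent.H174.GP
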