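import Pool.Agent.H174.GP.Defs

open MeasureTheory ProbabilityTheory Finset

namespace Pool.Agent.H174.GP

/-- **Erdős–Gallai, necessity.** If `G` has degrees `d` (nonincreasing) then the degree sum is even and
`∑_{i<k} d_i ≤ k(k-1) + ∑_{i≥k} min(d_i,k)` for all `k ≤ n`. Proof: degrees of the first `k` vertices
count ordered pairs inside (at most `k(k-1)`) plus edges to each outside vertex `i` (at most `min(d_i,k)`). -/
def S_EGn : Prop := ∀ (n : ℕ) (d : Fin n → ℕ),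
  (∃ (G : SimpleGraph (Fin n)) (_ : DecidableRel G.Adj), ∀ v, G.degree v = d v) →
    Even (∑ i, d i) ∧ ∀ k ≤ n, ∑ i ∈ univ.filter (fun i : Fin n => (i : ℕ) < k), d i
      ≤ k * (k - 1) + ∑ i ∈ univ.filter (fun i : Fin n => k ≤ (i : ℕ)), min (d i) k

/-- **Erdős–Gallai, sufficiency** (any published proof; e.g. Tripathi–Venugopalan–West 2010).
Their proof: a subrealization is a graph with `deg v_i ≤ d_i` for all `i`; start with no edges. Let `r` be the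
critical index: `deg v_i = d_i` for `i < r`, `deg v_r < d_r`; keep `S = {v_{r+1},...,v_n}` independent.
Make a step that lexicographically increases the degree list (degrees of `v_i`, `i<r`, unchanged):
Case 0: `v_r` not adjacent to some `v_i` with `deg v_i < d_i`: add the edge.
Case 1: `v_r` not adjacent to `v_i` for some `i < r`. As `deg v_i = d_i ≥ d_r > deg v_r` there is
`u ∈ N(v_i) \ (N(v_r) ∪ {v_r})`. If `d_r - deg v_r ≥ 2` replace `u v_i` by `u v_r, v_i v_r`. If it is `1`,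
by parity some `k > r` has `deg v_k < d_k`; case 0 applies unless `v_r ~ v_k`; replace `v_r v_k, u v_i` by
`u v_r, v_i v_r`.
Case 2: `v_1..v_{r-1} ∈ N(v_r)` and `deg v_k ≠ min(r, d_k)` for some `k > r`. As `S` is independent
`deg v_k ≤ r`, so `deg v_k < min(r,d_k)`; case 0 unless `v_k ~ v_r`; since `deg v_k < r` some `i < r` has
`v_k` not adjacent to `v_i`; as `deg v_i > deg v_r` there is `u ∈ N(v_i) \ (N(v_r) ∪ {v_r})`; replace `u v_i`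
by `u v_r, v_i v_k`.
Case 3: `v_1..v_{r-1} ∈ N(v_r)`, `v_i` not adjacent to `v_j` for some `i < j < r`: there are
`u ∈ N(v_i) \ (N(v_r) ∪ {v_r})`, `w ∈ N(v_j) \ (N(v_r) ∪ {v_r})` (possibly `u = w`), both in `S` (index > r,
since all smaller ones are in `N(v_r)`); replace `u v_i, w v_j` by `v_i v_j, u v_r`.
If no case applies: `v_1..v_r` pairwise adjacent and `deg v_k = min(r,d_k)` for `k > r`, so
`∑_{i≤r} deg v_i = r(r-1) + ∑_{k>r} min(r,d_k) ≥ ∑_{i≤r} d_i`, hence no deficiency at `v_r`. Termination: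
the degree list increases lexicographically and is bounded. -/
def S_EGs : Prop := ∀ (n : ℕ) (d : Fin n → ℕ), Antitone d →
  (Even (∑ i, d i) ∧ ∀ k ≤ n, ∑ i ∈ univ.filter (fun i : Fin n => (i : ℕ) < k), d i
      ≤ k * (k - 1) + ∑ i ∈ univ.filter (fun i : Fin n => k ≤ (i : ℕ)), min (d i) k) →
  ∃ (G : SimpleGraph (Fin n)) (_ : DecidableRel G.Adj), ∀ v, G.degree v = d v

/-- **Sum of the parts.** `∑_i (d + ∑_{l≥i} g_l) = d² + ∑ (l+1) g_l`, the rest is `∑ (l+1) h_l`. -/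
def S_toPsum : Prop := ∀ (d : ℕ) (g h : Fin d → ℕ),
  (toP d g h).sum = d ^ 2 + ∑ i : Fin d, ((i : ℕ) + 1) * (g i + h i)

/-- **Injectivity of `toP`.** `d` is the Durfee size: the largest `r` with at least `r` parts `≥ r` (in
`toP d g h` there are exactly `d` top parts, all `≥ d`, all other parts are `≤ d`; so at least `d` parts are
`≥ d`, and for `r > d` only top parts can be `≥ r`, i.e. at most `d < r` of them). For `x > d` the number of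
parts `≥ x` is the number of `i` with `∑_{l≥i} g_l ≥ x - d`, this determines the (antitone) values `topP d g i`
and so `g`; the number of parts equal to `l+1 < d` is `h_l` (top parts are `≥ d`), and `h_{d-1}` = (number of
all parts) - `d` - `∑_{l<d-1} h_l`. -/
def S_toPinj : Prop := ∀ (d d' : ℕ) (g h : Fin d → ℕ) (g' h' : Fin d' → ℕ), toP d g h = toP d' g' h' →
  (⟨d, (g, h)⟩ : Σ r : ℕ, (Fin r → ℕ) × (Fin r → ℕ)) = ⟨d', (g', h')⟩

/-- **Surjectivity of `toP`.** Given a finite multiset of positive integers, sort it nonincreasingly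
`λ_1 ≥ λ_2 ≥ ...`, `d` = largest `r` with `λ_r ≥ r` (`0` if empty); `g_i = λ_{i+1} - λ_{i+2}` for `i+1 < d`,
`g_{d-1} = λ_d - d`; `h_l` = number of `i > d` with `λ_i = l+1` (all `λ_i ≤ d` for `i > d`). -/
def S_toPsurj : Prop := ∀ s : Multiset ℕ, (∀ x ∈ s, 0 < x) →
  ∃ (d : ℕ) (g h : Fin d → ℕ), toP d g h = s

/-- **The Erdős–Gallai condition in Durfee coordinates.** Write `λ_1 ≥ λ_2 ≥ ...` for the parts, `n` their
number: `λ_i = topP d g (i-1)` for `i ≤ d`, then `h_{d-1}` times `d`, ..., `h_0` times `1`. For `k ≤ d`: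
`∑_{i>k} min(λ_i,k) = ∑_i min(λ_i,k) - k²` and `∑_i min(λ_i,k) = d k + ∑_l min(l+1,k) h_l`,
`∑_{i≤k} λ_i = k d + ∑_l min(l+1,k) g_l`; so the `k`-th inequality is `∑_l min(l+1,k)(h_l - g_l) ≥ k`.
For `k > d` the `k`-th inequality follows from the `d`-th: `RHS(k) - RHS(d) = k(k-1) - d(d-1) - ∑_{d<i≤k} λ_i`
and `LHS(k)-LHS(d) = ∑_{d<i≤k} λ_i`, and `k(k-1) - d(d-1) = (k-d)(k+d-1) ≥ 2d(k-d) ≥ 2 ∑_{d<i≤k} λ_i`
since `λ_i ≤ d` for `i > d`. (`GrM s` speaks about the multiset of degrees; relabel the vertices by a sorting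
permutation to get degree sequence = antitone listing `Fin n → ℕ`.) -/
def S_Crit : Prop := ∀ (d : ℕ) (g h : Fin d → ℕ), 1 ≤ d →
  (GrM (toP d g h) ↔ Even (toP d g h).sum ∧ ∀ k ∈ Finset.Icc 1 d,
    (k : ℤ) ≤ ∑ i : Fin d, ((min ((i : ℕ) + 1) k : ℕ) : ℤ) * ((h i : ℤ) - (g i : ℤ)))

/-- **Counting.** `(d,g,h) ↦ toP d g h` is a bijection onto multisets of positive integers, `IsGraphical p` is
`GrM p.parts` (definitionally), `d ≤ d² ≤ m` bounds `d`. For `d = 0` the set for `cnt 0 m` is nonempty only if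
`m = 0`; for `m = 2n ≥ 2` we have `d ≥ 1` and `Even (2n)` is automatic. -/
def S_Count : Prop :=
  (∀ m : ℕ, Nat.card (Nat.Partition m) = ∑ d ∈ Finset.range (m + 1), cnt d m) ∧
  (∀ n : ℕ, 1 ≤ n → Nat.card {p : Nat.Partition (2 * n) // IsGraphical p}
      = ∑ d ∈ Finset.range (2 * n + 1), cntP d (2 * n))

/-- **Generating function bound.** `cnt d m * exp(-t(m - d²)) ≤ ∑_{g,h} exp(-t ∑ (i+1)(g_i+h_i)) =
∏_{j≤d} (1-exp(-tj))^{-2}` (sum of a product over finitely many coordinates; it suffices to bound the finite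
sum over `g,h ≤ m`, which is at most a product of finite geometric sums). -/
def S_cntle : Prop := ∀ (d m : ℕ) (t : ℝ), 0 < t →
  (cnt d m : ℝ) ≤ Real.exp (t * ((m : ℝ) - (d : ℝ) ^ 2)) *
    ∏ j ∈ Finset.Icc 1 d, (1 / (1 - Real.exp (-(t * j)))) ^ 2

/-- **Product bound 1.** `-log(1-q^j) = ∑_{r≥1} q^{jr}/r`, so
`∑_{j≤d} -log(1-e^{-tj}) ≤ ∑_r (1/r) e^{-tr}/(1-e^{-tr}) = ∑_r 1/(r(e^{tr}-1)) ≤ ∑_r 1/(t r²) ≤ 2/t`.
(Alternatively: `-log(1-e^{-x}) ≤` decreasing, compare the sum with `∫_0^∞ -log(1-e^{-tx})dx = π²/(6t)`.) -/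
def S_prod1 : Prop := ∀ (d : ℕ) (t : ℝ), 0 < t →
  ∏ j ∈ Finset.Icc 1 d, (1 / (1 - Real.exp (-(t * j)))) ≤ Real.exp (2 / t)

/-- **Product bound 2.** For `t d ≤ 1`: `1-e^{-x} ≥ x/2` on `[0,1]`, so the product is at most
`∏ 2/(tj) = (2/t)^d/d! ≤ (2e/(td))^d` because `d! ≥ (d/e)^d`. -/
def S_prod2 : Prop := ∀ (d : ℕ) (t : ℝ), 0 < t → 1 ≤ d → t * d ≤ 1 →
  ∏ j ∈ Finset.Icc 1 d, (1 / (1 - Real.exp (-(t * j)))) ≤ (2 * Real.exp 1 / (t * d)) ^ d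

/-- **Lower bound for the number of partitions.** `r = ⌊√n⌋`, `r(r+1)/2 ≤ n`: to a subset `A` of `{1..r}` with
sum `a ≤ n` assign the partition `A ∪ {2n - a}` of `2n`; `2n - a ≥ n > r` unless `n = 1` (check: for `n = 1`,
`r = 1`, there are 2 partitions of 2). `A` is recovered as the parts `≤ r` (for `n ≥ 2`, `n > r`). -/
def S_plow : Prop := ∀ n : ℕ, 1 ≤ n → 2 ^ (Nat.sqrt n) ≤ Nat.card (Nat.Partition (2 * n))

/-- **Atypical Durfee sizes are negligible.** Constants `c1 = 1/100`, `c2 = √1.99`, `κ = 1/10`. Write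
`x = √n`. For `d > c2 x` (and `d² ≤ 2n`, otherwise `cnt = 0`), `2n - d² ≤ 0.01 n`: `S_cntle` with `t = 20/x`
(`exp(t·0.01n) = exp(0.2x)`) and `S_prod1`: product squared `≤ exp(4/t) = exp(0.2x)`; so `cnt ≤ exp(0.4 x)`.
For `1 ≤ d < x/100`: `t = 0.05/x`, `exp(t·2n) = exp(0.1x)`, and by `S_prod2` (as `td ≤ 1`) the squared product
is `≤ (2e/(td))^{2d}`; with `u = d/x < 0.01`, `2u log(2e/(0.05u)) ≤ 0.02·log(2e/0.0005) ≤ 0.19` (the function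
`u log(c/u)` increases on `(0, c/e)`), so `cnt ≤ exp(0.29x)`. `d = 0` gives `0` since `2n ≥ 2`. There are at
most `2n+1` values of `d`, and the full sum is the number of partitions of `2n`, `≥ 2^{√n - 1}` by
`S_plow`. As `0.4 + 0.1 < log 2 = 0.693..` the claim holds for large `n`. -/
def S_A4 : Prop := ∃ c1 : ℝ, 0 < c1 ∧ ∃ c2 : ℝ, c1 < c2 ∧ c2 < Real.sqrt 2 ∧ ∃ κ : ℝ, 0 < κ ∧
  ∃ n0 : ℕ, ∀ n ≥ n0,
    (∑ d ∈ (Finset.range (2 * n + 1)).filter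
      (fun d : ℕ => ¬ (c1 * Real.sqrt n ≤ d ∧ (d : ℝ) ≤ c2 * Real.sqrt n)), (cnt d (2 * n) : ℝ))
      ≤ Real.exp (-(κ * Real.sqrt n)) * ∑ d ∈ Finset.range (2 * n + 1), (cnt d (2 * n) : ℝ)

/-- **Choice of the parameter.** `2 mu + m1 = ∑_{j≤d} 2j/(e^{σj}-1) =: f(σ)` (with `ρ = e^{-σj}`:
`2ρ²/(1-ρ²) + 2ρ/(1-ρ²) = 2ρ/(1-ρ)`), continuous on `(0,∞)`. Target `T = 2n - d² > 0`.
`f(σ) ≤ 2d/σ` (as `e^x-1 ≥ x`) and `f(σ) ≥ (2d/σ) e^{-σd}` (as `x/(e^x-1) ≥ e^{-x}`), so `f` takes values above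
and below `T`; IVT gives `σ`. With `y = σd`: `T ≤ 2d/σ` gives `y ≤ 2d²/T ≤ 2c2²/(2-c2²) =: s2`. And
`2n ≥ T ≥ 2d² e^{-y}/y ≥ 2 c1² n e^{-y}/y` gives `e^{-y}/y ≤ 1/c1²`, hence `y ≥ s1 := min(1, c1²/3)` (for
`y < s1 ≤ 1` one has `e^{-y}/y > 1/(3y) ≥ 1/c1²`). -/
def S_B1 : Prop := ∀ c1 c2 : ℝ, 0 < c1 → c1 < c2 → c2 < Real.sqrt 2 → ∃ s1 > 0, ∃ s2 > 0,
  ∀ n d : ℕ, 1 ≤ n → 1 ≤ d → c1 * Real.sqrt n ≤ d → (d : ℝ) ≤ c2 * Real.sqrt n →
    ∃ σ : ℝ, 0 < σ ∧ (d : ℝ) ^ 2 + 2 * mu d σ + m1 d σ = 2 * n ∧ s1 ≤ σ * d ∧ σ * d ≤ s2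

/-- **Law of `Tq`.** `ρ = exp(-a)`. For `k ≥ 1`: `{x | Tq a x = k} = [a(k-c), a(k+1-c))`, `c = cq a ∈ [0,1/2]`, of
mass `½(e^{-a(k-c)} - e^{-a(k+1-c)}) = ½ e^{ac} ρ^k (1-ρ)` and `e^{ac} = 2/(1+ρ)`. Negative `k` by symmetry,
`k = 0` is the complement (or `|x| < a(1-c)`, mass `1 - ρ e^{ac}`). -/
def S_Tqlaw : Prop := ∀ (a : ℝ) (k : ℤ), 0 < a →
  lap.real {x | Tq a x = k} = (1 - Real.exp (-a)) / (1 + Real.exp (-a)) * Real.exp (-(a * |k|))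

/-- **Basic facts on `Tq`.** `2 ≤ e^{a/2}+e^{-a/2}` gives `0 ≤ cq a ≤ 1/2`. Hence `Tq a 0 = 0`, `Tq` is odd and
monotone, and `Tq a x - x/a ∈ (cq a - 1, cq a]` for `x ≥ 0`. -/
def S_Tq : Prop := ∀ a : ℝ, 0 < a → (0 ≤ cq a ∧ cq a ≤ 1 / 2) ∧ (∀ x, Tq a (-x) = - Tq a x) ∧
  Monotone (Tq a) ∧ Measurable (Tq a) ∧ ∀ x, |(Tq a x : ℝ) - x / a| ≤ 1

/-- **Joint law of the geometric variables** (independence of coordinates: `infinitePi_pi`, and `S_Tqlaw`). -/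
def S_geolaw : Prop := ∀ (d : ℕ) (σ : ℝ) (x : ℕ → ℤ), 0 < σ →
  PP.real {ω | ∀ j ∈ Finset.Icc 1 d, geo σ ω j = x j} = ∏ j ∈ Finset.Icc 1 d,
    ((1 - Real.exp (-(σ * j))) / (1 + Real.exp (-(σ * j))) * Real.exp (-(σ * j * |x j|)))

/-- **Bridge.** Pairs `(g,h)` correspond bijectively to pairs `(X,γ)`, `X = h - g ∈ ℤ^d`, `γ = min(g,h)`:
`g = γ + X⁻`, `h = γ + X⁺`, `j(g_j+h_j) = j|X_j| + 2jγ_j`. So the number of `(g,h)` with `h - g = X` and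
`d² + ∑ j(g_j+h_j) = 2n` is `Nd d ((2n - d² - ∑ j|X_j|)/2)` if that number is a natural number, else `0`.
By `S_geolaw`, `P(X) * aa d σ (..) = Nd(..) e^{-σ(2n-d²)} ∏_j (1-ρ_j²)(1-ρ_j)/(1+ρ_j)`, `ρ_j = e^{-σj}`
(the exponents add up: `2σ(2n-d²-∑j|X_j|)/2 + σ∑j|X_j| = σ(2n-d²)`). So
`Zc = e^{σ(2n-d²)} / ∏_j (1-ρ_j²)(1-ρ_j)/(1+ρ_j)`. The integrals are finite sums over the `X` with
`∑ j|X_j| ≤ 2n` (outside, `aa` vanishes), on each set `{X = x}` the integrand is constant. Index shift: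
`Fin d` index `i` is `j = i+1`. -/
def S_B2 : Prop := ∀ (d n : ℕ) (σ : ℝ), 1 ≤ d → 0 < σ → ∃ Zc : ℝ, 0 < Zc ∧
  (cnt d (2 * n) : ℝ) = Zc * ∫ ω, wA d n σ ω ∂PP ∧
  (cntP d (2 * n) : ℝ) = Zc * ∫ ω, Set.indicator {ω | ∀ k ∈ Finset.Icc 1 d, (k : ℝ) ≤ Cg σ ω d k}
    (wA d n σ) ω ∂PP

end Pool.Agent.H174.GP
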