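import Pool.Agent.H174.GP.StC

open MeasureTheory ProbabilityTheory Finset Filter Topology

namespace Pool.Agent.H174.GP

/-- Binomial probabilities. -/
noncomputable def bn (n : ℕ) (p : ℝ) (k : ℕ) : ℝ := (n.choose k : ℝ) * p ^ k * (1 - p) ^ (n - k)

/-- `e^{-2σD}/(1+e^{-2σD})`. -/
noncomputable def pD (D : ℕ) (σ : ℝ) : ℝ := Real.exp (-(2 * σ * D)) / (1 + Real.exp (-(2 * σ * D)))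

/-- Law of `D * Binomial(n, pD) + Geometric(e^{-2σ})` at `t`. -/
noncomputable def beta (D : ℕ) (σ : ℝ) (n t : ℕ) : ℝ :=
  ∑ b ∈ Finset.range (n + 1), if D * b ≤ t then
    bn n (pD D σ) b * ((1 - Real.exp (-(2 * σ))) * Real.exp (-(2 * σ * ((t : ℝ) - D * b)))) else 0

/-- **Binomial ratio.** `bn(k+1)/bn(k) = (n-k)p/((k+1)(1-p)) = (1 - x/(n(1-p)))/(1+(x+1)/(pn))` for `k = pn+x`; so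
`|log ratio| ≤ C(|x|+1)/n` if `|x| ≤ u√n ≤ c0 n` (`c0` small against `p0`). Multiply `|k-k'|` ratios. -/
def S_bin2 : Prop := ∀ p0 : ℝ, 0 < p0 → p0 ≤ 1 / 2 → ∃ C : ℝ, 0 < C ∧ ∃ c0 : ℝ, 0 < c0 ∧
  ∀ (p u : ℝ) (n k k' : ℕ), p0 ≤ p → p ≤ 1 - p0 → 1 ≤ n → 0 ≤ u → u ≤ c0 * Real.sqrt n →
    |(k : ℝ) - p * n| ≤ u * Real.sqrt n → |(k' : ℝ) - p * n| ≤ u * Real.sqrt n →
    bn n p k ≤ bn n p k' * Real.exp (C * |(k : ℝ) - k'| * (u * Real.sqrt n + 1) / n)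

/-- **Binomial tail.** For `|θ| ≤ 1/2`: `bn n p k ≤ e^{-θk}(1-p+pe^θ)^n ≤ exp(-θk + np(e^θ-1)) ≤
exp(-θ(k-pn) + pnθ²)`; `θ = (k-pn)/(2n)` (for `k ≤ n`; else `bn = 0`) gives `≤ exp(-(k-pn)²/(4n))`. -/
def S_bin3 : Prop := ∀ (p : ℝ) (n k : ℕ), 0 ≤ p → p ≤ 1 → 1 ≤ n →
  bn n p k ≤ Real.exp (-(((k : ℝ) - p * n) ^ 2 / (4 * n)))

/-- **Binomial upper bound.** For small `n` trivial (`bn ≤ 1`). For large `n`: `bn` is unimodal with mode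
`k0`, `|k0 - pn| ≤ 1`; by `S_bin2` (`u = 2`) all `k` with `|k-k0| ≤ √n/2` have `bn k ≥ e^{-C'} bn k0`, there are
`≥ √n/2` of them and the sum of all `bn` is `1`, so `bn k0 ≤ 2e^{C'}/√n`. -/
def S_bin1 : Prop := ∀ p0 : ℝ, 0 < p0 → p0 ≤ 1 / 2 → ∃ C : ℝ, 0 < C ∧ ∀ (p : ℝ) (n k : ℕ),
  p0 ≤ p → p ≤ 1 - p0 → bn n p k ≤ C / Real.sqrt ((n : ℝ) + 1)

/-- **Sup bound for `beta`.** With `r = e^{-2σ}`: the terms have exponents `t - Db = t0 + Di`, `i ≥ 0`, so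
`beta ≤ max bn · (1-r) ∑_i r^{Di} = max bn · (1-r)/(1-r^D) ≤ max bn · 2σ/(1-e^{-2s1}) ≤ C max bn/D` (`σ ≤ s2/D`);
`S_bin1` with `p0 = e^{-2s2}/(1+e^{-2s2})` (`pD ∈ [p0, 1/2]`). -/
def S_beta1 : Prop := ∀ s1 s2 : ℝ, 0 < s1 → 0 < s2 → ∃ C : ℝ, 0 < C ∧ ∀ (D : ℕ) (σ : ℝ), 1 ≤ D → 0 < σ →
  s1 ≤ σ * D → σ * D ≤ s2 → ∀ n t : ℕ, beta D σ n t ≤ C / (D * Real.sqrt ((n : ℝ) + 1))

/-- **Tail of `beta`.** `t = D b0 + t0`, `0 ≤ t0 < D`, terms `b = b0 - i`. Let `I = ⌈(5/(2 s1)) log D⌉`. The terms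
with `i > I` sum to `≤ (1-r) r^{DI}/(1-r^D) ≤ (C/D) e^{-2 s1 I} ≤ D^{-4}/2`; for `i ≤ I`:
`|b - pn| ≥ 10√(log D)√D - 1 - I ≥ 9√(D log D)`, so by `S_bin3` and `n ≤ D`, `bn ≤ D^{-20}`, and
`(1-r)∑ r^{..} ≤ 1`. -/
def S_beta3 : Prop := ∀ s1 s2 : ℝ, 0 < s1 → 0 < s2 → ∃ D0 : ℕ, ∀ D ≥ D0, ∀ σ : ℝ, 0 < σ →
  s1 ≤ σ * D → σ * D ≤ s2 → ∀ n t : ℕ, 1 ≤ n → n ≤ D →
    10 * Real.sqrt (Real.log D) * (D : ℝ) ^ (3 / 2 : ℝ) < |(t : ℝ) - D * (pD D σ * n)| →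
    beta D σ n t ≤ (D : ℝ) ^ (-4 : ℝ)

/-- **Regularity of `beta`.** `t = D b0 + t0`, `t' = D b0' + t0'`, `r = e^{-2σ}`, `I` as in `S_beta3`. `beta t =
(1-r) r^{t0} ∑_i bn(b0-i) r^{Di}`: terms `i > I` contribute `≤ D^{-4}`. For `i ≤ I`, both `b0 - i` and `b0'` are within
`u√n` of `pn` with `u = C1 √(log D)` (`C1 = 13/√c`), `|b0-i-b0'| ≤ √(ε1 log D)√D + 1 + I`, so `S_bin2` gives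
`bn(b0-i) ≤ bn(b0') exp(C(√(ε1 log D)√D + 1 + I)(u√n+1)/n) ≤ bn(b0') exp(C'√ε1 log D + 1)` for large `D`. And
`beta t' ≥ (1-r) r^{t0'} bn(b0') ≥ (1-r) e^{-2 s2} bn(b0')`, `∑_i r^{Di} ≤ 1/(1-e^{-2 s1})`. (`b0' ≤ n`, `b0'≥0` hold
since `b0'` is near `pn`.) -/
def S_beta2 : Prop := ∀ s1 s2 c : ℝ, 0 < s1 → 0 < s2 → 0 < c → ∃ C : ℝ, 0 < C ∧ ∀ ε1 : ℝ, 0 < ε1 → ε1 ≤ 1 →
  ∃ D0 : ℕ, ∀ D ≥ D0, ∀ σ : ℝ, 0 < σ → s1 ≤ σ * D → σ * D ≤ s2 → ∀ n t t' : ℕ, c * D ≤ n → n ≤ D →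
    |(t : ℝ) - t'| ≤ Real.sqrt (ε1 * Real.log D) * (D : ℝ) ^ (3 / 2 : ℝ) →
    |(t : ℝ) - D * (pD D σ * n)| ≤ 10 * Real.sqrt (Real.log D) * (D : ℝ) ^ (3 / 2 : ℝ) →
    beta D σ n t ≤ C * (D : ℝ) ^ (C * Real.sqrt ε1) * beta D σ n t' + (D : ℝ) ^ (-4 : ℝ)

/-- **Decomposition of `aa`** (`D = d/3`, `d ≥ 12`, power series over `ℝ` with nonnegative coefficients).
`r_j = e^{-2σj}`, `g_j(z) = ∑_k (1-r_j) r_j^k z^{jk}`; `aa d σ m = [z^m] ∏_{j=1}^d g_j`. For `i ∈ (D,2D]`, `i' = i+D`: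
`g_i g_{i'} = X_i + Y_i`, `X_i = (1-r_i)(1-r_{i'})(r_i z^i + r_{i'} z^{i'}) = π_i z^i((1-p) + p z^D)`, `p = pD D σ`
(as `r_{i'} = r_i r_D`), `π_i = (1-r_i)(1-r_{i'})(r_i+r_{i'})`, and `Y_i` has nonnegative coefficients with sum
`1-π_i`. `∏_i (X_i+Y_i) = ∑_I ∏_{I}X_i ∏_{I^c}Y_i` (`Finset.prod_add`, `I ⊆ (D,2D]`), and
`((1-p)+pz^D)^n g_1(z)` has coefficients `beta D σ n t`. So
`aa d σ m = ∑_I ∑_k [z^k]Q_I · beta D σ |I| (m-k)`, `Q_I = ∏_I π_i z^i ∏_{I^c} Y_i ∏_{other j ≠ 1} g_j`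
(`1 ∉` pairs); `q n k = ∑_{|I|=n} [z^k] Q_I`. Finite sums of coefficients of a product of nonnegative series are at
most the product of the total masses, so `∑_k [z^k]Q_I ≤ ∏_I π_i ∏_{I^c}(1-π_i)`, total `≤ 1`. For small `n`:
`∑_{|I|<cD} ∏π_i∏(1-π_i) ≤ ∑_I 2^{cD-|I|} ∏.. = 2^{cD} ∏(1-π_i/2) ≤ 2^{cD}(1-π0/2)^D ≤ e^{-c'D}` with
`π_i ≥ π0 := (1-e^{-s1/2})² e^{-2 s2}` (`σD ≥ s1/4`, `σ·3D ≤ s2`), `c` small. -/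
def S_decomp : Prop := ∀ s1 s2 : ℝ, 0 < s1 → 0 < s2 → ∃ c : ℝ, 0 < c ∧ c < 1 ∧ ∃ c' : ℝ, 0 < c' ∧ ∃ d0 : ℕ,
  12 ≤ d0 ∧ ∀ d ≥ d0, ∀ σ : ℝ, 0 < σ → s1 ≤ σ * d → σ * d ≤ s2 → ∃ q : ℕ → ℕ → ℝ,
    (∀ n k, 0 ≤ q n k) ∧
    (∀ m : ℕ, aa d σ m = ∑ n ∈ Finset.range (d / 3 + 1), ∑ k ∈ Finset.range (m + 1),
      q n k * beta (d / 3) σ n (m - k)) ∧
    (∀ M : ℕ, ∑ n ∈ Finset.range (d / 3 + 1), ∑ k ∈ Finset.range M, q n k ≤ 1) ∧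
    (∀ M : ℕ, ∑ n ∈ (Finset.range (d / 3 + 1)).filter (fun n : ℕ => (n : ℝ) < c * ((d / 3 : ℕ) : ℝ)),
      ∑ k ∈ Finset.range M, q n k ≤ Real.exp (-(c' * ((d / 3 : ℕ) : ℝ))))

/-- **`aa` is a probability**: `⌊|ω_j|/(2σj)⌋` is geometric with parameter `e^{-2σj}` since `|ω_j|` is exponential
(`S_L3`), independence of coordinates; `aa` = sum over `γ` with `∑jγ_j = m` of `∏(1-r_j)r_j^{γ_j}`. -/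
def S_aalaw : Prop := ∀ (d : ℕ) (σ : ℝ) (m : ℤ), 0 < σ →
  aa d σ m = PP.real {ω | (∑ j ∈ Finset.Icc 1 d, (j : ℤ) * ⌊|ω j| / (2 * σ * j)⌋) = m}

/-- **A good value near the mean.** `ψ_j(x) = j⌊|x|/(2σj)⌋ ≤ |x|/(2σ)`, `∑ E ψ_j² ≤ 2d/(4σ²) ≤ d³/(2 s1²)`,
`∑ E ψ_j = mu d σ` (`E⌊|x|/b⌋ = e^{-b}/(1-e^{-b})`). By `S_var2` with `t = C d^{3/2}`, `C = 1/s1`:
`P(|∑ψ_j - mu| < C d^{3/2}) ≥ 1/2`; there are at most `2Cd^{3/2}+1` integers in this range (values are `≥ 0`), one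
of them has `aa ≥ ½/(2Cd^{3/2}+1)`. -/
def S_acheb : Prop := ∀ s1 s2 : ℝ, 0 < s1 → 0 < s2 → ∃ C : ℝ, 0 < C ∧ ∃ c : ℝ, 0 < c ∧ ∃ d0 : ℕ, ∀ d ≥ d0,
  ∀ σ : ℝ, 0 < σ → s1 ≤ σ * d → σ * d ≤ s2 → ∃ m' : ℕ, |(m' : ℝ) - mu d σ| ≤ C * (d : ℝ) ^ (3 / 2 : ℝ) ∧
    c * (d : ℝ) ^ (-(3 / 2) : ℝ) ≤ aa d σ m'

/-- **Upper bound.** `m < 0`: `aa = 0`. `m ≥ 0`: `S_decomp` and `S_beta1` (with `s1/4`, `s2` for `D = d/3 ≥ d/4`):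
`aa ≤ (C/D)(∑_{n<cD} q + ∑_{n≥cD} q/√(n+1)) ≤ (C/D)(e^{-c'D} + 1/√(cD))`. -/
def S_B4u : Prop := ∀ s1 s2 : ℝ, 0 < s1 → 0 < s2 → ∃ C : ℝ, 0 < C ∧ ∃ d0 : ℕ, ∀ d ≥ d0, ∀ σ : ℝ, 0 < σ →
  s1 ≤ σ * d → σ * d ≤ s2 → ∀ m : ℤ, aa d σ m ≤ C * (d : ℝ) ^ (-(3 / 2) : ℝ)

/-- **Lower bound.** Compare `m` with the good value `m'` of `S_acheb`. `D = d/3`,
`|m-m'| ≤ (C+√(ε' log d)) d^{3/2} ≤ √(ε1 log D) D^{3/2}` with `ε1 = 100 ε'` (large `d`; `d/4 ≤ D`). In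
`aa d σ m' = ∑ q n k beta n (m'-k)` (`S_decomp`): the `n < cD` give `≤ e^{-c'D}`·(`beta ≤ 1`, or `S_beta1`); for
`n ≥ cD`, terms with `|m'-k - D pD n| > 10√(log D)D^{3/2}` give at most `D^{-4}` in total (`S_beta3`, mass `≤ 1`); for
the other terms `k ≤ m` (since `m - k ≥ D pD n - (10√(log D) + √(ε1 log D))D^{3/2} > 0`) and `S_beta2` gives
`beta n (m'-k) ≤ C D^{C√ε1} beta n (m-k) + D^{-4}`. Hence `c d^{-3/2} ≤ aa m' ≤ e^{-c'D} C + 2 D^{-4} +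
C D^{C√ε1} aa m`, so `aa m ≥ d^{-3/2-ε}` for large `d` if `C√(100ε') ≤ ε/2`. (`m ≥ 0`: `mu d σ ≥ c d²`.) -/
def S_B4l : Prop := ∀ s1 s2 ε : ℝ, 0 < s1 → 0 < s2 → 0 < ε → ∃ ε' : ℝ, 0 < ε' ∧ ∃ d0 : ℕ, ∀ d ≥ d0,
  ∀ σ : ℝ, 0 < σ → s1 ≤ σ * d → σ * d ≤ s2 → ∀ m : ℤ,
    |(m : ℝ) - mu d σ| ≤ Real.sqrt (ε' * Real.log d) * (d : ℝ) ^ (3 / 2 : ℝ) →
    (d : ℝ) ^ (-(3 / 2) - ε : ℝ) ≤ aa d σ m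

/-- **Ratio for one Durfee size.** `s1, s2` and `σ` from `S_B1`; `S_B2`: `cntP/cnt = E[1_Pers wA]/E[wA]`,
`Pers = {∀k∈[1,d], k ≤ Cg σ ω d k} ⊆ {∀k, 0 ≤ Cg σ ω d k}`. `wA ≤ C d^{-3/2}` always (`S_B4u`). If
`|sX - m1| ≤ √(ε' log d) d^{3/2}` and `2n - d² - sX` is even (i.e. `sX ≡ d mod 2`) then `m = (2n-d²-sX)/2` has
`m - mu = (m1 - sX)/2`, so `wA = aa d σ m ≥ d^{-3/2-e}` (`S_B4l` with `e`). Upper: numerator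
`≤ C d^{-3/2} d^{-θ+e}` (`S_PU`), denominator `≥ c d^{-3/2-e}` (`S_PT`). Lower: numerator
`≥ d^{-θ-e} d^{-3/2-e}` (`S_PL`), denominator `≤ C d^{-3/2}`. With `e = ε/8` and `c1√n ≤ d ≤ c2√n` this is
the claim for large `n` (integrability of `wA`: bounded measurable, finite sum of indicators). -/
def S_R : Prop := ∀ θ c1 c2 ε : ℝ, 0 ≤ θ → IsTheta θ → 0 < c1 → c1 < c2 → c2 < Real.sqrt 2 → 0 < ε →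
  ∃ n0 : ℕ, ∀ n ≥ n0, ∀ d : ℕ, c1 * Real.sqrt n ≤ d → (d : ℝ) ≤ c2 * Real.sqrt n →
    (cntP d (2 * n) : ℝ) ≤ (n : ℝ) ^ (-(θ / 2) + ε) * cnt d (2 * n) ∧
    (n : ℝ) ^ (-(θ / 2) - ε) * cnt d (2 * n) ≤ cntP d (2 * n)

/-- **Final statement.** `pg (2n) = ∑_d cntP d (2n) / ∑_d cnt d (2n)` (`S_Count`). With `S_A4` (atypical `d`
have relative weight `≤ e^{-κ√n}`) and `S_R`: `n^{-θ/2-ε}(1-e^{-κ√n}) ≤ pg (2n) ≤ n^{-θ/2+ε} + e^{-κ√n}`. Take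
logarithms, `ε → 0`. -/
def S_final : Prop := ∃ θ : ℝ, 0 ≤ θ ∧ IsTheta θ ∧
  Tendsto (fun n : ℕ => -Real.log (pg (2 * n)) / Real.log n) atTop (𝓝 (θ / 2))

end Pool.Agent.H174.GP
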