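import Pool.Agent.H174.GP.StA
import Pool.Agent.H174.GP.StP
import Pool.Agent.H174.GP.StC
import Pool.Agent.H174.GP.StB
import Pool.Agent.H571.GP174.EGn
import Pool.Agent.H84.GP174.EGs
import Pool.Agent.H195.GP174.toPsum
import Pool.Agent.H52.GP174.toPinj
import Pool.Agent.H105.GP174.toPsurj
import Pool.Agent.H658.GP174.Crit
import Pool.Agent.H249.GP174.Count
import Pool.Agent.H286.GP174.cntle
import Pool.Agent.H230.GP174.prod1
import Pool.Agent.H784.GP174.prod2
import Pool.Agent.H549.GP174.plow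
import Pool.Agent.H358.GP174.A4
import Pool.Agent.H505.GP174.B1
import Pool.Agent.H703.GP174.Tq
import Pool.Agent.H977.GP174.Tqlaw
import Pool.Agent.H296.GP174.geolaw
import Pool.Agent.H903.GP174.B2
import Pool.Agent.H597.GP174.L1
import Pool.Agent.H828.GP174.L2
import Pool.Agent.H187.GP174.L3
import Pool.Agent.H331.GP174.L5
import Pool.Agent.H671.GP174.L6
import Pool.Agent.H975.GP174.indep
import Pool.Agent.H975.GP174.harris
import Pool.Agent.H196.GP174.harrisN
import Pool.Agent.H234.GP174.half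
import Pool.Agent.H764.GP174.levy
import Pool.Agent.H404.GP174.var
import Pool.Agent.H653.GP174.cheb
import Pool.Agent.H282.GP174.pz
import Pool.Agent.H261.GP174.hoeff
import Pool.Agent.H729.GP174.chern
import Pool.Agent.H967.GP174.shift
import Pool.Agent.H100.GP174.shiftC
import Pool.Agent.H286.GP174.Stail
import Pool.Agent.H707.GP174.tautail
import Pool.Agent.H772.GP174.Z1
import Pool.Agent.H84.GP174.Zmp
import Pool.Agent.H784.GP174.abel
import Pool.Agent.H981.GP174.cdet
import Pool.Agent.H86.GP174.coarse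
import Pool.Agent.H671.GP174.AdmCh
import Pool.Agent.H282.GP174.AdmGeo
import Pool.Agent.H407.GP174.var2
import Pool.Agent.H404.GP174.block
import Pool.Agent.H729.GP174.crude
import Pool.Agent.H116.GP174.big
import Pool.Agent.H117.GP174.step
import Pool.Agent.H653.GP174.super
import Pool.Agent.H505.GP174.theta
import Pool.Agent.H505.GP174.float
import Pool.Agent.H400.GP174.Tqmean
import Pool.Agent.H234.GP174.mgf
import Pool.Agent.H59.GP174.contam
import Pool.Agent.H505.GP174.typs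
import Pool.Agent.H960.GP174.PU
import Pool.Agent.H977.GP174.PLs
import Pool.Agent.H284.GP174.mid
import Pool.Agent.H86.GP174.PL
import Pool.Agent.H703.GP174.PT
import Pool.Agent.H32.GP174.bin2
import Pool.Agent.H52.GP174.bin3
import Pool.Agent.H213.GP174.bin1
import Pool.Agent.H407.GP174.beta1
import Pool.Agent.H230.GP174.beta3
import Pool.Agent.H727.GP174.beta2
import Pool.Agent.H164.GP174.decomp
import Pool.Agent.H922.GP174.aalaw
import Pool.Agent.H828.GP174.acheb
import Pool.Agent.H767.GP174.B4u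
import Pool.Agent.H296.GP174.B4l
import Pool.Agent.H337.GP174.R
import Pool.Agent.H336.GP174.final

namespace Pool.Agent.H174.GP

theorem t_EGn : S_EGn := Pool.Agent.H571.GP174.gp_egn 
theorem t_EGs : S_EGs := Pool.Agent.H84.GP174.gp_egs 
theorem t_toPsum : S_toPsum := Pool.Agent.H195.GP174.gp_topsum 
theorem t_toPinj : S_toPinj := Pool.Agent.H52.GP174.gp_topinj 
theorem t_toPsurj : S_toPsurj := Pool.Agent.H105.GP174.gp_topsurj 
theorem t_Crit : S_Crit := Pool.Agent.H658.GP174.gp_crit t_EGn t_EGs t_toPsum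
theorem t_Count : S_Count := Pool.Agent.H249.GP174.gp_count t_toPsum t_toPinj t_toPsurj t_Crit
theorem t_cntle : S_cntle := Pool.Agent.H286.GP174.gp_cntle 
theorem t_prod1 : S_prod1 := Pool.Agent.H230.GP174.gp_prod1 
theorem t_prod2 : S_prod2 := Pool.Agent.H784.GP174.gp_prod2 
theorem t_plow : S_plow := Pool.Agent.H549.GP174.gp_plow 
theorem t_A4 : S_A4 := Pool.Agent.H358.GP174.gp_a4 t_Count t_cntle t_prod1 t_prod2 t_plow
theorem t_B1 : S_B1 := Pool.Agent.H505.GP174.B1.gp_b1 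
theorem t_Tq : S_Tq := Pool.Agent.H703.GP174.Tq.gp_tq 
theorem t_Tqlaw : S_Tqlaw := Pool.Agent.H977.GP174.gp_tqlaw 
theorem t_geolaw : S_geolaw := Pool.Agent.H296.GP174.gp_geolaw t_Tq t_Tqlaw
theorem t_B2 : S_B2 := Pool.Agent.H903.GP174.gp_b2 t_geolaw t_Tq
theorem t_L1 : S_L1 := Pool.Agent.H597.GP174.gp_l1 
theorem t_L2 : S_L2 := Pool.Agent.H828.GP174.gp_l2 
theorem t_L3 : S_L3 := Pool.Agent.H187.GP174.gp_l3 
theorem t_L5 : S_L5 := Pool.Agent.H331.GP174.gp_l5 
theorem t_L6 : S_L6 := Pool.Agent.H671.GP174.gp_l6 t_L1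
theorem t_indep : S_indep := Pool.Agent.H975.GP174.gp_indep 
theorem t_harris : S_harris := Pool.Agent.H975.GP174.gp_harris 
theorem t_harrisN : S_harrisN := Pool.Agent.H196.GP174.gp_harrisn t_harris
theorem t_half : S_half := Pool.Agent.H234.GP174.gp_half t_L3
theorem t_levy : S_levy := Pool.Agent.H764.GP174.gp_levy t_L3
theorem t_var : S_var := Pool.Agent.H404.GP174.Var.gp_var t_L3
theorem t_cheb : S_cheb := Pool.Agent.H653.GP174.gp_cheb t_levy t_var
theorem t_pz : S_pz := Pool.Agent.H282.GP174.gp_pz t_var t_L3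
theorem t_hoeff : S_hoeff := Pool.Agent.H261.GP174.gp_hoeff t_L3
theorem t_chern : S_chern := Pool.Agent.H729.GP174.gp_chern 
theorem t_shift : S_shift := Pool.Agent.H967.GP174.gp_shift t_L6
theorem t_shiftC : S_shiftC := Pool.Agent.H100.GP174.gp_shiftc t_shift
theorem t_Stail : S_Stail := Pool.Agent.H286.GP174.gp_stail t_L2 t_levy t_chern
theorem t_tautail : S_tautail := Pool.Agent.H707.GP174.gp_tautail 
theorem t_Z1 : S_Z1 := Pool.Agent.H772.GP174.gp_z1 t_L5
theorem t_Zmp : S_Zmp := Pool.Agent.H84.GP174.gp_zmp t_Z1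
theorem t_abel : S_abel := Pool.Agent.H784.GP174.gp_abel 
theorem t_cdet : S_cdet := Pool.Agent.H981.GP174.gp_cdet t_abel
theorem t_coarse : S_coarse := Pool.Agent.H86.GP174.gp_coarse t_Zmp t_cdet t_Stail t_tautail
theorem t_AdmCh : S_AdmCh := Pool.Agent.H671.GP174.gp_admch t_L1
theorem t_AdmGeo : S_AdmGeo := Pool.Agent.H282.GP174.gp_admgeo t_L1 t_Tq
theorem t_var2 : S_var2 := Pool.Agent.H407.GP174.gp_var2 
theorem t_block : S_block := Pool.Agent.H404.GP174.Block.gp_block t_indep t_half t_cheb t_pz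
theorem t_crude : S_crude := Pool.Agent.H729.GP174.gp_crude t_block t_harrisN
theorem t_big : S_big := Pool.Agent.H116.GP174.gp_big t_pz t_half t_indep
theorem t_step : S_step := Pool.Agent.H117.GP174.gp_step t_crude t_AdmCh t_half t_indep t_harris
theorem t_super : S_super := Pool.Agent.H653.GP174.gp_super t_step t_coarse t_shiftC t_harrisN
theorem t_theta : S_theta := Pool.Agent.H505.GP174.ThetaEx.gp_theta t_super t_step
theorem t_float : S_float := Pool.Agent.H505.GP174.FloatErr.gp_float t_Tq t_hoeff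
theorem t_Tqmean : S_Tqmean := Pool.Agent.H400.GP174.gp_tqmean t_Tqlaw t_Tq
theorem t_mgf : S_mgf := Pool.Agent.H234.GP174.gp_mgf t_L1 t_Tq
theorem t_contam : S_contam := Pool.Agent.H59.GP174.gp_contam t_mgf t_chern t_Tq
theorem t_typs : S_typs := Pool.Agent.H505.GP174.Typs.gp_typs t_mgf t_chern t_Tqmean t_Tq
theorem t_PU : S_PU := Pool.Agent.H960.GP174.gp_pu t_contam t_float t_shiftC t_step t_harris t_Tq
theorem t_PLs : S_PLs := Pool.Agent.H977.GP174.gp_pls t_big t_crude t_AdmGeo t_float t_shiftC t_half t_indep t_harrisN t_Tq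
theorem t_mid : S_mid := Pool.Agent.H284.GP174.gp_mid t_half t_AdmGeo t_cheb t_var2 t_Tqmean t_Tq
theorem t_PL : S_PL := Pool.Agent.H86.GP174.gp_pl t_typs t_mid t_PLs t_indep t_Tqlaw t_Tq
theorem t_PT : S_PT := Pool.Agent.H703.GP174.PT.gp_pt t_var2 t_AdmGeo t_Tqmean t_Tqlaw t_indep t_Tq
theorem t_bin2 : S_bin2 := Pool.Agent.H32.GP174.gp_bin2 
theorem t_bin3 : S_bin3 := Pool.Agent.H52.GP174.gp_bin3 
theorem t_bin1 : S_bin1 := Pool.Agent.H213.GP174.Bin1.gp_bin1 t_bin2
theorem t_beta1 : S_beta1 := Pool.Agent.H407.GP174.gp_beta1 t_bin1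
theorem t_beta3 : S_beta3 := Pool.Agent.H230.GP174.gp_beta3 t_bin3
theorem t_beta2 : S_beta2 := Pool.Agent.H727.GP174.gp_beta2 t_bin2
theorem t_decomp : S_decomp := Pool.Agent.H164.GP174.gp_decomp 
theorem t_aalaw : S_aalaw := Pool.Agent.H922.GP174.gp_aalaw t_L3
theorem t_acheb : S_acheb := Pool.Agent.H828.GP174.gp_acheb t_aalaw t_var2 t_L1 t_L3
theorem t_B4u : S_B4u := Pool.Agent.H767.GP174.gp_b4u t_decomp t_beta1
theorem t_B4l : S_B4l := Pool.Agent.H296.GP174.gp_b4l t_acheb t_decomp t_beta1 t_beta2 t_beta3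
theorem t_R : S_R := Pool.Agent.H337.GP174.gp_r t_B1 t_B2 t_PU t_PL t_PT t_B4u t_B4l t_Tq
theorem t_final : S_final := Pool.Agent.H336.GPF.gp_final t_Count t_A4 t_R t_theta

end Pool.Agent.H174.GP
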