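import Pool.Agent.H174.GP.Defs2

open MeasureTheory ProbabilityTheory Finset Filter Topology

namespace Pool.Agent.H174.GP

/-- **Row sums.** The sorted list of `toP d g h` starts with the `d` values `topP d g i` (antitone, `≥ d`), the
other parts are `≤ d`. `∑_{i<k} (d + ∑_{l≥i} g_l) = kd + ∑_l min(l+1,k) g_l`. (See the proof of `S_Crit`,
Pool.Agent.H658.GP174.Crit.) -/
def S_rowsum : Prop := ∀ (d : ℕ) (g h : Fin d → ℕ) (k : ℕ), k ≤ d →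
  (((toP d g h).sort (· ≥ ·)).take k).sum = k * d + ∑ l : Fin d, (min ((l : ℕ) + 1) k) * g l

/-- **Column sums.** Top parts are `≥ d ≥ x`. -/
def S_colsum : Prop := ∀ (d : ℕ) (g h : Fin d → ℕ) (x : ℕ), x ≤ d →
  ((toP d g h).map (fun a => min a x)).sum = d * x + ∑ l : Fin d, (min ((l : ℕ) + 1) x) * h l

/-- **Duality.** `s ⪯ t` with equal sums implies `∑ min(t_i,x) ≤ ∑ min(s_i,x)`:
`∑ (t_i-x)^+ = max_k (∑_{i≤k} t_i - kx) ≥ max_k (∑_{i≤k} s_i - kx) = ∑ (s_i-x)^+`. -/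
def S_dual1 : Prop := ∀ s t : Multiset ℕ, s.sum = t.sum → DomM s t →
  ∀ x : ℕ, (t.map (fun a => min a x)).sum ≤ (s.map (fun a => min a x)).sum

/-- **Converse duality at one place.** Let `x` = the `(k+1)`-st largest part of `t` (`0` if there is none). Then
`∑_{i≤k} t_i = kx + ∑ (t_i-x)^+ = kx + T - ∑ min(t_i,x) ≥ kx + T - ∑ min(s_i,x) = kx + ∑ (s_i-x)^+ ≥ ∑_{i≤k} s_i`
if the column inequality holds at `x`. -/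
def S_dual2 : Prop := ∀ (s t : Multiset ℕ) (k : ℕ), s.sum = t.sum →
  (t.map (fun a => min a ((t.sort (· ≥ ·)).getD k 0))).sum
    ≤ (s.map (fun a => min a ((t.sort (· ≥ ·)).getD k 0))).sum →
  ((s.sort (· ≥ ·)).take k).sum ≤ ((t.sort (· ≥ ·)).take k).sum

/-- **Necessary conditions** (`S_rowsum`, `S_colsum`, `S_dual1`). `λ = toP d g h`, `μ = toP d' g' h'`. -/
def S_domnec : Prop := ∀ (d d' : ℕ) (g h : Fin d → ℕ) (g' h' : Fin d' → ℕ),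
  (toP d g h).sum = (toP d' g' h').sum → DomM (toP d' g' h') (toP d g h) → ∀ k : ℕ, k ≤ d → k ≤ d' →
    (0 : ℤ) ≤ (k : ℤ) * ((d : ℤ) - d') + ∑ l : Fin d, ((min ((l : ℕ) + 1) k : ℕ) : ℤ) * (g l : ℤ)
      - ∑ l : Fin d', ((min ((l : ℕ) + 1) k : ℕ) : ℤ) * (g' l : ℤ) ∧
    (k : ℤ) * ((d : ℤ) - d') + ∑ l : Fin d, ((min ((l : ℕ) + 1) k : ℕ) : ℤ) * (h l : ℤ)
      - ∑ l : Fin d', ((min ((l : ℕ) + 1) k : ℕ) : ℤ) * (h' l : ℤ) ≤ 0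

/-- **Sufficient conditions for `d ≤ d'`.** For `k ≤ d` the row inequality is `S_rowsum`. For `k ≥ d` the `(k+1)`-st
part `x` of `λ = toP d g h` is `≤ d` and the column inequality at `x ≤ d ≤ d'` is `S_colsum`; use `S_dual2`. -/
def S_domsuf : Prop := ∀ (d d' : ℕ) (g h : Fin d → ℕ) (g' h' : Fin d' → ℕ), d ≤ d' →
  (toP d g h).sum = (toP d' g' h').sum →
  (∀ k ∈ Finset.Icc 1 d,
    (0 : ℤ) ≤ (k : ℤ) * ((d : ℤ) - d') + ∑ l : Fin d, ((min ((l : ℕ) + 1) k : ℕ) : ℤ) * (g l : ℤ)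
      - ∑ l : Fin d', ((min ((l : ℕ) + 1) k : ℕ) : ℤ) * (g' l : ℤ) ∧
    (k : ℤ) * ((d : ℤ) - d') + ∑ l : Fin d, ((min ((l : ℕ) + 1) k : ℕ) : ℤ) * (h l : ℤ)
      - ∑ l : Fin d', ((min ((l : ℕ) + 1) k : ℕ) : ℤ) * (h' l : ℤ) ≤ 0) →
  DomM (toP d' g' h') (toP d g h)

/-- **Counting pairs** (as in `S_Count`, Pool.Agent.H249.GP174.Count). -/
def S_CountD : Prop := ∀ n : ℕ,
  Nat.card {pq : Nat.Partition n × Nat.Partition n // DomM pq.1.parts pq.2.parts}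
    = ∑ d ∈ Finset.range (n + 1), ∑ d' ∈ Finset.range (n + 1), cntD d d' n

/-- **Comparable versus dominated**: `N ≤ #comparable ≤ 2N` by symmetry. -/
def S_rc : Prop := ∀ n : ℕ,
  (Nat.card {pq : Nat.Partition n × Nat.Partition n // DomM pq.1.parts pq.2.parts} : ℝ)
    / (Nat.card (Nat.Partition n) : ℝ) ^ 2 ≤ rcomp n ∧
  rcomp n ≤ 2 * ((Nat.card {pq : Nat.Partition n × Nat.Partition n // DomM pq.1.parts pq.2.parts} : ℝ)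
    / (Nat.card (Nat.Partition n) : ℝ) ^ 2)

/-- **Choice of the parameter for every `N`** (adapt `S_B1`, Pool.Agent.H505.GP174.B1; target `T = N - d²`,
`2 mu d (σ/2) = ∑_{j≤d} 2j/(e^{σj}-1)`). -/
def S_B1r : Prop := ∀ c1 c2 : ℝ, 0 < c1 → c1 < c2 → c2 < 1 → ∃ s1 : ℝ, 0 < s1 ∧ ∃ s2 : ℝ, 0 < s2 ∧
  ∀ N d : ℕ, 1 ≤ N → 1 ≤ d → c1 * Real.sqrt N ≤ d → (d : ℝ) ≤ c2 * Real.sqrt N →
    ∃ σ : ℝ, 0 < σ ∧ (d : ℝ) ^ 2 + 2 * mu d (σ / 2) = N ∧ s1 ≤ σ * d ∧ σ * d ≤ s2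

/-- **Two parameters are close.** `f_d(σ) = ∑_{j≤d} 2j/(e^{σj}-1) = 2 mu d (σ/2)`, derivative
`-∑ 2j² e^{σj}/(e^{σj}-1)²`, so `|f_d'| ≥ c d³` on `s1 ≤ σd ≤ s2` (each term is `≥ 2c/σ²`, as
`y² e^y/(e^y-1)² ≥ c` for `0 < y ≤ s2`) and `|f_d(σ)-f_{d'}(σ)| ≤ C d |d-d'|` (terms `≤ 2/σ`). From
`f_d(σ) = N - d²`, `f_{d'}(σ') = N - d'²`: `c d³ |σ-σ'| ≤ |d²-d'²| + C d|d-d'|`. (`c1√N ≤ d,d' ≤ c2√N`.) -/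
def S_sigc : Prop := ∀ c1 c2 s1 s2 : ℝ, 0 < c1 → c1 < c2 → c2 < 1 → 0 < s1 → 0 < s2 → ∃ C : ℝ, 0 < C ∧
  ∀ (N d d' : ℕ) (σ σ' : ℝ), 1 ≤ N → 1 ≤ d → 1 ≤ d' → c1 * Real.sqrt N ≤ d → (d : ℝ) ≤ c2 * Real.sqrt N →
    c1 * Real.sqrt N ≤ d' → (d' : ℝ) ≤ c2 * Real.sqrt N → 0 < σ → 0 < σ' →
    (d : ℝ) ^ 2 + 2 * mu d (σ / 2) = N → (d' : ℝ) ^ 2 + 2 * mu d' (σ' / 2) = N →
    s1 ≤ σ * d → σ * d ≤ s2 → s1 ≤ σ' * d' → σ' * d' ≤ s2 →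
    |σ - σ'| ≤ C * |(d : ℝ) - d'| / (d : ℝ) ^ 2

/-- **Formula for `cnt`.** `Nd d j e^{-σj} ∏(1-e^{-σi}) = aa d (σ/2) j`; convolution of `g` and `h`. -/
def S_cnta2 : Prop := ∀ (d N : ℕ) (σ : ℝ), 0 < σ → d ^ 2 ≤ N →
  (cnt d N : ℝ) = Real.exp (σ * ((N : ℝ) - (d : ℝ) ^ 2)) * (Zf d σ) ^ 2 * a2 d σ ((N : ℤ) - (d : ℤ) ^ 2)

/-- **Law of the double sum**: from `S_aalaw` (with `σ/2`) and Fubini. -/
def S_a2law : Prop := ∀ (d : ℕ) (σ : ℝ) (m : ℤ), 0 < σ →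
  a2 d σ m = (PP.prod PP).real {p | (∑ j ∈ Finset.Icc 1 d, (j : ℤ) * ((gs σ p.1 j : ℤ) + (gs σ p.2 j : ℤ))) = m}

/-- **Upper bound for `a2`**: `∑_j aa(j) aa(m-j) ≤ sup aa · ∑_j aa(j) ≤ C d^{-3/2}` (`S_B4u` with `σ/2`; the total
mass of `aa` is at most `1` by `S_aalaw`). -/
def S_a2u : Prop := ∀ s1 s2 : ℝ, 0 < s1 → 0 < s2 → ∃ C : ℝ, 0 < C ∧ ∃ d0 : ℕ, ∀ d ≥ d0, ∀ σ : ℝ, 0 < σ →
  s1 ≤ σ * d → σ * d ≤ s2 → ∀ m : ℤ, a2 d σ m ≤ C * (d : ℝ) ^ (-(3 / 2) : ℝ)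

/-- **Lower bound for `a2`.** The `j` with `|j - mu d (σ/2)| ≤ C d^{3/2}` carry mass `≥ 1/2` of `aa d (σ/2)`
(Chebyshev as in `S_acheb`, Pool.Agent.H828.GP174.acheb), for them `aa d (σ/2) (m-j) ≥ d^{-3/2-ε/2}` by `S_B4l`
since `|m - j - mu| ≤ (√(ε' log d) + C) d^{3/2} ≤ √(4ε' log d) d^{3/2}`. -/
def S_a2l : Prop := ∀ s1 s2 ε : ℝ, 0 < s1 → 0 < s2 → 0 < ε → ∃ ε' : ℝ, 0 < ε' ∧ ∃ d0 : ℕ, ∀ d ≥ d0,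
  ∀ σ : ℝ, 0 < σ → s1 ≤ σ * d → σ * d ≤ s2 → ∀ m : ℤ,
    |(m : ℝ) - 2 * mu d (σ / 2)| ≤ Real.sqrt (ε' * Real.log d) * (d : ℝ) ^ (3 / 2 : ℝ) →
    (d : ℝ) ^ (-(3 / 2) - ε : ℝ) ≤ a2 d σ m

/-- **Atypical Durfee sizes, every `N`** (adapt `S_A4`, Pool.Agent.H358.GP174.A4; `S_plow` gives
`2^{√⌊N/2⌋}` partitions of `2⌊N/2⌋`, and adding one part 1 gives an injection into partitions of `N`). Constants: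
`N = x²`: number of partitions `≥ 2^{x/√2 - 2} ≥ exp(0.49x - 2)`. For `d > c2 x`, `c2 = √0.999`:
`N - d² ≤ 0.001 x²`, `t = 60/x`: `exp(0.06x)·exp(4/t) ≤ exp(0.13x)`; for `d < c1 x`, `c1 = 1/1000`, `t = 0.05/x`:
`exp(0.05x)·(2e/(td))^{2d} ≤ exp(0.05x + 0.002x log(2e/0.00005)) ≤ exp(0.08x)`. -/
def S_A4r : Prop := ∃ c1 : ℝ, 0 < c1 ∧ ∃ c2 : ℝ, c1 < c2 ∧ c2 < 1 ∧ ∃ κ : ℝ, 0 < κ ∧
  ∃ n0 : ℕ, ∀ N ≥ n0,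
    (∑ d ∈ (Finset.range (N + 1)).filter
      (fun d : ℕ => ¬ (c1 * Real.sqrt N ≤ d ∧ (d : ℝ) ≤ c2 * Real.sqrt N)), (cnt d N : ℝ))
      ≤ Real.exp (-(κ * Real.sqrt N)) * ∑ d ∈ Finset.range (N + 1), (cnt d N : ℝ)

/-- **Concentration of the Durfee size.** Typical range `c1√N ≤ d ≤ c2√N` from `S_A4r`, `σ_d` from `S_B1r`. Put
`Φ(d,σ) = σ(N-d²) + 2 log Zf d σ`, `F(d) = Φ(d,σ_d)`; `σ_d` minimises `Φ(d,·)` (convex in `σ`, the derivative is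
`N - d² - 2 mu d (σ/2)`). `S_cnta2` with `S_a2u`, `S_a2l`: `d^{-2} e^{F(d)} ≤ cnt d N ≤ C e^{F(d)}`. Let
`G(d) = -σ_d(2d+1) - 2 log(1-e^{-σ_d(d+1)})`, `G'(d)` the same with `σ_{d+1}`. Minimality:
`F(d+1) ≤ Φ(d+1,σ_d) = F(d)+G(d)` and `F(d) ≤ Φ(d,σ_{d+1}) = F(d+1) - G'(d)`. `σ_{d+1} ≥ σ_d` (`mu` increases in `d`,
decreases in `σ`, target decreases). So `G(d+1) ≤ G(d) - 2σ_d ≤ G(d) - c/√N` and `G'(d) ≥ G(d+1)`. Let `d0` be the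
first `d` in the range with `G(d) ≤ 0` (the end of the range if there is none). Summing: for `d ≥ d0`,
`F(d) ≤ F(d0) - c(d-d0)(d-d0-1)/(2√N)`, for `d < d0`, `F(d) ≤ F(d0-1) - c(d0-1-d)(d0-2-d)/(2√N)`. So for
`|d-d0| > C√(√N log N)`: `cnt d N ≤ C N^2 N^{-cC²/4} · (total)`. -/
def S_Con : Prop := ∀ A : ℝ, 0 < A → ∃ C : ℝ, 0 < C ∧ ∃ n0 : ℕ, ∀ N ≥ n0, ∃ d0 : ℕ,
  (∑ d ∈ (Finset.range (N + 1)).filter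
      (fun d : ℕ => C * Real.sqrt (Real.sqrt N * Real.log N) < |(d : ℝ) - d0|), (cnt d N : ℝ))
    ≤ (N : ℝ) ^ (-A) * ∑ d ∈ Finset.range (N + 1), (cnt d N : ℝ)

/-- **Sup bound without the small coordinates.** Same proof as `S_decomp` + `S_B4u` (Pool.Agent.H164.GP174.decomp,
Pool.Agent.H767.GP174.B4u): only the coordinate `1` and the pairs `(i,i+D)`, `i ∈ (D,2D]`, `D = d/3 > L`, matter; other
coordinates are arbitrary independent factors. (Law of `gs σ`: geometric with parameter `e^{-σj}`.) -/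
def S_supJ : Prop := ∀ s1 s2 : ℝ, 0 < s1 → 0 < s2 → ∃ C : ℝ, 0 < C ∧ ∃ d0 : ℕ, ∀ d ≥ d0, ∀ σ : ℝ, 0 < σ →
  s1 ≤ σ * d → σ * d ≤ s2 → ∀ L : ℕ, 1 ≤ L → 4 * L ≤ d → ∀ t : ℤ,
    PP.real {ω | (gs σ ω 1 : ℤ) + ∑ j ∈ Finset.Ioc L d, (j : ℤ) * (gs σ ω j : ℤ) = t}
      ≤ C * (d : ℝ) ^ (-(3 / 2) : ℝ)

/-- **Moment generating function of `gs`** (as `S_mgf`): `0 ≤ ⌊|x|/a⌋ ≤ |x|/a`, centred it is bounded by `(|x|+1)/a`. The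
mean is `e^{-a}/(1-e^{-a})` (Pool.Agent.H828.GP174.acheb has it: floor_int). -/
def S_mgfg : Prop := ∀ s2 : ℝ, 0 < s2 → ∃ Cm : ℝ, 0 < Cm ∧ ∀ a θ : ℝ, 0 < a → a ≤ s2 → |θ| ≤ a / 4 →
  Integrable (fun x : ℝ => Real.exp (θ * ((⌊|x| / a⌋₊ : ℝ) - Real.exp (-a) / (1 - Real.exp (-a))))) lap ∧
  (∫ x : ℝ, Real.exp (θ * ((⌊|x| / a⌋₊ : ℝ) - Real.exp (-a) / (1 - Real.exp (-a)))) ∂lap)
    ≤ Real.exp (Cm * θ ^ 2 / a ^ 2)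

/-- **Difference and minimum of two independent geometric sequences are independent**: with
`X_j = g_j - g'_j`, `γ_j = min(g_j,g'_j)`: `P(g_j=k,g'_j=l) = (1-ρ)² ρ^{k+l}`, `k+l = |X|+2γ`,
`(1-ρ)² = ((1-ρ)/(1+ρ))(1-ρ²)`. `X` has the law of `geo σ` (`S_geolaw`), `γ` that of `gs (2σ)`. Sets depending on
finitely many coordinates of discrete sequences are countable unions of cylinders. -/
def S_Xg : Prop := ∀ (N : ℕ) (σ : ℝ) (F : Set ((ℕ → ℤ) × (ℕ → ℕ))), 0 < σ → DepZ N F →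
  (PP.prod PP).real {p | ((fun j => (gs σ p.1 j : ℤ) - (gs σ p.2 j : ℤ)),
      (fun j => min (gs σ p.1 j) (gs σ p.2 j))) ∈ F}
    = (PP.prod PP).real {p | ((fun j => geo σ p.1 j), (fun j => gs (2 * σ) p.2 j)) ∈ F}

/-- **Change of the parameter on few coordinates.** The density of `(g'_j)_{j≤L}` for `σ'` relative to `σ` is `R =
∏_{j≤L} (1-e^{-σ'j})/(1-e^{-σj}) e^{-(σ'-σ) j g'_j}`, `log R = ∫_σ^{σ'} ∑_j j(E_s g_j - g'_j) ds`. Under `P_{σ'}`, with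
`Y = ∑_{j≤L} j g'_j`, `Δ = σ'-σ`: `|log R| ≤ |Δ||Y - E_{σ'}Y| + C Δ² L/σ²` (`|∑ j(E_s g_j - E_{σ'} g_j)| ≤ C|Δ|L/σ²`),
`Δ²L/σ² ≤ C d^{-e} log d → 0`, and `P_{σ'}(|Y-EY| ≥ 1/(4|Δ|)) ≤ 2exp(-λσ/(4|Δ|) + CLλ²)` with `λ = 1/√L` (`S_mgfg`,
`S_chern` type bound), which is smaller than `d^{-A}`. So `P_{σ'}(F) ≤ P_{σ'}(F, R ≤ 2) + d^{-A} ≤ 2P_σ(F) + d^{-A}`.
First coordinate sequence fixed (Fubini); both orders of the two sequences. -/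
def S_tilt : Prop := ∀ s1 s2 C e A : ℝ, 0 < s1 → 0 < s2 → 0 < C → 0 < e → e < 1 → 0 < A → ∃ d0 : ℕ, ∀ d ≥ d0,
  ∀ σ σ' : ℝ, 0 < σ → 0 < σ' → s1 ≤ σ * d → σ * d ≤ s2 → s1 ≤ σ' * d → σ' * d ≤ s2 →
    |σ - σ'| ≤ C * Real.sqrt (Real.log d) * (d : ℝ) ^ (-(3 / 2) : ℝ) →
    ∀ L : ℕ, (L : ℝ) ≤ (d : ℝ) ^ (1 - e) → ∀ F : Set ((ℕ → ℕ) × (ℕ → ℕ)), DepZ L F →
      (PP.prod PP).real {p | ((fun j => gs σ p.1 j), (fun j => gs σ' p.2 j)) ∈ F}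
        ≤ 2 * (PP.prod PP).real {p | ((fun j => gs σ p.1 j), (fun j => gs σ p.2 j)) ∈ F} + (d : ℝ) ^ (-A) ∧
      (PP.prod PP).real {p | ((fun j => gs σ' p.1 j), (fun j => gs σ p.2 j)) ∈ F}
        ≤ 2 * (PP.prod PP).real {p | ((fun j => gs σ p.1 j), (fun j => gs σ p.2 j)) ∈ F} + (d : ℝ) ^ (-A)

/-- **Formula for `cntD`.** Sum over all quadruples of the product of the probabilities; on the event the sizes are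
`n`, so each quadruple has weight `e^{-σ(n-d²)-σ'(n-d'²)}/(Zf² Zf'²)`. -/
def S_Pr : Prop := ∀ (d d' n : ℕ) (σ σ' : ℝ), 0 < σ → 0 < σ' → d ^ 2 ≤ n → d' ^ 2 ≤ n →
  (cntD d d' n : ℝ) = Real.exp (σ * ((n : ℝ) - (d : ℝ) ^ 2) + σ' * ((n : ℝ) - (d' : ℝ) ^ 2)) *
    (Zf d σ) ^ 2 * (Zf d' σ') ^ 2 *
    Q4.real {q | d ^ 2 + ∑ i : Fin d, ((i : ℕ) + 1) * (gF d σ q.1.1 i + gF d σ q.2.1 i) = n ∧
      d' ^ 2 + ∑ i : Fin d', ((i : ℕ) + 1) * (gF d' σ' q.1.2 i + gF d' σ' q.2.2 i) = n ∧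
      DomM (toP d' (gF d' σ' q.1.2) (gF d' σ' q.2.2)) (toP d (gF d σ q.1.1) (gF d σ q.2.1))}

/-- **Persistence with perturbations and without the first coordinate** (variant of `S_PU`,
Pool.Agent.H960.GP174.PU; `L = ⌊d^{1-e}⌋`, `L2 = ⌊L/(log d)^8⌋`, `x0 = ⌈(log d)^8⌉`). Off an event of superpolynomially
small probability `|geo σ ω 1| ≤ |ω_1|/σ + 1 ≤ d (log d)²/s1·..` (`S_L3`, `S_Tq`) and (`S_float`, `t = (log d)²`)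
`|Cg σ ω L k - Ch ω L k/σ| ≤ k√L t`. The event then gives for `k ∈ [x0,L2]`:
`Ch ω L k ≥ -σ(C d(log d)² + k (d/√L)(log d)² + k√L (log d)²) ≥ -δ√k` because `√k ≥ (log d)^4`,
`k (log d)²/√L ≤ √k √(L2/L) (log d)² ≤ √k (log d)^{-2}` and `σ√(kL)(log d)² ≤ s2 d^{-e}(log d)²`. `S_shiftC` with
`X = [x0,L2]`, then Harris: `uu L ≥ P(∀k≤x0)·P(∀k∈[x0,L2])·P(∀k∈[L2,L])` (events `0 ≤ Ch ω L k`), `S_step`: the outer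
factors are powers of `log d`. -/
def S_PU2 : Prop := ∀ θ s1 s2 ε : ℝ, 0 ≤ θ → IsTheta θ → 0 < s1 → 0 < s2 → 0 < ε → ∃ e0 : ℝ, 0 < e0 ∧ e0 < 1 ∧
  ∀ e : ℝ, 0 < e → e ≤ e0 → ∃ d0 : ℕ, ∀ d ≥ d0, ∀ σ : ℝ, 0 < σ → s1 ≤ σ * d → σ * d ≤ s2 →
    PP.real {ω | ∀ k ∈ Finset.Icc ⌈(Real.log d) ^ 8⌉₊ ⌊(⌊(d : ℝ) ^ (1 - e)⌋₊ : ℝ) / (Real.log d) ^ 8⌋₊,
      -((d : ℝ) * (Real.log d) ^ 2 + k * ((d : ℝ) / Real.sqrt ⌊(d : ℝ) ^ (1 - e)⌋₊) * (Real.log d) ^ 2)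
        ≤ ∑ j ∈ Finset.Icc 2 ⌊(d : ℝ) ^ (1 - e)⌋₊, ((min j k : ℕ) : ℝ) * (geo σ ω j : ℝ)}
      ≤ (d : ℝ) ^ (-θ + ε)

end Pool.Agent.H174.GP
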