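import Pool.Agent.H174.GP.StD

open MeasureTheory ProbabilityTheory Finset Filter Topology

namespace Pool.Agent.H174.GP

/-- `F` depends only on the coordinates `1..N`. -/
def DepI (N : ℕ) (F : Set (ℕ → ℤ)) : Prop :=
  ∀ x x' : ℕ → ℤ, (∀ j ∈ Finset.Icc 1 N, x j = x' j) → x ∈ F → x' ∈ F

/-- `F` depends only on the coordinates in `I`. -/
def DepZI (I : Finset ℕ) (F : Set ((ℕ → ℕ) × (ℕ → ℕ))) : Prop :=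
  ∀ p p' : (ℕ → ℕ) × (ℕ → ℕ), (∀ j ∈ I, p.1 j = p'.1 j ∧ p.2 j = p'.2 j) → p ∈ F → p' ∈ F

/-- The persistence set used in the upper bound; `L = ⌊d^{1-e}⌋`. -/
def FS (d : ℕ) (e : ℝ) : Set ((ℕ → ℕ) × (ℕ → ℕ)) :=
  {p | ∀ k ∈ Finset.Icc ⌈(Real.log d) ^ 8⌉₊ ⌊(⌊(d : ℝ) ^ (1 - e)⌋₊ : ℝ) / (Real.log d) ^ 8⌋₊,
      -((d : ℝ) * (Real.log d) ^ 2 + k * ((d : ℝ) / Real.sqrt ⌊(d : ℝ) ^ (1 - e)⌋₊) * (Real.log d) ^ 2)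
        ≤ ∑ j ∈ Finset.Icc 2 ⌊(d : ℝ) ^ (1 - e)⌋₊, ((min j k : ℕ) : ℝ) * ((p.1 j : ℝ) - (p.2 j : ℝ))}

/-- Small coordinates `2..⌊ηd⌋`: persistence, large end value, tails. -/
def SmE (d : ℕ) (σ η R1 ε' : ℝ) : Set (ℕ → ℝ) :=
  {ω | (∀ k ∈ Finset.Icc 1 ⌊η * d⌋₊,
      (k : ℝ) ≤ ∑ j ∈ Finset.Icc 2 ⌊η * d⌋₊, ((min j k : ℕ) : ℝ) * (geo σ ω j : ℝ)) ∧
    R1 * (d : ℝ) ^ (3 / 2 : ℝ) ≤ ∑ j ∈ Finset.Icc 2 ⌊η * d⌋₊, (j : ℝ) * (geo σ ω j : ℝ) ∧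
    |∑ j ∈ Finset.Icc 2 ⌊η * d⌋₊, (j : ℝ) * (geo σ ω j : ℝ)|
      ≤ Real.sqrt (ε' / 64 * Real.log d) * (d : ℝ) ^ (3 / 2 : ℝ) ∧
    |∑ j ∈ Finset.Icc 2 ⌊η * d⌋₊, ((j : ℝ) * |(geo σ ω j : ℝ)| -
      (j : ℝ) * (2 * Real.exp (-(σ * j)) / (1 - Real.exp (-(2 * σ * j)))))|
      ≤ Real.sqrt (ε' / 64 * Real.log d) * (d : ℝ) ^ (3 / 2 : ℝ)}

/-- Middle coordinates `⌊ηd⌋ < j ≤ d` with the flippable pairs removed. -/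
def MiE (d : ℕ) (σ η C1 R c : ℝ) : Set (ℕ → ℝ) :=
  {ω | C1 * Real.sqrt d ≤ ∑ j ∈ Finset.Ioc ⌊η * d⌋₊ d, (X0 (d / 3) σ ω j : ℝ) ∧
    (∀ k ∈ Finset.Icc 1 d, |∑ j ∈ Finset.Ioc ⌊η * d⌋₊ d, ((min j k : ℕ) : ℝ) * (X0 (d / 3) σ ω j : ℝ)|
      ≤ R * (d : ℝ) ^ (3 / 2 : ℝ)) ∧
    |∑ j ∈ Finset.Ioc ⌊η * d⌋₊ d, ((j : ℝ) * |(geo σ ω j : ℝ)| -
      (j : ℝ) * (2 * Real.exp (-(σ * j)) / (1 - Real.exp (-(2 * σ * j)))))| ≤ R * (d : ℝ) ^ (3 / 2 : ℝ) ∧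
    c * d ≤ (IP (d / 3) σ ω).card}

/-- The event of `S_QXb`: small and middle coordinates good, `0 ≤ X_1 < 2D`, exact end value `t` after the choice of
the signs, partial sums of the signs bounded below. -/
def EQ (d : ℕ) (σ η C1 R c R1 ε' : ℝ) (t : ℤ) : Set ((ℕ → ℝ) × (ℕ → ℝ)) :=
  {p | p.1 ∈ SmE d σ η R1 ε' ∧ p.1 ∈ MiE d σ η C1 R c ∧ 0 ≤ geo σ p.1 1 ∧ geo σ p.1 1 < 2 * ((d / 3 : ℕ) : ℤ) ∧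
    geo σ p.1 1 + (∑ j ∈ Finset.Icc 2 d, (j : ℤ) * X0 (d / 3) σ p.1 j)
      + ((d / 3 : ℕ) : ℤ) * (∑ i ∈ IP (d / 3) σ p.1, sg (p.2 i)) = t ∧
    ∀ l : ℕ, min 0 (∑ i ∈ IP (d / 3) σ p.1, sg (p.2 i)) - (⌈Real.sqrt d⌉₊ : ℤ)
      ≤ ∑ i ∈ (IP (d / 3) σ p.1).filter (fun i => i ≤ l), sg (p.2 i)}

/-- Bad event for one pair of sequences in the upper bound (`L = ⌊d^{1-e}⌋`). -/
def BadS (d d' : ℕ) (σ σ' e : ℝ) : Set ((ℕ → ℝ) × (ℕ → ℝ)) :=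
  {p | (d : ℝ) * (Real.log d) ^ 2 / 2 < |(gs σ p.1 1 : ℝ) - gs σ' p.2 1| ∨
      ((d : ℝ) / Real.sqrt ⌊(d : ℝ) ^ (1 - e)⌋₊) * (Real.log d) ^ 2 / 2 <
        |((d : ℝ) - d') + ∑ j ∈ Finset.Ioc ⌊(d : ℝ) ^ (1 - e)⌋₊ d, (gs σ p.1 j : ℝ)
          - ∑ j ∈ Finset.Ioc ⌊(d : ℝ) ^ (1 - e)⌋₊ d', (gs σ' p.2 j : ℝ)|}

/-- `g'_l` in terms of `X_l = g_l - g'_l` and `γ_l = min(g_l, g'_l)`. -/
noncomputable def eE (σ : ℝ) (ω ω' : ℕ → ℝ) (l : ℕ) : ℕ := gs (2 * σ) ω' l + (max 0 (-(geo σ ω l))).toNat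

/-- `h'_l` in terms of `Y_l = h'_l - h_l` and `γ'_l = min(h_l, h'_l)`. -/
noncomputable def fE (σ : ℝ) (ω ω' : ℕ → ℝ) (l : ℕ) : ℕ := gs (2 * σ) ω' l + (max 0 (geo σ ω l)).toNat

/-- The event of the lower bound in terms of `((X,γ),(Y,γ'))`. -/
def E1 (d d' n : ℕ) (σ : ℝ) : Set (((ℕ → ℝ) × (ℕ → ℝ)) × ((ℕ → ℝ) × (ℕ → ℝ))) :=
  {q | (∀ k ∈ Finset.Icc 1 d, (k : ℝ) * (((d' : ℝ) - d) + ∑ l ∈ Finset.Ioc d d', (eE σ q.1.1 q.1.2 l : ℝ))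
        ≤ Cg σ q.1.1 d k) ∧
    (∀ k ∈ Finset.Icc 1 d, 0 ≤ Cg σ q.2.1 d k) ∧
    (∑ j ∈ Finset.Icc 1 d, (j : ℤ) * geo σ q.1.1 j) - (∑ j ∈ Finset.Icc 1 d, (j : ℤ) * geo σ q.2.1 j)
      = (d' : ℤ) ^ 2 - (d : ℤ) ^ 2
        + ∑ l ∈ Finset.Ioc d d', (l : ℤ) * ((eE σ q.1.1 q.1.2 l : ℤ) + (fE σ q.2.1 q.2.2 l : ℤ)) ∧
    2 * (∑ j ∈ Finset.Icc 1 d, (j : ℤ) * ((gs (2 * σ) q.1.2 j : ℤ) + (gs (2 * σ) q.2.2 j : ℤ)))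
      = 2 * (n : ℤ) - (d : ℤ) ^ 2 - (d' : ℤ) ^ 2 - sX σ q.1.1 d - sX σ q.2.1 d
        - ∑ l ∈ Finset.Ioc d d', (l : ℤ) * ((eE σ q.1.1 q.1.2 l : ℤ) + (fE σ q.2.1 q.2.2 l : ℤ))}

/-- **Crude lower bound without the first coordinate.** As `S_block` + `S_crude` (Pool.Agent.H404.GP174.block,
Pool.Agent.H729.GP174.crude) for the sum over `2 ≤ j ≤ L`: for `a ≥ 2` the variance of `∑_{2≤j≤a} jφ_j` is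
`≥ cv A²(a-1) ≥ cv A² a/2`; for the window `{1}` (a = 1) use `∑_{2≤j≤L} φ_j`, `S_pz` for the single `j = 2` and
`S_half` for the others. -/
def S_crude2 : Prop := ∀ cv Cv κ : ℝ, 0 < cv → 0 < Cv → 0 < κ → ∃ c : ℝ, 0 < c ∧ ∃ κ1 : ℝ, 0 < κ1 ∧
  ∃ δ0 : ℝ, 0 < δ0 ∧ ∀ (φ : ℕ → ℝ → ℝ) (A : ℝ) (L a b : ℕ), Adm φ A L cv Cv κ → 2 ≤ L → 1 ≤ a → a ≤ b → b ≤ L →
    c * ((a : ℝ) / b) ^ κ1 ≤ PP.real {ω | ∀ x ∈ Finset.Icc a b,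
      δ0 * A * Real.sqrt x ≤ ∑ j ∈ Finset.Icc 2 L, ((min j x : ℕ) : ℝ) * φ j (ω j)}

/-- **Lower bound, small coordinates, without the first one** (adapt `S_PLs`, Pool.Agent.H977.GP174.PLs). Harris on the
coordinates `2..B` for the increasing events: (i0) `k ≤ sum` for `k ≤ x0 = ⌈(log d)^8⌉`, probability `≥ c x0^{-κ1}`
(`S_crude2`); (i) for `k ∈ [x0,L]`: the sum over `2..B` is that over `2..L` plus `k∑_{L<j≤B}X_j`; it suffices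
`δ√k ≤ Ch ω L k`, `|X_1| ≤ d (log d)²` and the event of `S_float` with `t = log d`: then the sum over `2..L` is
`≥ δ√k/σ - k√L t - d(log d)² ≥ k` because `δ√k/σ ≥ δ (log d)^4 d/s2`; (ii) `k ∈ [L,B]` by `S_crude2`; (iii) the sum
`∑_{2≤j≤B} jX_j ≥ R d^{3/2}` by `S_big` with `R+1` and `P(|X_1| > d^{3/2}) → 0`. -/
def S_PLs2 : Prop := ∀ θ s1 s2 ε η R : ℝ, 0 ≤ θ → IsTheta θ → 0 < s1 → 0 < s2 → 0 < ε → 0 < η → η < 1 → 0 < R →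
  ∃ d0 : ℕ, ∀ d ≥ d0, ∀ σ : ℝ, 0 < σ → s1 ≤ σ * d → σ * d ≤ s2 →
    (d : ℝ) ^ (-θ - ε) ≤ PP.real {ω | (∀ k ∈ Finset.Icc 1 ⌊η * d⌋₊,
        (k : ℝ) ≤ ∑ j ∈ Finset.Icc 2 ⌊η * d⌋₊, ((min j k : ℕ) : ℝ) * (geo σ ω j : ℝ)) ∧
      R * (d : ℝ) ^ (3 / 2 : ℝ) ≤ ∑ j ∈ Finset.Icc 2 ⌊η * d⌋₊, (j : ℝ) * (geo σ ω j : ℝ)}

/-- **Tails for the small coordinates** (adapt `S_typs`, Pool.Agent.H505.GP174.typs, both parts of `S_mgf`). -/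
def S_typs2 : Prop := ∀ s1 s2 ε' A : ℝ, 0 < s1 → 0 < s2 → 0 < ε' → 0 < A → ∃ η0 : ℝ, 0 < η0 ∧ η0 < 1 ∧ ∃ d0 : ℕ,
  ∀ d ≥ d0, ∀ σ : ℝ, 0 < σ → s1 ≤ σ * d → σ * d ≤ s2 → ∀ B : ℕ, (B : ℝ) ≤ η0 * d →
    PP.real {ω | Real.sqrt (ε' * Real.log d) * (d : ℝ) ^ (3 / 2 : ℝ) ≤
      |∑ j ∈ Finset.Icc 2 B, (j : ℝ) * (geo σ ω j : ℝ)|} ≤ (d : ℝ) ^ (-A) ∧
    PP.real {ω | Real.sqrt (ε' * Real.log d) * (d : ℝ) ^ (3 / 2 : ℝ) ≤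
      |∑ j ∈ Finset.Icc 2 B, ((j : ℝ) * |(geo σ ω j : ℝ)| -
        (j : ℝ) * (2 * Real.exp (-(σ * j)) / (1 - Real.exp (-(2 * σ * j)))))|} ≤ (d : ℝ) ^ (-A)

/-- **Flipping does not change the law.** For `i ∈ IP` put `s_i = X_{i+D} = ±1`. The signs `η_i = ε_i s_i` are again
fair and independent of `ω` (flip `ω''_i` when `s_i = -1`; `sg(-x) = -sg x` a.e.), and `XT = (η_i X_i, η_i X_{i+D})` on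
flippable pairs. For fixed `η` the map `ω ↦` (multiply `ω_i, ω_{i+D}` by `η_i` for `i ∈ IP(ω)`) is an involution that
preserves `IP` (as `Tq` is odd, `S_Tq`) and `PP` (symmetry of `lap`: on each set `{IP = I}` it is a sign change of
fixed coordinates). -/
def S_flip : Prop := ∀ (D N : ℕ) (σ : ℝ) (F : Set (ℕ → ℤ)), 0 < σ → DepI N F →
  (PP.prod PP).real {p | (fun j => XT D σ p j) ∈ F} = PP.real {ω | (fun j => geo σ ω j) ∈ F}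

open Classical in
/-- **Reflection principle.** For `k ≥ 0`: paths ending at `k` that reach `-a-1` correspond to paths ending at
`-2(a+1)-k`, there are `C(n, m+a+1)` of them, `m = (n+k)/2 ≥ n/2`. Ratio to `C(n,m)`:
`∏_{i=1}^{a+1} (n-m-i+1)/(m+i) ≤ ∏ (1 - (2i-1)/(n/2+i)) ≤ exp(-(a+1)²/(n/2+a+1)) ≤ e^{-1} < 1/2` since
`n ≤ a²` (factors are `≥ 0`, or the count is `0`). For `k < 0` reverse the path and change signs. -/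
def S_reflect : Prop := ∀ (n a : ℕ) (k : ℤ), |k| ≤ n → Even ((n : ℤ) + k) → n ≤ a ^ 2 →
  (((Finset.univ : Finset (Fin n → Bool)).filter
      (fun ε : Fin n → Bool => ∑ i, (if ε i then (1 : ℤ) else -1) = k)).card : ℝ) ≤
    2 * (((Finset.univ : Finset (Fin n → Bool)).filter
      (fun ε : Fin n → Bool => ∑ i, (if ε i then (1 : ℤ) else -1) = k ∧
      ∀ l : ℕ, min 0 k - a ≤ ∑ i ∈ Finset.univ.filter (fun i : Fin n => (i : ℕ) < l),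
        (if ε i then (1 : ℤ) else -1))).card : ℝ)

/-- **Local lower bound for fair coins.** `k0 = ⌊n/2⌋` is the mode (`Nat.choose_le_middle`), by Chebyshev
`∑_{|k-n/2|≤√n} bn ≥ 3/4`, so `bn k0 ≥ c/√n`; `S_bin2` with `p = 1/2`, `u√n = |k - n/2| + 1`. -/
def S_binlow : Prop := ∃ c : ℝ, 0 < c ∧ ∃ C : ℝ, 0 < C ∧ ∃ c0 : ℝ, 0 < c0 ∧ ∀ n k : ℕ, 1 ≤ n →
  |2 * (k : ℝ) - n| ≤ c0 * n → c / Real.sqrt n * Real.exp (-(C * (2 * (k : ℝ) - n) ^ 2 / n)) ≤ bn n (1 / 2) k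

/-- **Random signs hit a value and stay above.** The signs `sg (ω i)`, `i ∈ I`, are independent and fair
(`S_L3`: no atoms, symmetric), so the probability is the number of good sign vectors over `2^n`; `S_reflect` (listing
`I` increasingly) and `S_binlow` with `(n+k)/2` heads. -/
def S_bits : Prop := ∃ c : ℝ, 0 < c ∧ ∃ C : ℝ, 0 < C ∧ ∃ c0 : ℝ, 0 < c0 ∧ ∀ (I : Finset ℕ) (k : ℤ) (a : ℕ),
  1 ≤ I.card → I.card ≤ a ^ 2 → |(k : ℝ)| ≤ c0 * I.card → Even ((I.card : ℤ) + k) →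
    c / Real.sqrt I.card * Real.exp (-(C * (k : ℝ) ^ 2 / I.card)) ≤
      PP.real {ω | ∑ i ∈ I, sg (ω i) = k ∧ ∀ l : ℕ, min 0 k - a ≤ ∑ i ∈ I.filter (fun i => i ≤ l), sg (ω i)}

/-- **Middle sum is large with constant probability.** `B = ⌊ηd⌋`. `c' ≤ E X_j² ≤ C'` for `B < j ≤ d` (`S_AdmGeo`:
`cv A²/j² ≤ E φ_j²` with `A = 1/σ`, and fourth moments bounded). Split `(B,d]` into `G` consecutive groups of about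
`(d-B)/G` coordinates. For each group `S_pz` (`κ` bounded as `d` is large: `∑E⁴ ≤ κ'A⁴/j⁴·..`, `(∑E²)² ≥ c²`): group sum
`≥ c''√(d/G)` with probability `≥ p0` (`c'', p0` independent of `G`). Independent groups: all of them with probability
`≥ p0^G`, total `≥ c''√(dG) ≥ C1√d` for `G` large. -/
def S_mid2a : Prop := ∀ s1 s2 η C1 : ℝ, 0 < s1 → 0 < s2 → 0 < η → η < 1 / 4 → 0 < C1 → ∃ c3 : ℝ, 0 < c3 ∧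
  ∃ d0 : ℕ, ∀ d ≥ d0, ∀ σ : ℝ, 0 < σ → s1 ≤ σ * d → σ * d ≤ s2 →
    c3 ≤ PP.real {ω | C1 * Real.sqrt d ≤ ∑ j ∈ Finset.Ioc ⌊η * d⌋₊ d, (geo σ ω j : ℝ)}

/-- **Middle coordinates without the flippable pairs.** `D = d/3`, `B = ⌊ηd⌋ < D`. For every `ω''`:
`∑ min(j,k)X0_j = ∑ min(j,k)XT_j - ∑_{i∈IP} ε_i ψ_i(k)`, `ψ_i(k) = min(i+D,k) - min(i,k) ∈ [0,D]` nonincreasing in `i`
(sums over `(B,d]`, which contains all `i, i+D`). The first sum has the law of `∑_{(B,d]} min(j,k)X_j` (`S_flip`), at most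
`R d^{3/2}/2` in absolute value for all `k ≤ d` with probability `≥ 1 - δ/2` (`S_cheb` for `jX_j` and for `X_j`:
`∑_{(B,d]} min(j,k)X_j = ∑_{B<j≤k} jX_j + k∑_{k<j≤d}X_j`, for `k ≤ B` it is `k∑_{(B,d]}X_j`). The second is
`≤ D max_l |∑_{i≤l, i∈IP} ε_i|` (Abel summation), and for fixed `ω` `S_cheb` for the signs `sg(ω''_i)` (made odd at `0`,
a null set) gives `≤ R d^{3/2}/2` with probability `≥ 1 - δ/2`. So `P(bad for X0) ≤ δ` (project on `ω`). -/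
def S_mid2b : Prop := ∀ s1 s2 η δ : ℝ, 0 < s1 → 0 < s2 → 0 < η → η < 1 / 4 → 0 < δ → ∃ R : ℝ, 0 < R ∧
  ∃ d0 : ℕ, ∀ d ≥ d0, ∀ σ : ℝ, 0 < σ → s1 ≤ σ * d → σ * d ≤ s2 →
    PP.real {ω | ∃ k ∈ Finset.Icc 1 d, R * (d : ℝ) ^ (3 / 2 : ℝ) <
      |∑ j ∈ Finset.Ioc ⌊η * d⌋₊ d, ((min j k : ℕ) : ℝ) * (X0 (d / 3) σ ω j : ℝ)|} ≤ δ

/-- **Many flippable pairs.** The events `prD (d/3) σ ω i`, `i ∈ (D,2D]`, `D = d/3`, depend on disjoint pairs of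
coordinates, each has probability `≥ π0(s1,s2) > 0` (`S_Tqlaw`). Group them or use Chebyshev for the number
(second moment of a sum of independent centred indicators). -/
def S_IPc : Prop := ∀ s1 s2 : ℝ, 0 < s1 → 0 < s2 → ∃ c : ℝ, 0 < c ∧ ∀ δ : ℝ, 0 < δ → ∃ d0 : ℕ, ∀ d ≥ d0,
  ∀ σ : ℝ, 0 < σ → s1 ≤ σ * d → σ * d ≤ s2 →
    PP.real {ω | ((IP (d / 3) σ ω).card : ℝ) < c * d} ≤ δ

/-- **Middle coordinates, all conditions.** (i) `∑_{(B,d]} X0_j = ∑_{(B,d]} X_j` (flippable pairs have sum `0`, both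
members in `(B,d]`), `S_mid2a` gives `c3`; (ii) `S_mid2b` with `δ = c3/8`; (iii) `S_var2` for `j|X_j|` (mean by
`S_Tqmean`, second moments `≤ C/σ²` by `S_AdmGeo`), `≤ c3/8` for `R` large; (iv) `S_IPc` with `δ = c3/8`. -/
def S_mid2 : Prop := ∀ s1 s2 : ℝ, 0 < s1 → 0 < s2 → ∃ c : ℝ, 0 < c ∧ ∀ η C1 : ℝ, 0 < η → η < 1 / 4 → 0 < C1 →
  ∃ R : ℝ, 0 < R ∧ ∃ c2 : ℝ, 0 < c2 ∧ ∃ d0 : ℕ, ∀ d ≥ d0, ∀ σ : ℝ, 0 < σ → s1 ≤ σ * d → σ * d ≤ s2 →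
    c2 ≤ PP.real (MiE d σ η C1 R c)

/-- **Choice of the signs and of `X_1`.** `c` from `S_mid2`, `ε1` small; `η` from `S_typs2` (with
`ε'/64`, `A = θ + 4`, and `η < 1/4`); `R, c2` from `S_mid2`. `P(SmE) ≥ ½ d^{-θ-ε/2}` by `S_PLs2` (with `R1`) and `S_typs2`;
`SmE` depends on the coordinates `2..B`, `MiE` on `(B,d]` (`B = ⌊ηd⌋ < D = d/3`). Fix `ω` outside coordinate `1` in
both. `T0 := ∑_{2≤j≤d} j X0_j`, `|T0| ≤ √(ε' log d) d^{3/2}` (`∑_{(B,d]} jX0_j` is the case `k = d` in `MiE`).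
There is a unique `k* ≡ card IP mod 2` with `r := t - T0 - D k* ∈ [0,2D)`, `|k*| ≤ 10√(ε' log d)√d ≤ c0 card IP`.
`X_1 = r` has probability `≥ c4/d` (`S_Tqlaw`, `r ≤ d`), independently `∑_{i∈IP} sg(ω''_i) = k*` with the partial sums
above `min(0,k*) - a`, `a = ⌈√d⌉` (`card IP ≤ d ≤ a²`), has probability `≥ c5 d^{-1/2} d^{-100Cε'/c}` (`S_bits`),
`≥ d^{-1/2-ε/4}` if `ε' ≤ ε1`, `d` large. -/
def S_QXb : Prop := ∀ θ s1 s2 C1 ε : ℝ, 0 ≤ θ → IsTheta θ → 0 < s1 → 0 < s2 → 0 < C1 → 0 < ε →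
  ∃ ε1 : ℝ, 0 < ε1 ∧ ∀ ε' : ℝ, 0 < ε' → ε' ≤ ε1 → ∃ η : ℝ, 0 < η ∧ η < 1 / 4 ∧ ∃ R : ℝ, 0 < R ∧
    ∃ c : ℝ, 0 < c ∧ ∀ R1 : ℝ, 0 < R1 → ∃ d0 : ℕ, ∀ d ≥ d0, ∀ σ : ℝ, 0 < σ → s1 ≤ σ * d → σ * d ≤ s2 →
      ∀ t : ℤ, |(t : ℝ)| ≤ 2 * Real.sqrt (ε' * Real.log d) * (d : ℝ) ^ (3 / 2 : ℝ) →
        (d : ℝ) ^ (-θ - 3 / 2 - ε) ≤ (PP.prod PP).real (EQ d σ η C1 R c R1 ε' t)

/-- **Deterministic part.** `D = d/3`, `B = ⌊ηd⌋ < D`, `K = ∑_{i∈IP} sg(ω''_i)`, `X = X0` on `(B,d]` after removing the pairs,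
`XT_i = -ε_i`, `XT_{i+D} = ε_i` (`i ∈ IP`). `∑ jXT_j = X_1 + T0 + D K = t`. For `k ≤ B`: `∑_{j≤d} min(j,k)XT_j =
X_1 + ∑_{2≤j≤B} min(j,k)X_j + k∑_{(B,d]}X0_j ≥ k C1√d` (as `min(j,k) = k` on `(B,d]`, pairs cancel). For `k > B`: with
`W(k) = ∑_{2≤j≤d} min(j,k)X0_j`: `|W(k) - T0| ≤ 2R d^{3/2}`, `W(k) ≥ (R1-R) d^{3/2}` (`∑_{2≤j≤B} jX_j ≥ R1 d^{3/2}`), and
`∑_{j≤d} min(j,k)XT_j = X_1 + W(k) + ∑_{i∈IP} ε_iψ_i(k)`, `ψ_i(k) = min(i+D,k)-min(i,k) ∈ [0,D]` nonincreasing in `i`, so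
by Abel summation the last sum is `≥ D(min(0,K) - a)`, `a = ⌈√d⌉`. Hence the total is `≥ W(k) - Da ≥ (R1-R-1) d^{3/2}` if
`K ≥ 0`, and if `K < 0` it is `≥ W(k) + DK - Da ≥ t - X_1 - 2R d^{3/2} - Da ≥ (R0 - 2R - 2) d^{3/2}`. Take `R1 = R + C1 + 1`,
`R0 = 2R + C1 + 2` (large `d`; `Da ≤ d^{3/2}`). Then `≥ C1 d^{3/2} ≥ k C1√d`. `|XT_j| = |X_j|`: the absolute sum minus `m1`:
small part `≤ √(ε'/64·log d) d^{3/2}`, middle part `≤ R d^{3/2}`, coordinate 1: `O(d)`; total `≤ √(ε' log d) d^{3/2}`. -/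
def S_QXa : Prop := ∀ s1 s2 C1 ε' η R c : ℝ, 0 < s1 → 0 < s2 → 0 < C1 → 0 < ε' → 0 < η → η < 1 / 4 → 0 < R → 0 < c →
  ∃ R1 : ℝ, 0 < R1 ∧ ∃ R0 : ℝ, 0 < R0 ∧ ∃ d0 : ℕ, ∀ d ≥ d0, ∀ σ : ℝ, 0 < σ → s1 ≤ σ * d → σ * d ≤ s2 →
    ∀ t : ℤ, R0 * (d : ℝ) ^ (3 / 2 : ℝ) ≤ t → ∀ p ∈ EQ d σ η C1 R c R1 ε' t,
      (∀ k ∈ Finset.Icc 1 d, k * (C1 * Real.sqrt d) ≤
        ∑ j ∈ Finset.Icc 1 d, ((min j k : ℕ) : ℝ) * (XT (d / 3) σ p j : ℝ)) ∧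
      (∑ j ∈ Finset.Icc 1 d, (j : ℤ) * XT (d / 3) σ p j) = t ∧
      |((∑ j ∈ Finset.Icc 1 d, (j : ℤ) * |XT (d / 3) σ p j| : ℤ) : ℝ) - m1 d σ|
        ≤ Real.sqrt (ε' * Real.log d) * (d : ℝ) ^ (3 / 2 : ℝ)

/-- **Persistence with a prescribed end value** (for all `t` in the range): `S_QXb`, `S_QXa` (with its `R1`), and
`S_flip` with `F` = the set of sequences with the three properties, `N = d`, `D = d/3`. -/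
def S_QX : Prop := ∀ θ s1 s2 C1 ε : ℝ, 0 ≤ θ → IsTheta θ → 0 < s1 → 0 < s2 → 0 < C1 → 0 < ε →
  ∃ ε1 : ℝ, 0 < ε1 ∧ ∀ ε' : ℝ, 0 < ε' → ε' ≤ ε1 → ∃ R0 : ℝ, 0 < R0 ∧ ∃ d0 : ℕ, ∀ d ≥ d0, ∀ σ : ℝ, 0 < σ →
    s1 ≤ σ * d → σ * d ≤ s2 → ∀ t : ℤ, R0 * (d : ℝ) ^ (3 / 2 : ℝ) ≤ t →
      (t : ℝ) ≤ 2 * Real.sqrt (ε' * Real.log d) * (d : ℝ) ^ (3 / 2 : ℝ) →
      (d : ℝ) ^ (-θ - 3 / 2 - ε) ≤ PP.real {ω | (∀ k ∈ Finset.Icc 1 d, k * (C1 * Real.sqrt d) ≤ Cg σ ω d k) ∧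
        (∑ j ∈ Finset.Icc 1 d, (j : ℤ) * geo σ ω j) = t ∧
        |(sX σ ω d : ℝ) - m1 d σ| ≤ Real.sqrt (ε' * Real.log d) * (d : ℝ) ^ (3 / 2 : ℝ)}

/-- **Two independent persistent walks with a prescribed difference of end values.** Sum of `S_QX × S_QX` over
`t ∈ [R0 d^{3/2}, √(ε' log d) d^{3/2}]` (at least `d^{3/2}` integers for large `d`): second walk ends at `t`, first at
`t + Θ ≤ 2√(ε' log d) d^{3/2}`; disjoint events. -/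
def S_Q : Prop := ∀ θ s1 s2 C1 ε : ℝ, 0 ≤ θ → IsTheta θ → 0 < s1 → 0 < s2 → 0 < C1 → 0 < ε →
  ∃ ε1 : ℝ, 0 < ε1 ∧ ∀ ε' : ℝ, 0 < ε' → ε' ≤ ε1 → ∃ d0 : ℕ, ∀ d ≥ d0, ∀ σ : ℝ, 0 < σ →
    s1 ≤ σ * d → σ * d ≤ s2 → ∀ Θ : ℤ, 0 ≤ Θ → (Θ : ℝ) ≤ C1 * (d : ℝ) ^ (3 / 2 : ℝ) →
      (d : ℝ) ^ (-(2 * θ) - 3 / 2 - ε) ≤ (PP.prod PP).real {p |
        (∀ k ∈ Finset.Icc 1 d, k * (C1 * Real.sqrt d) ≤ Cg σ p.1 d k) ∧ (∀ k ∈ Finset.Icc 1 d, 0 ≤ Cg σ p.2 d k) ∧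
        (∑ j ∈ Finset.Icc 1 d, (j : ℤ) * geo σ p.1 j) - (∑ j ∈ Finset.Icc 1 d, (j : ℤ) * geo σ p.2 j) = Θ ∧
        |(sX σ p.1 d : ℝ) - m1 d σ| ≤ Real.sqrt (ε' * Real.log d) * (d : ℝ) ^ (3 / 2 : ℝ) ∧
        |(sX σ p.2 d : ℝ) - m1 d σ| ≤ Real.sqrt (ε' * Real.log d) * (d : ℝ) ^ (3 / 2 : ℝ)}

/-- **Bad event in the upper bound.** (`L = ⌊d^{1-e}⌋`.) `P(gs σ ω 1 > x) ≤ e^{-σx}` with `x = d (log d)²/2`. The centred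
sums: `P(|∑_{L<j≤d}(g_j - E g_j)| ≥ t/(σ√L)) ≤ C e^{-t/4}` by `S_mgfg`, `S_chern` with `θ = σ√L/4` (as
`S_contam`), likewise for `g'`; and the difference of the means is, with `|σ-σ'| ≤ C'√(log n) n^{-3/4}` (`S_sigc`):
`|d-d'| + |∑_{L<j≤d} 1/(e^{σj}-1) - ∑_{L<j≤d'} 1/(e^{σ'j}-1)| ≤ C''√(√n log n) (1 + log n)`, which is smaller than
`(d/√L)(log d)²/8` (`d/√L ≥ √d d^{e/2}`). -/
def S_DU1 : Prop := ∀ c1 c2 s1 s2 C e A : ℝ, 0 < c1 → c1 < c2 → c2 < 1 → 0 < s1 → 0 < s2 → 0 < C → 0 < e → e < 1 →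
  0 < A → ∃ n0 : ℕ, ∀ n ≥ n0, ∀ (d d' : ℕ) (σ σ' : ℝ), c1 * Real.sqrt n ≤ d → (d : ℝ) ≤ c2 * Real.sqrt n →
    c1 * Real.sqrt n ≤ d' → (d' : ℝ) ≤ c2 * Real.sqrt n → 0 < σ → 0 < σ' →
    (d : ℝ) ^ 2 + 2 * mu d (σ / 2) = n → (d' : ℝ) ^ 2 + 2 * mu d' (σ' / 2) = n →
    s1 ≤ σ * d → σ * d ≤ s2 → s1 ≤ σ' * d' → σ' * d' ≤ s2 →
    |(d : ℝ) - d'| ≤ C * Real.sqrt (Real.sqrt n * Real.log n) →
    (PP.prod PP).real (BadS d d' σ σ' e) ≤ (n : ℝ) ^ (-A)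

/-- **Decoupling of the exact sizes.** Fubini over the coordinates `1` and `> L` of the first and of the second
sequence: given all other coordinates, the first size equation has probability `≤ sup_t P(g_1 + ∑_{L<j≤d} j g_j = t)
≤ C d^{-3/2}` (`S_supJ`), the second likewise, and the remaining conditions depend on the coordinates `2..L`. -/
def S_DU2 : Prop := ∀ s1 s2 : ℝ, 0 < s1 → 0 < s2 → ∃ C : ℝ, 0 < C ∧ ∃ d0 : ℕ, ∀ (d d' : ℕ) (σ σ' : ℝ), d0 ≤ d →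
  d0 ≤ d' → 0 < σ → 0 < σ' → s1 ≤ σ * d → σ * d ≤ s2 → s1 ≤ σ' * d' → σ' * d' ≤ s2 →
    ∀ (L n : ℕ) (F1 F2 : Set ((ℕ → ℕ) × (ℕ → ℕ))), 1 ≤ L → 4 * L ≤ d → 4 * L ≤ d' →
      DepZI (Finset.Icc 2 L) F1 → DepZI (Finset.Icc 2 L) F2 →
      Q4.real {q | d ^ 2 + ∑ i : Fin d, ((i : ℕ) + 1) * (gF d σ q.1.1 i + gF d σ q.2.1 i) = n ∧
        d' ^ 2 + ∑ i : Fin d', ((i : ℕ) + 1) * (gF d' σ' q.1.2 i + gF d' σ' q.2.2 i) = n ∧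
        ((fun j => gs σ q.1.1 j), (fun j => gs σ' q.1.2 j)) ∈ F1 ∧
        ((fun j => gs σ q.2.1 j), (fun j => gs σ' q.2.2 j)) ∈ F2}
      ≤ (PP.prod PP).real {p | ((fun j => gs σ p.1 j), (fun j => gs σ' p.2 j)) ∈ F1} *
        (PP.prod PP).real {p | ((fun j => gs σ p.1 j), (fun j => gs σ' p.2 j)) ∈ F2} *
        (C * (d : ℝ) ^ (-(3 / 2) : ℝ)) * (C * (d' : ℝ) ^ (-(3 / 2) : ℝ))

/-- **Persistence probability with two parameters**: `S_tilt` (with `A = θ+1`), then `S_Xg` (the set `FS` depends on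
the differences only), then `S_PU2` with `ε/2`. -/
def S_DU3 : Prop := ∀ θ s1 s2 C ε : ℝ, 0 ≤ θ → IsTheta θ → 0 < s1 → 0 < s2 → 0 < C → 0 < ε → ∃ e : ℝ, 0 < e ∧ e < 1 ∧
  ∃ d0 : ℕ, ∀ d ≥ d0, ∀ σ σ' : ℝ, 0 < σ → 0 < σ' → s1 ≤ σ * d → σ * d ≤ s2 → s1 ≤ σ' * d → σ' * d ≤ s2 →
    |σ - σ'| ≤ C * Real.sqrt (Real.log d) * (d : ℝ) ^ (-(3 / 2) : ℝ) →
    (PP.prod PP).real {p | ((fun j => gs σ p.1 j), (fun j => gs σ' p.2 j)) ∈ FS d e} ≤ (d : ℝ) ^ (-θ + ε) ∧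
    (PP.prod PP).real {p | ((fun j => gs σ' p.1 j), (fun j => gs σ p.2 j)) ∈ FS d e} ≤ (d : ℝ) ^ (-θ + ε)

/-- **Inclusion of events for the upper bound** (deterministic, `L = ⌊d^{1-e}⌋ ≤ d, d'`). By `S_domnec` with
`k ∈ [x0, L/(log d)^8]`, `k ≤ L`: `(g_1-g'_1) + ∑_{2≤j≤L} min(j,k)(g_j-g'_j) + k((d-d') + ∑_{L<j≤d}g_j - ∑_{L<j≤d'}g'_j)
≥ 0` (`min(j,k) = k` for `j > L`), and with the opposite sign for `h, h'`. Outside the bad sets `(g,g') ∈ FS`,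
`(h',h) ∈ FS`. The total sizes are equal (`(toP d g h).sum = d² + ∑ (i+1)(g_i+h_i)`, `S_toPsum`). -/
def S_DUa : Prop := ∀ (d d' n : ℕ) (σ σ' e : ℝ), 3 ≤ d → 0 < e → e < 1 → ⌊(d : ℝ) ^ (1 - e)⌋₊ ≤ d' → 1 ≤ d' →
  ∀ q : ((ℕ → ℝ) × (ℕ → ℝ)) × ((ℕ → ℝ) × (ℕ → ℝ)),
    d ^ 2 + ∑ i : Fin d, ((i : ℕ) + 1) * (gF d σ q.1.1 i + gF d σ q.2.1 i) = n →
    d' ^ 2 + ∑ i : Fin d', ((i : ℕ) + 1) * (gF d' σ' q.1.2 i + gF d' σ' q.2.2 i) = n →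
    DomM (toP d' (gF d' σ' q.1.2) (gF d' σ' q.2.2)) (toP d (gF d σ q.1.1) (gF d σ q.2.1)) →
      q.1 ∈ BadS d d' σ σ' e ∨ q.2 ∈ BadS d d' σ σ' e ∨
      (((fun j => gs σ q.1.1 j), (fun j => gs σ' q.1.2 j)) ∈ FS d e ∧
        ((fun j => gs σ' q.2.2 j), (fun j => gs σ q.2.1 j)) ∈ FS d e)

/-- **Upper bound for one pair of Durfee sizes.** `σ, σ'` matched (`S_B1r`), `|σ-σ'| ≤ C'√(log d) d^{-3/2}` (`S_sigc`),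
both with `s1 ≤ σd, σ'd, σ'd' ≤ s2`. `S_Pr` and `S_cnta2`: `cntD/(cnt cnt') = Q4(event)/(a2 d σ (n-d²) a2 d' σ' (n-d'²))`,
denominators `≥ d^{-3/2-ε}` (`S_a2l` at the mean `2 mu d (σ/2) = n - d²`). Event ⊆ bad (`S_DU1`, `A = θ+9`) ∪ {sizes,
FS, FS} (`S_DUa`), the second set by `S_DU2` (`FS` depends on `2..L`, `F2` = swapped `FS`, `4L ≤ d, d'`) and `S_DU3`:
`≤ (C d^{-3/2})² d^{-2θ+2ε}·C`. `d ≤ √n`, `d ≥ c1√n`: `cntD ≤ n^{-θ+Cε} cnt cnt'`. -/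
def S_DU : Prop := ∀ θ c1 c2 C ε : ℝ, 0 ≤ θ → IsTheta θ → 0 < c1 → c1 < c2 → c2 < 1 → 0 < C → 0 < ε →
  ∃ n0 : ℕ, ∀ n ≥ n0, ∀ d d' : ℕ, c1 * Real.sqrt n ≤ d → (d : ℝ) ≤ c2 * Real.sqrt n →
    c1 * Real.sqrt n ≤ d' → (d' : ℝ) ≤ c2 * Real.sqrt n → |(d : ℝ) - d'| ≤ C * Real.sqrt (Real.sqrt n * Real.log n) →
    (cntD d d' n : ℝ) ≤ (n : ℝ) ^ (-θ + ε) * cnt d n * cnt d' n

/-- **Change of variables in the lower bound.** `S_Xg` with `N = d'` for `(g,g') = (gs σ q.1.1, gs σ q.1.2)` (second pair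
fixed, Fubini) and for `(h',h) = (gs σ q.2.2, gs σ q.2.1)` (swap): `X = g - g'`, `γ = min(g,g')`, `Y = h' - h`,
`γ' = min(h,h')`, so `g' = γ + max(0,-X)`, `h' = γ' + max(0,Y)`, `g + g' = |X| + 2γ`, `h + h' = |Y| + 2γ'`. In these
variables `E1` says: difference and sum of the two size equations hold (so both sizes are `n`; for `l > d` only
`g'_l, h'_l` are used, `sX` and `γ`-sums run over `l ≤ d`), and the conditions of `S_domsuf`: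
`k(d-d') + ∑_{l≤d} min(l,k)X_l - k∑_{l>d}g'_l ≥ 0`; `k(d-d') - ∑_{l≤d} min(l,k)Y_l - k∑_{l>d}h'_l ≤ 0` follow. -/
def S_DLa : Prop := ∀ (d d' n : ℕ) (σ : ℝ), 0 < σ → 1 ≤ d → d ≤ d' →
  Q4.real (E1 d d' n σ) ≤
    Q4.real {q | d ^ 2 + ∑ i : Fin d, ((i : ℕ) + 1) * (gF d σ q.1.1 i + gF d σ q.2.1 i) = n ∧
      d' ^ 2 + ∑ i : Fin d', ((i : ℕ) + 1) * (gF d' σ q.1.2 i + gF d' σ q.2.2 i) = n ∧
      DomM (toP d' (gF d' σ q.1.2) (gF d' σ q.2.2)) (toP d (gF d σ q.1.1) (gF d σ q.2.1))}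

/-- **Lower bound for the event `E1`.** The `eE, fE` for `d < l ≤ d'` depend on the coordinates in `(d,d']` only. Means
`E eE_l = E fE_l = 1/(e^{σl}-1) ≤ 1/s1` (or any bound `O(1)`: `gs (2σ) ω l ≤ |ω_l|/(2σl)`, `|geo| ≤ |ω_l|/(σl) + 1`,
`E|ω_l| = 1`), at most `C√d` terms: by Markov with probability `≥ 1/2`: `∑ eE ≤ C'√d`, `∑ l(eE+fE) ≤ C' d^{3/2}`
(`d' ≤ 2d` for large `d`). Fix such values (Fubini: coordinates `> d` fixed). `Θ := d'²-d²+∑ l(e_l+f_l) ∈ [0, C'' d^{3/2}]`,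
`(d'-d) + ∑ e_l ≤ C''√d`. `S_Q` with `C1 = C''` and `ε/2` gives `≥ d^{-2θ-3/2-ε/2}` for the conditions on `(X,Y)` and
`|sX - m1| ≤ √(ε' log d) d^{3/2}` for both (`ε'` small). Given `X, Y`: `m := (2n - d² - d'² - sX - sX' - ∑ l(e+f))/2` is an
integer (parity: `sX ≡ ∑ jX_j`, `∑ jX - ∑ jY = Θ`), and `|m - 2 mu d σ| ≤ √(ε'' log d) d^{3/2}` because
`2n - 2d² = 4 mu d (σ/2) = 2 m1 d σ + 4 mu d σ` (termwise identity `2e^{-x}/(1-e^{-x}) = 2e^{-x}/(1-e^{-2x}) +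
2e^{-2x}/(1-e^{-2x})`). So the probability of the last equation is `a2 d (2σ) m ≥ d^{-3/2-ε/4}` (`S_a2law`, `S_a2l` for
`2σ`: `mu d (2σ/2)`). -/
def S_DLb : Prop := ∀ θ s1 s2 C ε : ℝ, 0 ≤ θ → IsTheta θ → 0 < s1 → 0 < s2 → 0 < C → 0 < ε →
  ∃ d0 : ℕ, ∀ d ≥ d0, ∀ (d' n : ℕ) (σ : ℝ), 0 < σ → s1 ≤ σ * d → σ * d ≤ s2 → d ≤ d' →
    (d' : ℝ) - d ≤ C * Real.sqrt d → (d : ℝ) ^ 2 + 2 * mu d (σ / 2) = n →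
    (d : ℝ) ^ (-(2 * θ) - 3 - ε) ≤ Q4.real (E1 d d' n σ)

/-- **Lower bound for one pair of Durfee sizes `d ≤ d' ≤ d + n^{1/4}`.** Use the SAME `σ` (matched for `d`, `S_B1r`) for
all sequences. `S_Pr` (`σ' = σ`) and `cnt d n ≤ e^{σ(n-d²)} Zf² C d^{-3/2}` (`S_cnta2`, `S_a2u`; for `d'` with the same `σ`
too, `σd' ≤ 2s2`) reduce the claim to `Q4(sizes, DomM) ≥ d^{-2θ-3-ε}`: `S_DLa`, `S_DLb`. `n^{1/4} ≤ C√d`, `d ≤ √n`. -/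
def S_DL : Prop := ∀ θ c1 c2 ε : ℝ, 0 ≤ θ → IsTheta θ → 0 < c1 → c1 < c2 → c2 < 1 → 0 < ε →
  ∃ n0 : ℕ, ∀ n ≥ n0, ∀ d d' : ℕ, c1 * Real.sqrt n ≤ d → (d' : ℝ) ≤ c2 * Real.sqrt n → d ≤ d' →
    (d' : ℝ) - d ≤ (n : ℝ) ^ (1 / 4 : ℝ) →
    (n : ℝ) ^ (-θ - ε) * cnt d n * cnt d' n ≤ (cntD d d' n : ℝ)

/-- **Final statement.** `P = ∑_d cnt d n` = number of partitions (`S_Count`), `N = ∑ cntD` (`S_CountD`), `S_rc`. Upper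
bound: pairs with `d` or `d'` outside the typical sets of `S_A4r` and `S_Con` (`A = θ+1`) contribute
`≤ 2(e^{-κ√n} + n^{-A})P²` (`cntD ≤ cnt cnt'`), the others satisfy `|d-d'| ≤ 2C√(√n log n)`, use `S_DU`. Lower bound: the
typical `d` (mass `≥ P/2`) lie in an interval of length `2C√(√n log n)`, cut it into `K ≤ C'√(log n)` pieces of
length `≤ n^{1/4}`; one piece has mass `≥ P/(2K)`; the pairs `d ≤ d'` in this piece have mass `≥ ½(P/(2K))²`; use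
`S_DL`. Take logarithms. -/
def S_DFin : Prop := ∃ θ : ℝ, 0 ≤ θ ∧ IsTheta θ ∧
  Tendsto (fun n : ℕ => -Real.log (rcomp n) / Real.log n) atTop (𝓝 θ)

end Pool.Agent.H174.GP
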