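import Pool.Agent.H174.GP.All
import Pool.Agent.H174.GP.StD
import Pool.Agent.H174.GP.StE
import Pool.Agent.H772.GP174.rowsum
import Pool.Agent.H241.GP174.colsum
import Pool.Agent.H895.GP174.dual1
import Pool.Agent.H549.GP174.dual2
import Pool.Agent.H102.GP174.domnec
import Pool.Agent.H383.GP174.domsuf
import Pool.Agent.H734.GP174.CountD
import Pool.Agent.H658.GP174.rc
import Pool.Agent.H505.GP174.B1r
import Pool.Agent.H505.GP174.sigc
import Pool.Agent.H84.GP174.cnta2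
import Pool.Agent.H457.GP174.a2law
import Pool.Agent.H795.GP174.a2u
import Pool.Agent.H967.GP174.a2l
import Pool.Agent.H399.GP174.A4r
import Pool.Agent.H505.GP174.Conc
import Pool.Agent.H977.GP174.supJ
import Pool.Agent.H922.GP174.mgfg
import Pool.Agent.H947.GP174.Xg
import Pool.Agent.H116.GP174.tilt
import Pool.Agent.H314.GP174.Pr
import Pool.Agent.H996.GP174.PU2
import Pool.Agent.H234.GP174.crude2
import Pool.Agent.H675.GP174.PLs2
import Pool.Agent.H668.GP174.typs2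
import Pool.Agent.H225.GP174.flip
import Pool.Agent.H874.GP174.reflect
import Pool.Agent.H726.GP174.binlow
import Pool.Agent.H245.GP174.bits
import Pool.Agent.H729.GP174.mid2a
import Pool.Agent.H400.GP174.mid2b
import Pool.Agent.H928.GP174.IPc
import Pool.Agent.H588.GP174.mid2
import Pool.Agent.H17.GP174.QXb
import Pool.Agent.H860.GP174.QXa
import Pool.Agent.H407.GP174.QX
import Pool.Agent.H801.GP174.Q
import Pool.Agent.H539.GP174.DU1
import Pool.Agent.H32.GP174.DU2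
import Pool.Agent.H308.GP174.DU3
import Pool.Agent.H981.GP174.DUa
import Pool.Agent.H658.GP174.DU
import Pool.Agent.H124.GP174.DLa
import Pool.Agent.H725.GP174.DLb
import Pool.Agent.H707.GP174.DL
import Pool.Agent.H279.GP174.DFin

namespace Pool.Agent.H174.GP

theorem t_rowsum : S_rowsum := Pool.Agent.H772.GP174.gp_rowsum 
theorem t_colsum : S_colsum := Pool.Agent.H241.GP174.gp_colsum 
theorem t_dual1 : S_dual1 := Pool.Agent.H895.GP174.gp_dual1 
theorem t_dual2 : S_dual2 := Pool.Agent.H549.GP174.gp_dual2 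
theorem t_domnec : S_domnec := Pool.Agent.H102.GP174.gp_domnec t_rowsum t_colsum t_dual1
theorem t_domsuf : S_domsuf := Pool.Agent.H383.GP174.gp_domsuf t_rowsum t_colsum t_dual2
theorem t_CountD : S_CountD := Pool.Agent.H734.GP174.gp_countd t_toPsum t_toPinj t_toPsurj
theorem t_rc : S_rc := Pool.Agent.H658.GP174.gp_rc 
theorem t_B1r : S_B1r := Pool.Agent.H505.GP174.B1r.gp_b1r 
theorem t_sigc : S_sigc := Pool.Agent.H505.GP174.Sigc.gp_sigc 
theorem t_cnta2 : S_cnta2 := Pool.Agent.H84.GP174.gp_cnta2 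
theorem t_a2law : S_a2law := Pool.Agent.H457.GP174.gp_a2law t_aalaw
theorem t_a2u : S_a2u := Pool.Agent.H795.GP174.gp_a2u t_B4u t_aalaw
theorem t_a2l : S_a2l := Pool.Agent.H967.GP174.gp_a2l t_aalaw t_var2 t_L1 t_L3 t_B4l
theorem t_A4r : S_A4r := Pool.Agent.H399.GP174.gp_a4r t_cntle t_prod1 t_prod2 t_plow t_toPsum t_toPinj t_toPsurj
theorem t_Con : S_Con := Pool.Agent.H505.GP174.Conc.gp_con t_B1r t_cnta2 t_a2u t_a2l t_A4r t_cntle
theorem t_supJ : S_supJ := Pool.Agent.H977.GP174.gp_supj t_beta1 t_L3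
theorem t_mgfg : S_mgfg := Pool.Agent.H922.GP174.gp_mgfg t_L1 t_L3
theorem t_Xg : S_Xg := Pool.Agent.H947.GP174.gp_xg t_geolaw t_L3
theorem t_tilt : S_tilt := Pool.Agent.H116.GP174.gp_tilt t_mgfg t_chern t_L3
theorem t_Pr : S_Pr := Pool.Agent.H314.GP174.gp_pr t_L3
theorem t_PU2 : S_PU2 := Pool.Agent.H996.GP174.gp_pu2 t_L3 t_Tq t_float t_shiftC t_step t_harrisN
theorem t_crude2 : S_crude2 := Pool.Agent.H234.GP174.Crude2.gp_crude2 t_indep t_half t_cheb t_pz t_harrisN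
theorem t_PLs2 : S_PLs2 := Pool.Agent.H675.GP174.gp_pls2 t_big t_crude2 t_crude t_AdmGeo t_float t_shiftC t_half t_indep t_harrisN t_Tq t_L3
theorem t_typs2 : S_typs2 := Pool.Agent.H668.GP174.Typs2.gp_typs2 t_mgf t_chern t_Tqmean t_Tq
theorem t_flip : S_flip := Pool.Agent.H225.GP174.gp_flip t_Tq t_L3
theorem t_reflect : S_reflect := Pool.Agent.H874.GP174.gp_reflect 
theorem t_binlow : S_binlow := Pool.Agent.H726.GP174.gp_binlow t_bin2
theorem t_bits : S_bits := Pool.Agent.H245.GP174.gp_bits t_reflect t_binlow t_L3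
theorem t_mid2a : S_mid2a := Pool.Agent.H729.GP174.gp_mid2a t_AdmGeo t_pz t_indep t_Tq
theorem t_mid2b : S_mid2b := Pool.Agent.H400.GP174.gp_mid2b t_AdmGeo t_cheb t_flip t_Tq t_L3
theorem t_IPc : S_IPc := Pool.Agent.H928.GP174.gp_ipc t_Tqlaw t_L3 t_indep
theorem t_mid2 : S_mid2 := Pool.Agent.H588.GP174.gp_mid2 t_mid2a t_mid2b t_IPc t_var2 t_Tqmean t_AdmGeo t_Tq
theorem t_QXb : S_QXb := Pool.Agent.H17.GP174.gp_qxb t_typs2 t_mid2 t_PLs2 t_bits t_Tqlaw t_Tq t_indep t_L3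
theorem t_QXa : S_QXa := Pool.Agent.H860.GP174.gp_qxa t_Tq
theorem t_QX : S_QX := Pool.Agent.H407.GP174.gp_qx t_QXa t_QXb t_flip
theorem t_Q : S_Q := Pool.Agent.H801.GP174.gp_q t_QX
theorem t_DU1 : S_DU1 := Pool.Agent.H539.GP174.gp_du1 t_sigc t_mgfg t_chern t_L3
theorem t_DU2 : S_DU2 := Pool.Agent.H32.GP174.DU2.gp_du2 t_supJ t_L3
theorem t_DU3 : S_DU3 := Pool.Agent.H308.GP174.gp_du3 t_tilt t_Xg t_PU2
theorem t_DUa : S_DUa := Pool.Agent.H981.GP174.gp_dua t_domnec t_toPsum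
theorem t_DU : S_DU := Pool.Agent.H658.GP174.gp_du t_B1r t_sigc t_Pr t_cnta2 t_a2l t_DUa t_DU1 t_DU2 t_DU3
theorem t_DLa : S_DLa := Pool.Agent.H174.GP.gp_dla t_Xg t_domsuf t_toPsum t_L3 t_geolaw
theorem t_DLb : S_DLb := Pool.Agent.H725.GP174.gp_dlb t_Q t_a2law t_a2l t_L3 t_geolaw t_Tq
theorem t_DL : S_DL := Pool.Agent.H707.GP174.gp_dl t_B1r t_Pr t_cnta2 t_a2u t_DLa t_DLb
theorem t_DFin : S_DFin := Pool.Agent.H279.GP174.gp_dfin t_rc t_CountD t_Count t_A4r t_Con t_DU t_DL t_theta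

end Pool.Agent.H174.GP
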