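import Pool.Agent.H174.GP.StP
import Pool.Agent.H174.GP.StB

open MeasureTheory ProbabilityTheory Finset Filter Topology

namespace Pool.Agent.H174.GP

/-- Law of a sequence of independent standard normal variables. -/
noncomputable def GA : Measure (ℕ → ℝ) := Measure.infinitePi (fun _ : ℕ => gaussianReal 0 1)

instance : IsProbabilityMeasure GA := by unfold GA; infer_instance

/-- Persistence probability of the Gaussian process `∑_{j≤L} min(j,x) N_j / j`. -/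
noncomputable def vG (L : ℕ) : ℝ :=
  GA.real {z | ∀ x ∈ Finset.Icc 1 L, 0 ≤ Ch z L x}

/-- Normalised sums over blocks of length `K` of the Laplace sequence (variance 1), `i ≥ 1`. -/
noncomputable def Wb (K : ℕ) (ω : ℕ → ℝ) (i : ℕ) : ℝ :=
  (S ω (K * i) - S ω (K * (i - 1))) / Real.sqrt (2 * K)

/-- **Quantile map from Laplace to normal.** `F(x) = lap (Iic x)` and `Φ(y) = gaussianReal 0 1 (Iic y)` are strictly
increasing, continuous, with limits `0` and `1`, and `F(-x) = 1 - F(x)`, same for `Φ`. `G = Φ⁻¹ ∘ F`;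
`lap {G ≤ y} = lap {F ≤ Φ(y)} = Φ(y)`. -/
def S_Gmap : Prop := ∃ G : ℝ → ℝ, Monotone G ∧ (∀ x, G (-x) = - G x) ∧ Measurable G ∧
  Measure.map G lap = gaussianReal 0 1

/-- **The sequence `G(ω_j)`** is a sequence of independent standard normals (`Measure.eq_infinitePi`, boxes). -/
def S_GPP : Prop := ∀ G : ℝ → ℝ, Measurable G → Measure.map G lap = gaussianReal 0 1 →
  Measure.map (fun (ω : ℕ → ℝ) (j : ℕ) => G (ω j)) PP = GA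

/-- **The Gaussian process is admissible.** `∫ G² dlap = ∫ y² dN(0,1) = 1`, fourth moment finite
(`memLp_id_gaussianReal`). -/
def S_AdmG : Prop := ∀ G : ℝ → ℝ, Monotone G → (∀ x, G (-x) = - G x) → Measurable G →
  Measure.map G lap = gaussianReal 0 1 → ∃ κ : ℝ, 0 < κ ∧ ∀ L : ℕ, Adm (fun j x => G x / (j : ℝ)) 1 L 1 1 κ

/-- **Harris inequality and crude bounds for the Gaussian process.** With `z_j = G(ω_j)` (`S_Gmap`, `S_GPP`) the events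
`{∀ x ∈ X, 0 ≤ Ch z L x}` are increasing events of `ω` depending on `1..L`; `S_harrisN` and `S_crude` (with `S_AdmG`)
for `[1,a]`: `P(∀x∈[1,a]) ≥ c a^{-κ1}`. Second claim: `[1,L]`. -/
def S_gstep : Prop := ∃ c : ℝ, 0 < c ∧ ∃ κ1 : ℝ, 0 < κ1 ∧
  (∀ a L : ℕ, 1 ≤ a → a ≤ L →
    c * (a : ℝ) ^ (-κ1) * GA.real {z | ∀ x ∈ Finset.Icc a L, 0 ≤ Ch z L x} ≤ vG L) ∧
  (∀ L : ℕ, 1 ≤ L → c * (L : ℝ) ^ (-κ1) ≤ vG L)

/-- **Deterministic comparison.** `S_abel` for both sequences: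
`|√2 Ch z n x - Ch ω' n x| ≤ ∑_{j=x}^{n-1} x/(j(j+1)) D j^{1/4} + (x/n) D n^{1/4} ≤ D(x^{-3/4} + (4/3)x^{1/4} + x^{1/4})
≤ 4 D x^{1/4}` (as in `S_cdet`, Pool.Agent.H981.GP174.cdet). -/
def S_wdet : Prop := ∀ (n x0 : ℕ) (z ω' : ℕ → ℝ) (D : ℝ), 1 ≤ x0 → 0 < D →
  (∀ i ∈ Finset.Icc x0 n, |Real.sqrt 2 * S z i - S ω' i| ≤ D * (i : ℝ) ^ (1 / 4 : ℝ)) →
  ∀ x ∈ Finset.Icc x0 n, |Real.sqrt 2 * Ch z n x - Ch ω' n x| ≤ 4 * D * (x : ℝ) ^ (1 / 4 : ℝ)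

/-- **Coupling of the two coarse sequences** (part (a), (b) of the proof of `S_coarse`, Pool.Agent.H86.GP174.coarse):
`√K S (Z K p) i = S p.1 (τ_i)`, `|τ_i - Ki| < K√i l` off an event of probability `≤ 2e^{1/4}e^{-l/2}` (`S_tautail`), and
then `|S_{Ki} - S_{τ_i}| ≤ √K 8 l^{3/2} i^{1/4}` off an event of probability `≤ 4e^{1/2}e^{-l}·2` (`S_Stail`). -/
def S_couple : Prop := ∀ (K n : ℕ) (A : ℝ), 1 ≤ K → 2 ≤ n → 0 ≤ A → 1 ≤ 2 * (A + 1) * Real.log n →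
  (PP.prod (GG K)).real {p | ∃ i ∈ Finset.Icc 1 n,
    Real.sqrt K * (8 * (2 * (A + 1) * Real.log n) ^ (3 / 2 : ℝ) * (i : ℝ) ^ (1 / 4 : ℝ)) <
      |S p.1 (K * i) - Real.sqrt K * S (fun j => Z K p j) i|} ≤ 40 * (n : ℝ) ^ (-A)

/-- **Comparison of the Laplace process with the block process.** On `PP.prod (GG K)`: `ω' = Z K p` has law `PP`
(`S_Zmp`), `Wb K p.1` is the block sequence, `√2 S (Wb K ω) i = S ω (Ki)/√K`. Off the event of `S_couple`, with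
`l = 2(A+1) log n`, `D = 8 l^{3/2}`: `|√2 S (Wb) i - S ω' i| ≤ D i^{1/4}`, so by `S_wdet`
`|√2 Ch (Wb) n x - Ch ω' n x| ≤ 32 l^{3/2} x^{1/4}`, and `34 l^{3/2} x^{1/4} ≤ δ√x` for `x ≥ x0`. -/
def S_gcmp : Prop := ∀ (K n x0 : ℕ) (A δ : ℝ), 1 ≤ K → 2 ≤ n → 1 ≤ x0 → 0 ≤ A → 0 < δ →
  1 ≤ 2 * (A + 1) * Real.log n → (41 * (2 * (A + 1) * Real.log n) ^ (3 / 2 : ℝ) / δ) ^ 4 ≤ x0 →
  PP.real {ω | ∀ x ∈ Finset.Icc x0 n, δ * Real.sqrt x ≤ Ch ω n x}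
    ≤ PP.real {ω | ∀ x ∈ Finset.Icc x0 n, 0 ≤ Ch (Wb K ω) n x} + 40 * (n : ℝ) ^ (-A) ∧
  PP.real {ω | ∀ x ∈ Finset.Icc x0 n, -1 < Ch (Wb K ω) n x}
    ≤ PP.real {ω | ∀ x ∈ Finset.Icc x0 n, -(δ * Real.sqrt x) ≤ Ch ω n x} + 40 * (n : ℝ) ^ (-A)

/-- **Central limit theorem for the block sequence.** `(Wb K ω i)_{1≤i≤n}` are independent, each has the law of
`(2K)^{-1/2} S ω K`, converging to `N(0,1)` (`tendstoInDistribution_inv_sqrt_mul_sum`, or characteristic functions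
`(1/(1+t²/(2K)))^K → e^{-t²/2}` with `ProbabilityMeasure.tendsto_iff_tendsto_charFun` on `EuclideanSpace`). So the
vectors converge in distribution; portmanteau for the closed set `{∀x, 0 ≤ Ch z n x}` and the open set
`{∀x, -1 < Ch z n x}` (functions of `z_1..z_n`). Any `K` large enough works. -/
def S_clt : Prop := ∀ (n x0 : ℕ) (η : ℝ), 0 < η → ∃ K : ℕ, 1 ≤ K ∧
  PP.real {ω | ∀ x ∈ Finset.Icc x0 n, 0 ≤ Ch (Wb K ω) n x}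
    ≤ GA.real {z | ∀ x ∈ Finset.Icc x0 n, 0 ≤ Ch z n x} + η ∧
  GA.real {z | ∀ x ∈ Finset.Icc x0 n, -1 < Ch z n x}
    ≤ PP.real {ω | ∀ x ∈ Finset.Icc x0 n, -1 < Ch (Wb K ω) n x} + η

/-- **The Gaussian process has the same exponent.** Let `0 < ε ≤ 1`, `δ = ε/4`, `A` large (`> (θ+1)·4 + κ1·4 + 4`),
`l = 2(A+1) log n`, `x0 = ⌈(41 l^{3/2}/δ)^4⌉ = O((log n)^6)`. `S_gcmp`, `S_clt` with `η = n^{-A}`:
(I) `PP{∀x∈[x0,n], δ√x ≤ Ch} ≤ GA{∀x∈[x0,n], 0 ≤ Ch} + 41 n^{-A}`;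
(II) `GA{∀x∈[x0,n], 0 ≤ Ch} ≤ GA{-1 < Ch} ≤ PP{∀x∈[x0,n], -δ√x ≤ Ch} + 41 n^{-A}`.
Lower bound for `vG`: `S_shiftC` (`t = 0`, `X = [1,n]`): `(uu n)^{1+ε} e^{-(4/ε)δ²(1+log n)} ≤ PP{∀x∈[1,n], δ√x ≤ Ch}`, so
(I) and `S_gstep` give `vG n ≥ c x0^{-κ1}(n^{-(θ+ε)(1+ε)-ε}·c - 41n^{-A})`. Upper bound: (II), `S_shiftC` with
`t x = -δ√x`, `X = [x0,n]`: `(PP{-δ√x ≤ Ch})^{1+ε} e^{-..} ≤ PP{∀x∈[x0,n], 0 ≤ Ch}`, and by Harris (`S_harrisN`) and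
`S_step`: `uu n ≥ PP{∀x∈[1,x0], 0≤Ch ω n x} PP{∀x∈[x0,n], 0≤Ch} ≥ c x0^{-κ1} PP{∀x∈[x0,n], 0≤Ch}`. So
`(vG n - 41 n^{-A})^{1+ε} ≤ n^{-θ+Cε}`; `vG n ≥ c n^{-κ1}` (`S_gstep`) absorbs `41n^{-A}`. Let `ε → 0`. -/
def S_gtheta : Prop := ∀ θ : ℝ, IsTheta θ →
  Tendsto (fun L : ℕ => -Real.log (vG L) / Real.log L) atTop (𝓝 θ)

/-- **Sparre Andersen.** `a_n = PP{∀ j∈[1,n], 0 ≤ S ω j}`. Decompose at the first index `m ∈ [0,n]` where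
`max_{0≤j≤n} S_j` is attained: by time reversal and symmetry (`lap` symmetric, no atoms: strict = weak a.s.)
`P(m) = a_m a_{n-m}`, so `∑_m a_m a_{n-m} = 1` and `a_n = C(2n,n)/4^n` (same recursion for the central binomial
coefficients), and `C(2n,n)/4^n ≥ 1/(2√n)` by induction (`n ≥ 1`). -/
def S_sparre : Prop := ∀ n : ℕ,
  1 / (2 * Real.sqrt (n + 1)) ≤ PP.real {ω | ∀ j ∈ Finset.Icc 1 n, 0 ≤ S ω j}

/-- **Upper bound `θ ≤ 1/2`.** By `S_abel` `Ch ω L y` is a nonnegative combination of the `S ω j`, `j ≥ y`, so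
`uu L ≥ PP{∀ j∈[1,L], 0 ≤ S ω j} ≥ 1/(2√(L+1))`. -/
def S_thhalf : Prop := ∀ θ : ℝ, IsTheta θ → θ ≤ 1 / 2

/-- **Deterministic part of `θ > 0`.** `M ≥ 4`, `u_k = M^{-k/2} ∑_{M^{k-1}<j≤M^k} ω_j` (`k ≥ 1`), `u_0 = ω_1`,
`v_k = M^{(k-1)/2} ∑_{M^{k-1}<j≤M^k} ω_j/j`, and `v_{m+1}` the same with the last block `(M^m, L]`. For `1 ≤ i ≤ m`:
`Ch ω L (M^i)/M^{i/2} = ∑_{k≤i} M^{-(i-k)/2} u_k + ∑_{k>i} M^{-(k-1-i)/2} v_k`. If all these are `≥ 0`, then for every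
`i` with `u_i < -1/2` and `v_{i+1} < -1/2` the rest `R_i` is `≥ 1`; and `∑_i R_i ≤ (2/√M) ∑_k (|u_k|+|v_k|)` because
`∑_{r≥1} M^{-r/2} = 1/(√M-1) ≤ 2/√M`. (`uk`, `vk` below.) -/
noncomputable def uk (M : ℕ) (ω : ℕ → ℝ) (k : ℕ) : ℝ :=
  if k = 0 then ω 1 else (∑ j ∈ Finset.Ioc (M ^ (k - 1)) (M ^ k), ω j) / Real.sqrt ((M : ℝ) ^ k)

/-- See `uk`; the blocks are cut at `L`. -/
noncomputable def vk (M L : ℕ) (ω : ℕ → ℝ) (k : ℕ) : ℝ :=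
  Real.sqrt ((M : ℝ) ^ (k - 1)) * ∑ j ∈ Finset.Ioc (M ^ (k - 1)) (min (M ^ k) L), ω j / (j : ℝ)

/-- See the doc comment of `uk`. Here `M^m ≤ L ≤ M^(m+1)`. -/
def S_thdet : Prop := ∀ (M m L : ℕ) (ω : ℕ → ℝ), 4 ≤ M → 1 ≤ m → M ^ m ≤ L → L ≤ M ^ (m + 1) →
  (∀ i ∈ Finset.Icc 1 m, 0 ≤ Ch ω L (M ^ i)) →
  (((Finset.Icc 1 m).filter (fun i => uk M ω i < -(1 / 2) ∧ vk M L ω (i + 1) < -(1 / 2))).card : ℝ)
    ≤ 2 / Real.sqrt M * ∑ k ∈ Finset.range (m + 2), (|uk M ω k| + |vk M L ω (k + 1)|)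

/-- **Positivity of the exponent.** `P(u_i < -1/2, v_{i+1} < -1/2) ≥ p0 > 0` for `1 ≤ i < m` (independent blocks,
`S_pz` and symmetry, variances in `[1,2]`, fourth moments bounded; constants independent of `M`), independent for
even `i`: `P(#{even i} ≤ p0 m/8) ≤ e^{-cm}` (Chernoff). Exponential moments `E e^{λ|u_k|}, E e^{λ|v_k|} ≤ C` for a fixed
small `λ` (`E e^{sω} = 1/(1-s²) ≤ e^{2s²}`), independence over `k`, Cauchy–Schwarz: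
`P((2/√M)∑(|u_k|+|v_k|) ≥ p0 m/8) ≤ e^{-λ p0 m √M/32} C^{2m+4} ≤ e^{-m}` for `M` large. So by `S_thdet`
`uu L ≤ e^{-c'm}`, `m = ⌊log L/log M⌋`, and `θ ≥ c'/log M > 0`. -/
def S_thpos : Prop := ∀ θ : ℝ, IsTheta θ → 0 < θ

end Pool.Agent.H174.GP
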