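import Pool.Agent.H174.GP.StG

open MeasureTheory ProbabilityTheory Finset Filter Topology

namespace Pool.Agent.H174.GP

/-- Integrated walk. -/
noncomputable def Iw (ω : ℕ → ℝ) (k : ℕ) : ℝ := ∑ j ∈ Finset.Icc 1 k, S ω j

/-- `∑_{u≤x} S_u/u`. -/
noncomputable def Hw (ω : ℕ → ℝ) (x : ℕ) : ℝ := ∑ u ∈ Finset.Icc 1 x, S ω u / (u : ℝ)

/-- Persistence probability of the integrated Laplace walk. -/
noncomputable def aI (k : ℕ) : ℝ := PP.real {ω | ∀ j ∈ Finset.Icc 1 k, 0 ≤ Iw ω j}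

/-- The same with a perturbation. -/
noncomputable def aP (k : ℕ) (B : ℝ) : ℝ := PP.real {ω | ∀ j ∈ Finset.Icc 1 k, -(((j : ℝ) + 1) * B) ≤ Iw ω j}

/-- All partial sums backwards from `m` of the walk are nonnegative, and `0 ≤ S_m ≤ B`. -/
noncomputable def bI (m : ℕ) (B : ℝ) : ℝ :=
  PP.real {ω | 0 ≤ S ω m ∧ S ω m ≤ B ∧ ∀ k ∈ Finset.Icc 1 m, 0 ≤ ∑ j ∈ Finset.Ioc (m - k) m, S ω j}

/-- The process `Hw` after the Helmert transformation. -/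
noncomputable def Hz (z : ℕ → ℝ) (n x : ℕ) : ℝ :=
  (∑ j ∈ Finset.Icc 1 (n - 1), ((min j x : ℕ) : ℝ) * (z j / Real.sqrt ((j : ℝ) * ((j : ℝ) + 1)))) +
    (x : ℝ) * (z n / Real.sqrt n)

/-- **Concentration function.** `e^{-x²/2} = ∫ e^{itx} dN(0,1)(t)` (characteristic function of the standard normal), so
`E e^{-(Y-c)²/2} ≤ (2π)^{-1/2} ∫ |φ_Y(t)| dt`, and for `Y = S_{a+N}-S_a`: `φ_Y(t) = (1+t²)^{-N} ≤ 1/(1+Nt²)`, integral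
`π/√N`. So `P(y ≤ Y ≤ y+1) ≤ e^{1/8}·π/√(2πN)` (`c = y + 1/2`); cover `[y,y+l]` by `⌈l⌉+1` unit intervals. (Or: the density
of `Y` is at most `1/(2√N)·C`.) -/
def S_conc : Prop := ∃ C : ℝ, 0 < C ∧ ∀ (a N : ℕ) (y l : ℝ), 1 ≤ N → 0 ≤ l →
  PP.real {ω | y ≤ S ω (a + N) - S ω a ∧ S ω (a + N) - S ω a ≤ y + l} ≤ C * (1 + l) / Real.sqrt N

/-- **Decomposition at the maximum of the integrated walk.** `I_0 = 0`, `I_k = Iw ω k`; let `m ∈ [0,n]` be the first index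
of the maximum of `I_0..I_n`. `m = n`: then `S_n > 0`, probability `≤ 1/2`. `m = 0`: `I_j ≤ 0` for all `j ≤ n`, probability
`aI n` (symmetry). `1 ≤ m < n`: backwards `I_m - I_{m-k} = ∑_{m-k<j≤m} S_j > 0`; `S_m > 0`; `S_{m+1} ≤ 0`, so
`0 < S_m ≤ |ω_{m+1}|`; forwards `I_{m+k} - I_m = k S_m + ∑_{j≤k}(S_{m+j}-S_m) ≤ 0`, so `∑_{j≤k}(S_{m+j}-S_m) ≤ 0` for
`k ≤ n-m`, an event independent of `ω_1..ω_m`, with probability `aI (n-m)` (shift and symmetry). Off the event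
`∃ j ∈ [1,n], |ω_j| > B` we have `S_m ≤ B`. -/
def S_argmax : Prop := ∀ (n : ℕ) (B : ℝ), 1 ≤ n → 0 ≤ B →
  1 / 2 ≤ n * PP.real {ω | B < |ω 1|} + aI n + ∑ m ∈ Finset.Ico 1 n, bI m B * aI (n - m)

/-- **Time reversal.** `ω'_i = -ω_{m+1-i}` (`1 ≤ i ≤ m`), same law. `S'_i = S_{m-i} - S_m`, `S'_m = -S_m ∈ [-B,0]`,
`∑_{m-k<j≤m} S_j = k S_m + I'_{k-1} ≥ 0`, so `I'_j ≥ -(j+1)B` for `1 ≤ j ≤ m-1`. Keep `j ≤ ⌊m/2⌋` (coordinates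
`≤ ⌊m/2⌋`), then `S'_m ∈ [-B,0]` has conditional probability `≤ C(1+B)/√(m-⌊m/2⌋)` (`S_conc`, independence, Fubini). -/
def S_bback : Prop := ∃ C : ℝ, 0 < C ∧ ∀ (m : ℕ) (B : ℝ), 1 ≤ m → 0 ≤ B →
  bI m B ≤ C * (1 + B) / Real.sqrt m * aP (m / 2) B

/-- **From the integrated walk to `Hw`.** `Hw ω x = I_x/x + ∑_{u<x} I_u/(u(u+1)) ≥ -2B - B(1+log x)`. -/
def S_IH : Prop := ∀ (m : ℕ) (ω : ℕ → ℝ) (B : ℝ), 0 ≤ B →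
  (∀ j ∈ Finset.Icc 1 m, -(((j : ℝ) + 1) * B) ≤ Iw ω j) →
  ∀ x ∈ Finset.Icc 1 m, -(4 * B * (1 + Real.log x)) ≤ Hw ω x

/-- **Deterministic comparison for `Hw`**: `∑_{u≤x} u^{-3/4} ≤ 4 x^{1/4}`. -/
def S_Hdet : Prop := ∀ (n : ℕ) (z ω' : ℕ → ℝ) (D : ℝ), 0 < D →
  (∀ i ∈ Finset.Icc 1 n, |Real.sqrt 2 * S z i - S ω' i| ≤ D * (i : ℝ) ^ (1 / 4 : ℝ)) →
  ∀ x ∈ Finset.Icc 1 n, |Real.sqrt 2 * Hw z x - Hw ω' x| ≤ 4 * D * (x : ℝ) ^ (1 / 4 : ℝ)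

/-- **Comparison of `Hw` for the Laplace walk and the block walk** (as `S_gcmp`): `S_Zmp`, `S_couple`, `S_Hdet` with
`D = 8 l^{3/2}`, `l = 2(A+1) log n`. -/
def S_Hcmp : Prop := ∀ (K n : ℕ) (A : ℝ) (X : Finset ℕ) (t : ℕ → ℝ), 1 ≤ K → 2 ≤ n → 0 ≤ A →
  1 ≤ 2 * (A + 1) * Real.log n → X ⊆ Finset.Icc 1 n →
  PP.real {ω | ∀ x ∈ X, -(t x) ≤ Hw ω x}
    ≤ PP.real {ω | ∀ x ∈ X, -(t x + 32 * (2 * (A + 1) * Real.log n) ^ (3 / 2 : ℝ) * (x : ℝ) ^ (1 / 4 : ℝ))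
      ≤ Real.sqrt 2 * Hw (Wb K ω) x} + 40 * (n : ℝ) ^ (-A)

/-- **Central limit theorem for closed sets** (as `S_clt`, Pool.Agent.H21.GP174.clt). For open sets use complements. -/
def S_cltg : Prop := ∀ (n : ℕ) (F : Set (ℕ → ℝ)) (η : ℝ), IsClosed F → DepOn (Finset.Icc 1 n) F → 0 < η →
  ∃ K0 : ℕ, ∀ K ≥ K0, PP.real {ω | Wb K ω ∈ F} ≤ GA.real F + η

/-- **Helmert transformation.** For a standard normal sequence `z`, `M_j = (S_j - j z_{j+1})/√(j(j+1))`, `1 ≤ j < n`, and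
`M_n = S_n/√n` are again independent standard normal (the transformation of `ℝ^n` is orthogonal), and
`S_u/u = ∑_{j=u}^{n-1} M_j/√(j(j+1)) + M_n/√n` (telescoping: `S_j/j - S_{j+1}/(j+1) = (S_j - j z_{j+1})/(j(j+1))`), so
`Hw z x = Hz M n x` for `x ≤ n`. Rotation invariance: characteristic function of a linear image of the Gaussian law on
`Fin n → ℝ` (or `EuclideanSpace`), with the orthonormality of the rows. -/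
def S_helm : Prop := ∀ (n : ℕ) (X : Finset ℕ) (t : ℕ → ℝ), 1 ≤ n → X ⊆ Finset.Icc 1 n →
  GA.real {z | ∀ x ∈ X, t x ≤ Hw z x} = GA.real {z | ∀ x ∈ X, t x ≤ Hz z n x}

/-- **`Hz` is close to `Ch`.** `|1/√(j(j+1)) - 1/j| ≤ 1/(2j²)`, `∑_j min(j,x)/(2j²) ≤ 1 + log x`. -/
def S_H2 : Prop := ∀ (n : ℕ) (z : ℕ → ℝ) (a : ℝ), 1 ≤ n → 0 ≤ a → (∀ j ∈ Finset.Icc 1 n, |z j| ≤ a) →
  ∀ x ∈ Finset.Icc 1 n, |Hz z n x - Ch z n x| ≤ a * (1 + Real.log x) + 2 * a * x / Real.sqrt n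

/-- **Gaussian tail**: `P(|z_j| > a) ≤ 2e^{-a²/2} ≤ 4e^{-a}`, union bound. -/
def S_gmax : Prop := ∀ (n : ℕ) (a : ℝ), 0 ≤ a →
  GA.real {z | ∃ j ∈ Finset.Icc 1 n, a < |z j|} ≤ 4 * n * Real.exp (-a)

/-- **From the Gaussian to the Laplace process with general thresholds.** `{∀ x ∈ X, -t x ≤ Ch z n x}` is contained in the
open set `{∀ x ∈ X, -(t x) - 1 < Ch z n x}`; `S_cltg` for its complement, then `S_Zmp`, `S_couple`, `S_wdet` (`x0 = 1`) as in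
`S_gcmp` (Pool.Agent.H824.GP174.gcmp). -/
def S_gcmp2 : Prop := ∀ (n : ℕ) (A : ℝ) (X : Finset ℕ) (t : ℕ → ℝ), 2 ≤ n → 0 ≤ A →
  1 ≤ 2 * (A + 1) * Real.log n → X ⊆ Finset.Icc 1 n →
  GA.real {z | ∀ x ∈ X, -(t x) ≤ Ch z n x}
    ≤ PP.real {ω | ∀ x ∈ X, -(Real.sqrt 2 * (t x + 1) +
      32 * (2 * (A + 1) * Real.log n) ^ (3 / 2 : ℝ) * (x : ℝ) ^ (1 / 4 : ℝ)) ≤ Ch ω n x} + 41 * (n : ℝ) ^ (-A)

/-- **Comparison of the integrated walk with the process `Ch`.** Let `B = C log n`, `n^ε ≤ m ≤ n` (so `log n ≤ log m/ε`),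
`A` large, `a = (A+2) log m + 2`. With `l = 2(A+1) log m`: `aP m B ≤ PP{∀x∈[1,m], -4B(1+log x) ≤ Hw ω x}` (`S_IH`)
`≤ GA{∀x∈[1,m], -(4B(1+log m) + 32l^{3/2}x^{1/4})/√2 ≤ Hw z x} + 41 m^{-A}` (`S_Hcmp`, `S_cltg` with `η = m^{-A}`), replace `Hw`
by `Hz` (`S_helm`), by `Ch` (`S_H2`, `S_gmax`; error `≤ a(1+log m) + 2ax/√m`), then `S_gcmp2`: altogether
`≤ PP{∀x∈[1,m], -t x ≤ Ch ω m x} + 90 m^{-A}`, `t x ≤ C' (log m)^2 (x^{1/4} + x/√m)`. Let `b = ⌊m^{1-ε2}⌋`,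
`x0 = ⌈(log m)^9⌉`; for `x ∈ [x0,b]`: `t x ≤ δ√x` for large `m`. `S_shiftC` (`X = [x0,b]`, `L = m`):
`(PP{∀x∈[x0,b], -δ√x ≤ Ch})^{1+ε3} e^{-(4/ε3)δ²(1+log m)} ≤ PP{∀x∈[x0,b], 0 ≤ Ch ω m x}`, and by Harris (`S_harrisN`) and
`S_step`: `uu m ≥ c x0^{-κ1}·c (b/m)^{κ1}·PP{∀x∈[x0,b], 0 ≤ Ch ω m x}`. Together
`aP m B ≤ m^{-θ+ε}` if `ε2, ε3, δ` are small and `m` large. -/
def S_chain : Prop := ∀ θ : ℝ, IsTheta θ → ∀ ε C : ℝ, 0 < ε → 0 < C → ∃ n0 : ℕ, ∀ n ≥ n0, ∀ m : ℕ,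
  (n : ℝ) ^ ε ≤ m → m ≤ n → aP m (C * Real.log n) ≤ (m : ℝ) ^ (-θ + ε)

/-- **Upper bound `θ ≤ 1/4`.** Suppose `θ > 1/4`, choose `1/4 < θ' < min(θ, 1/2)` and `ε < θ-θ'` small. `B = 4 log n`:
`n P(|ω_1| > B) = n^{-3}`. `aI k ≤ aP k B ≤ k^{-θ'}` for `k ≥ n^ε`, else `≤ 1`. In `S_argmax` with `S_bback` the sum is
`≤ C(1+B) ∑_{m<n} m^{-1/2} aP(m/2) aI(n-m)`. Terms `m < 2n^ε+2`: `≤ C n^{ε/2+..} (n/2)^{-θ'} → 0`; terms `n-m < n^ε`: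
`≤ n^ε (n/2)^{-1/2} (n/4)^{-θ'} → 0`; the others `≤ C(1+B) ∑ m^{-1/2-θ'}(n-m)^{-θ'}·2^{θ'} ≤ C' log n·n^{1/2-2θ'} → 0` (split
at `n/2`). Contradiction to `≥ 1/2`. -/
def S_thq : Prop := ∀ θ : ℝ, IsTheta θ → θ ≤ 1 / 4

end Pool.Agent.H174.GP
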