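import Pool.Agent.H174.GP.StH

open MeasureTheory ProbabilityTheory Finset Filter Topology

namespace Pool.Agent.H174.GP

/-- Persistence probability of the integrated Gaussian walk. -/
noncomputable def aG (n : ℕ) : ℝ := GA.real {z | ∀ j ∈ Finset.Icc 1 n, 0 ≤ Iw z j}

/-- Coefficient of `z_j` in `Hw z x`. -/
noncomputable def cH (x j : ℕ) : ℝ := ∑ u ∈ Finset.Icc j x, 1 / (u : ℝ)

/-- Coefficient of `z_j` in `Iw z w`. -/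
noncomputable def cI (w j : ℕ) : ℝ := if j ≤ w then (w : ℝ) - j + 1 else 0

/-- Grid points `⌈(1+h)^i⌉`. -/
noncomputable def Wg (h : ℝ) (i : ℕ) : ℕ := ⌈(1 + h) ^ i⌉₊

/-- **Coefficients** (interchange the sums). -/
def S_coef : Prop := ∀ (n x : ℕ) (z : ℕ → ℝ), x ≤ n →
  Hw z x = ∑ j ∈ Finset.Icc 1 n, cH x j * z j ∧ Iw z x = ∑ j ∈ Finset.Icc 1 n, cI x j * z j

/-- **Independence of disjoint blocks under `GA`** (as `S_indep`, or from it by `S_Gmap`, `S_GPP`). -/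
def S_gindep : Prop := ∀ (I J : Finset ℕ) (F G : Set (ℕ → ℝ)), Disjoint I J → MeasurableSet F →
  MeasurableSet G → DepOn I F → DepOn J G → GA.real (F ∩ G) = GA.real F * GA.real G

/-- **Harris inequality for `GA`** (from `S_harrisN` by `S_Gmap`, `S_GPP`: preimages of upper sets under the monotone map
`ω ↦ (G(ω_j))_j` are upper sets). -/
def S_gharris : Prop := ∀ (I : Finset ℕ) (s : Finset ℕ) (F : ℕ → Set (ℕ → ℝ)),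
  (∀ i ∈ s, MeasurableSet (F i)) → (∀ i ∈ s, DepOn I (F i)) → (∀ i ∈ s, IsUpperSet (F i)) →
    ∏ i ∈ s, GA.real (F i) ≤ GA.real (⋂ i ∈ s, F i)

/-- **Maximal inequality for the Gaussian walk.** Lévy (`S_levy` with `φ = G`, or directly) and the Gaussian tail
`P(|S_b - S_a| ≥ t) ≤ 2 exp(-t²/(2(b-a)))`. -/
def S_gmaxS : Prop := ∀ (a b : ℕ) (t : ℝ), a < b → 0 ≤ t →
  GA.real {z | ∃ l ∈ Finset.Icc a b, t ≤ |S z l - S z a|} ≤ 4 * Real.exp (-(t ^ 2 / (2 * ((b : ℝ) - a))))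

/-- **Shift inequality for the Gaussian sequence (Hölder).** `a = 1+ε`, `b = (1+ε)/ε`. The law of `z + η` (coordinates
`1..N`) has density `R = exp(∑(η_j z_j - η_j²/2))`. `P(F) = E[1_{F'} R]`, `F' = {z | z - η ∈ F}`,
`≤ P(F')^{1/a} (E R^b)^{1/b}`, `E R^b = exp((b²-b)/2 ∑η²)`, so `P(F') ≥ P(F)^{1+ε} exp(-a(b-1)/2 ∑η²)`, `a(b-1)/2 ≤ 1/ε`. -/
def S_gshift : Prop := ∀ (ε : ℝ) (N : ℕ) (η : ℕ → ℝ) (F : Set (ℕ → ℝ)), 0 < ε → ε ≤ 1 →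
  MeasurableSet F → DepOn (Finset.Icc 1 N) F →
  (GA.real F) ^ (1 + ε) * Real.exp (-(1 / ε * ∑ j ∈ Finset.Icc 1 N, (η j) ^ 2))
    ≤ GA.real {z | (fun j => z j - η j) ∈ F}

/-- **Slepian's inequality.** Thresholds `-κ` first (`P(∀i, X_i > -κ) ≤ P(∀i, Y_i > -κ)`), then `κ → 0`. Interpolation
`Z(t) = √(1-t) X + √t Y` with `X`, `Y` from two independent sequences (`GA.prod GA`), `F(x) = ∏_i f(x_i)`, `f` smooth,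
nondecreasing, bounded, close to the indicator of `(-κ,∞)`: by Gaussian integration by parts
`d/dt E F(Z(t)) = ½ ∑_{i≠k} (E Y_iY_k - E X_iX_k) E ∂_i∂_k F(Z(t)) ≥ 0` (the diagonal terms cancel). -/
def S_slep : Prop := ∀ (n : ℕ) (I : Finset ℕ) (α β : ℕ → ℕ → ℝ),
  (∀ i ∈ I, ∑ j ∈ Finset.Icc 1 n, (α i j) ^ 2 = ∑ j ∈ Finset.Icc 1 n, (β i j) ^ 2) →
  (∀ i ∈ I, ∀ k ∈ I, i ≠ k →
    ∑ j ∈ Finset.Icc 1 n, α i j * α k j ≤ ∑ j ∈ Finset.Icc 1 n, β i j * β k j) →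
  GA.real {z | ∀ i ∈ I, 0 ≤ ∑ j ∈ Finset.Icc 1 n, α i j * z j}
    ≤ GA.real {z | ∀ i ∈ I, 0 ≤ ∑ j ∈ Finset.Icc 1 n, β i j * z j}

/-- **Covariance inequality.** `x = w²`, `y = w'²`, `q = w/w' ≤ 1/(1+h)`. `∑_j cH x j cH y j = ∑_{u≤x,v≤y} 1/max(u,v) =
2x - h_x + x(h_y - h_x)` (harmonic numbers), so the left correlation is `≤ (1 - log q) q (1 + C log w/w²)`.
`∑_j cI w j cI w' j = w(w+1)(2w+1)/6 + (w'-w)w(w+1)/2`, so the right one is `≥ (1 - C/w)((3/2)q^{1/2} - ½q^{3/2})`. With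
`s = √q`: `f(s) = 3/2 - s²/2 - s + 2s log s` has `f(1) = 0`, `f'(s) = 1 - s + 2 log s ≤ s - 1 ≤ 0`, so `f(s) ≥ f(s_h) > 0` for
`s ≤ s_h = (1+h)^{-1/2}` and `(1 - 2log s)s/(3/2 - s²/2) ≤ 1 - (2/3) f(s_h)`. Take `w0` large. -/
def S_cov : Prop := ∀ h : ℝ, 0 < h → ∃ w0 : ℕ, 1 ≤ w0 ∧ ∀ w w' n : ℕ, w0 ≤ w → (1 + h) * (w : ℝ) ≤ w' →
  w' ^ 2 ≤ n →
  (∑ j ∈ Finset.Icc 1 n, cH (w ^ 2) j * cH (w' ^ 2) j) /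
      (Real.sqrt (∑ j ∈ Finset.Icc 1 n, (cH (w ^ 2) j) ^ 2) *
        Real.sqrt (∑ j ∈ Finset.Icc 1 n, (cH (w' ^ 2) j) ^ 2))
    ≤ (∑ j ∈ Finset.Icc 1 n, cI w j * cI w' j) /
      (Real.sqrt (∑ j ∈ Finset.Icc 1 n, (cI w j) ^ 2) * Real.sqrt (∑ j ∈ Finset.Icc 1 n, (cI w' j) ^ 2))

/-- **From the Laplace to the Gaussian process with general thresholds** (as `S_gcmp`, `S_gcmp2`; closed set on the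
Gaussian side, `S_cltg` with `η = n^{-A}`). -/
def S_gcmp3 : Prop := ∀ (n : ℕ) (A : ℝ) (X : Finset ℕ) (t : ℕ → ℝ), 2 ≤ n → 0 ≤ A →
  1 ≤ 2 * (A + 1) * Real.log n → X ⊆ Finset.Icc 1 n →
  PP.real {ω | ∀ x ∈ X, t x ≤ Ch ω n x}
    ≤ GA.real {z | ∀ x ∈ X, t x - 32 * (2 * (A + 1) * Real.log n) ^ (3 / 2 : ℝ) * (x : ℝ) ^ (1 / 4 : ℝ)
      ≤ Real.sqrt 2 * Ch z n x} + 41 * (n : ℝ) ^ (-A)

/-- **`Hw` is at least as persistent as the Laplace process.** `x0 = ⌈(log L)^9⌉`. `uu L ≥ L^{-θ-ε'}`; `S_shiftC`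
(`t = 0`, `X = [1,L]`): `(uu L)^{1+ε1} e^{-(4/ε1)δ²(1+log L)} ≤ PP{∀x∈[1,L], δ√x ≤ Ch ω L x}`; `S_gcmp3` with `X = [x0,b]`,
`t x = δ√x`, `l = 2(A+1)log L`; `32 l^{3/2} x^{1/4} ≤ (δ/4)√x` for `x ≥ x0`; so `Ch z L x ≥ (δ/2)√x` on `X`. Off
`{∃ j ≤ L, |z_j| > a}`, `a = (A+2) log L` (`S_gmax`), `S_H2`: `|Hz - Ch| ≤ a(1+log x) + 2ax/√L ≤ (δ/2)√x` for
`x0 ≤ x ≤ b ≤ L^{1-ε}`. So `Hz z L x ≥ 0` on `X`, and `S_helm`. -/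
def S_low1 : Prop := ∀ θ : ℝ, IsTheta θ → ∀ ε : ℝ, 0 < ε → ε < 1 → ∃ L0 : ℕ, ∀ L ≥ L0, ∀ b : ℕ,
  (b : ℝ) ≤ (L : ℝ) ^ (1 - ε) →
    (L : ℝ) ^ (-θ - ε) ≤ GA.real {z | ∀ x ∈ Finset.Icc ⌈(Real.log L) ^ 9⌉₊ b, 0 ≤ Hw z x}

/-- **From a fine geometric grid to all times, integrated Gaussian walk.** `δ = ε/2`. `S_gshift` with `η_j = δ/√j`,
`j ≤ W_N`: `∑_{j≤w} (w-j+1) η_j ≥ (δ/2) w^{3/2}`, `∑ η_j² ≤ δ²(1 + log W_N)`: so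
`P(∀i, 0 ≤ I(W_i))^{1+ε} e^{-(1/ε)δ²(1+log W_N)} ≤ P(∀i, (δ/2)W_i^{3/2} ≤ I(W_i))`. The increasing events
`E_i = {∀ w∈[W_i,W_{i+1}], I(w)-I(W_i) ≥ -(δ/2)W_i^{3/2}}`: `I(w)-I(W_i) = ∑_{W_i<u≤w} S_u`, `w - W_i ≤ 2hW_i`, so
`P(E_i^c) ≤ P(max_{u≤2W_i}|S_u| ≥ (δ/4h)√W_i) ≤ 4exp(-δ²/(64h²)) =: p_h` (`S_gmaxS`). Harris (`S_gharris`):
`P(∀w∈[W_{i1},W_N], 0≤I(w)) ≥ P(grid ≥ δ..)·∏P(E_i) ≥ P(..)(1-p_h)^N`, `N ≤ (2/h) log W_N + 2`, and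
`(1-p_h)^N ≥ W_N^{-4p_h/h}·c`; `h` small, `i0` with `(1+h)^{i0} ≥ 4/h` (so `W_{i+1} ≤ (1+2h)W_i`), `N ≥ n0`. -/
def S_grid : Prop := ∀ ε : ℝ, 0 < ε → ε ≤ 1 → ∃ h : ℝ, 0 < h ∧ h ≤ 1 ∧ ∃ i0 n0 : ℕ, ∀ i1 N : ℕ,
  i0 ≤ i1 → i1 ≤ N → n0 ≤ N →
  (GA.real {z | ∀ i ∈ Finset.Icc i1 N, 0 ≤ Iw z (Wg h i)}) ^ (1 + ε)
    ≤ (Wg h N : ℝ) ^ ε * GA.real {z | ∀ w ∈ Finset.Icc (Wg h i1) (Wg h N), 0 ≤ Iw z w}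

/-- **Crude bounds for the integrated Gaussian walk.** (1) `aG n ≥ GA{∀j≤n, S_j ≥ 0} ≥ c n^{-κ}`: e.g. `S_crude`-type
argument, or Sparre Andersen as in `S_sparre` (Pool.Agent.H870.GP174.sparre) for `N(0,1)` steps, or a direct product
of increasing events (`S_gharris`) over the dyadic scales `[2^k, 2^{k+1}]`:
`{S_{2^k} ≥ √(2^k), ∀ j∈[2^k,2^{k+1}], S_j ≥ 0}` has probability `≥ c0`. (2) `GA{∀j∈[a,b], 0 ≤ I_j, I_b ≥ R b^{3/2}, S_b ≥ 0} ≥ c(κ,R)` for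
`κb ≤ a ≤ b`: contains `{I_a ≥ 2(R+R') b^{3/2}} ∩ {∀ a≤j≤b, S_j ≥ -R'√b} ∩ {I_b - I_a ≥ ..}`; simplest: increasing events
`{I_a ≥ R1 b^{3/2}}` (`I_a` normal with variance `≥ a³/3`), `{∀ j∈[a,b], S_j - S_a ≥ -R2√b}`, `{S_a ≥ (R2+1)√b}`, `{S_b ≥ 0}`;
Harris, each has probability `≥ c`. -/
def S_acr : Prop := (∃ c : ℝ, 0 < c ∧ ∃ κ1 : ℝ, 0 < κ1 ∧ ∀ n : ℕ, 1 ≤ n → c * (n : ℝ) ^ (-κ1) ≤ aG n) ∧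
  ∀ κ R : ℝ, 0 < κ → κ < 1 → 0 < R → ∃ c : ℝ, 0 < c ∧ ∀ a b : ℕ, 1 ≤ a → a ≤ b → κ * b ≤ a →
    c ≤ GA.real {z | (∀ j ∈ Finset.Icc a b, 0 ≤ Iw z j) ∧ R * (b : ℝ) ^ (3 / 2 : ℝ) ≤ Iw z b ∧ 0 ≤ S z b}

/-- **Bridge estimate.** Gaussian walk of `N` steps: `S_j - (j/N) S_N`, `0 ≤ j ≤ N`, is independent of `S_N`
(uncorrelated, jointly Gaussian; e.g. rotate so that `S_N/√N` is one coordinate), and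
`P(∀j, S_j - (j/N)S_N ≥ -K√N) ≥ 1/2` for `K = 20` (`|S_j - (j/N)S_N| ≤ 2 max_i |S_i|`, `S_gmaxS`). `S_N ∈ [-y-1,-y)` has
probability `≥ (2πN)^{-1/2} exp(-(y+1)²/(2N))`. On both events `y + S_j ≥ min(y, -1) - K√N ≥ -1 - K√N`. -/
def S_brid : Prop := ∀ (N : ℕ) (y : ℝ), 1 ≤ N → 0 ≤ y →
  1 / 2 * (1 / Real.sqrt (2 * Real.pi * N) * Real.exp (-((y + 1) ^ 2 / (2 * N)))) ≤
    GA.real {z | -y - 1 ≤ S z N ∧ S z N < -y ∧ ∀ j ∈ Finset.Icc 1 N, -1 - 20 * Real.sqrt N ≤ y + S z j}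

/-- **Persistent and back at zero.** `δ_m = GA{∀j∈[1,m-1], 0 ≤ I_j, -1 ≤ S_m < 0}`. `m2 = ⌊m/2⌋`, `m1 = ⌊κm⌋`,
`V = √(m log m)`. `E = {∀j≤m2, 0≤I_j, I_{m2} ≥ 22 m^{3/2}, S_{m2} ≥ 0}`: Harris with `S_acr` (2) (`a = ⌈m2/2⌉`, `b = m2`):
`P(E) ≥ c aG m`. Upper bound for `S_{m2}`: `P(E, S_{m2} > 2c1V) ≤ P(|S_{m1}| > c1V) + aG m1·P(S_{m2}-S_{m1} > c1V)
≤ 2m^{-c1²/(2κ)} + aG m1·m^{-c1²/2}` and `aG m1 ≤ aG m/c'` (`aG m ≥ aG m1·GA{∀j∈[m1,m],0≤I_j}`, `S_acr` (2)); `κ` small compared to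
`c1²` and (1): so `P(E, S_{m2} ≤ 2c1V) ≥ (c/2) aG m`. Then for the remaining `N = m - m2` steps `S_brid` with
`y = S_{m2} ∈ [0,2c1V]` (independence, Fubini): probability `≥ c m^{-1/2} m^{-5c1²}`, and `I_j ≥ 22m^{3/2} - N(1+20√N) ≥ 0`.
`c1` small. -/
def S_back0 : Prop := ∀ ε : ℝ, 0 < ε → ∃ m0 : ℕ, ∀ m ≥ m0,
  (m : ℝ) ^ (-(1 / 2) - ε : ℝ) * aG m ≤
    GA.real {z | (∀ j ∈ Finset.Icc 1 (m - 1), 0 ≤ Iw z j) ∧ -1 ≤ S z m ∧ S z m < 0}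

/-- **Decomposition at the maximum, lower bounds.** For `1 ≤ m ≤ n` the events `{m is the first index of the maximum of
I_0..I_n}` are disjoint. They contain `{0 < ∑_{m-k<j≤m} S_j for 1≤k≤m, S_m ≤ 1} ∩ {∀k∈[1,n-m], ∑_{j≤k}(S_{m+j}-S_m) ≤ -k}`
(`I_{m+k}-I_m = kS_m + ..`). Time reversal `z'_i = -z_{m+1-i}`: the first has probability
`≥ GA{∀j∈[1,m-1], 0≤I_j, -1≤S_m<0}` (`∑_{m-k<j≤m}S_j = kS_m + I'_{k-1}`, `S_m = -S'_m > 0`); the second, by symmetry,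
`GA{∀k≤N, k ≤ I_k} ≥ P(z_1 ≥ 1) aG (N-1) ≥ (1/10) aG N`. Independent. -/
def S_gargmax : Prop := ∀ n : ℕ, 1 ≤ n →
  ∑ m ∈ Finset.Icc 1 n, GA.real {z | (∀ j ∈ Finset.Icc 1 (m - 1), 0 ≤ Iw z j) ∧ -1 ≤ S z m ∧ S z m < 0} *
    (1 / 10 * aG (n - m)) ≤ 1

/-- **Exponent 1/4 of the integrated Gaussian walk, upper bound.** `S_gargmax`, `S_back0`; `aG` is nonincreasing:
`1 ≥ ∑_{n/2≤m≤n} m^{-1/2-ε} aG m·(1/10) aG(n-m) ≥ c n^{1/2-ε} (aG n)²`. -/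
def S_quart : Prop := ∀ ε : ℝ, 0 < ε → ∃ n0 : ℕ, ∀ n ≥ n0, aG n ≤ (n : ℝ) ^ (-(1 / 4) + ε : ℝ)

/-- **Lower bound `θ ≥ 1/8`.** Let `ε` be small, `h, i0` from `S_grid`, `w0` from `S_cov` with `h/2`. `L` large,
`b = ⌊L^{1-ε}⌋`, `N` maximal with `(Wg h N)² ≤ b`, `i1 ≥ i0` minimal with `Wg h i1 ≥ w0` and `(Wg h i1)² ≥ ⌈(log L)^9⌉`, and
`(1+h)^{i1} ≥ 4/h`, so the ratio of consecutive grid points is `≥ 1 + h/2`. `S_low1`: `L^{-θ-ε} ≤ GA{∀i∈[i1,N],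
0 ≤ Hw z (W_i²)} ≤ GA{∀i∈[i1,N], 0 ≤ Iw z (W_i)}` by `S_slep` with the normalised coefficients (`S_coef`, `S_cov`; `α` from
`cH (W_i²)`, `β` from `cI (W_i)`, `n = L`). `S_grid`: `≤ (W_N^ε GA{∀w∈[W_{i1},W_N], 0≤I_w})^{1/(1+ε)}`, and by Harris
`aG (W_N) ≥ aG (W_{i1})·GA{∀w∈[W_{i1},W_N], 0≤I_w}`, `aG (W_{i1}) ≥ c W_{i1}^{-κ1}` (`S_acr`) is `≥ (log L)^{-C}`. `S_quart`:
`aG (W_N) ≤ W_N^{-1/4+ε}`, `W_N ≥ ½ L^{(1-ε)/2}`. Hence `-θ - ε ≤ (-(1/4)+3ε)(1-ε)/(2(1+ε)) + ε`; let `ε → 0`: `θ ≥ 1/8`. -/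
def S_eighth : Prop := ∀ θ : ℝ, IsTheta θ → 1 / 8 ≤ θ

end Pool.Agent.H174.GP
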