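import Pool.Agent.H174.GP.StI

open MeasureTheory ProbabilityTheory Finset Filter Topology

namespace Pool.Agent.H174.GP

/-- The point `⌈w^√3⌉`. -/
noncomputable def xr (w : ℕ) : ℕ := ⌈(w : ℝ) ^ Real.sqrt 3⌉₊

/-- **Covariance inequality with the exponent `√3`** (improves `S_cov`, which has `w²` instead of `w^√3`; model
Pool.Agent.H740.GP174.cov). `x = xr w`, `y = xr w'`, `s = log(w'/w) ≥ log(1+h)`, so `log(y/x) = √3 s + O(w^{-√3})` and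
`√(x/y) = e^{-√3 s/2}(1 + O(w^{-√3}))`. Left correlation `≤ ρ(√3 s)(1 + C log w/w^√3)`, `ρ(t) = (1+t/2)e^{-t/2}`, right one
`≥ (1 - C/w) ρ1(s)`, `ρ1(s) = (3/2)e^{-s/2} - ½e^{-3s/2}`. Claim `ρ(√3 s) < ρ1(s)` for `s > 0`: with `a = (√3-1)/2`,
`F(s) = e^{√3 s/2}ρ1(s) - 1 - √3 s/2 = (3/2)e^{as} - ½e^{(a-1)s} - 1 - √3 s/2` has `F(0) = F'(0) = 0`,
`F''(s) = (3/2)a²e^{as} - ½(1-a)²e^{(a-1)s} > 0` for `s > 0` because `3a² = (1-a)²`. The quotient `ρ(√3 s)/ρ1(s)` is continuous,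
`< 1` and tends to `0` as `s → ∞`, so it is `≤ 1 - c_h` for `s ≥ log(1+h)`. Take `w0` large. -/
def S_cov3 : Prop := ∀ h : ℝ, 0 < h → ∃ w0 : ℕ, 1 ≤ w0 ∧ ∀ w w' n : ℕ, w0 ≤ w → (1 + h) * (w : ℝ) ≤ w' →
  xr w' ≤ n → w' ≤ n →
  (∑ j ∈ Finset.Icc 1 n, cH (xr w) j * cH (xr w') j) /
      (Real.sqrt (∑ j ∈ Finset.Icc 1 n, (cH (xr w) j) ^ 2) *
        Real.sqrt (∑ j ∈ Finset.Icc 1 n, (cH (xr w') j) ^ 2))
    ≤ (∑ j ∈ Finset.Icc 1 n, cI w j * cI w' j) /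
      (Real.sqrt (∑ j ∈ Finset.Icc 1 n, (cI w j) ^ 2) * Real.sqrt (∑ j ∈ Finset.Icc 1 n, (cI w' j) ^ 2))

/-- **Lower bound `θ ≥ √3/12`.** Exactly the proof of `S_eighth` (Pool.Agent.H348.GP174.eighth) with `xr (Wg h i)` instead of
`(Wg h i)^2`: `N` maximal with `xr (Wg h N) ≤ b`, so `W_N ≥ ½ L^{(1-ε)/√3}`; `-θ - ε ≤ (-(1/4)+3ε)(1-ε)/(√3(1+ε)) + ε`; let
`ε → 0`: `θ ≥ 1/(4√3) = √3/12`. -/
def S_rt3 : Prop := ∀ θ : ℝ, IsTheta θ → Real.sqrt 3 / 12 ≤ θ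

end Pool.Agent.H174.GP
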