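import Pool.Agent.H174.GP.All
import Pool.Agent.H174.GP.StG
import Pool.Agent.H174.GP.StH
import Pool.Agent.H174.GP.StI
import Pool.Agent.H174.GP.StJ
import Pool.Agent.H707.GP174.Gmap
import Pool.Agent.H294.GP174.GPP
import Pool.Agent.H719.GP174.AdmG
import Pool.Agent.H962.GP174.gstep
import Pool.Agent.H344.GP174.wdet
import Pool.Agent.H686.GP174.couple
import Pool.Agent.H824.GP174.gcmp
import Pool.Agent.H21.GP174.clt
import Pool.Agent.H120.GP174.gtheta
import Pool.Agent.H124.GP174.conc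
import Pool.Agent.H261.GP174.argmax
import Pool.Agent.H402.GP174.bback
import Pool.Agent.H280.GP174.IH
import Pool.Agent.H75.GP174.Hdet
import Pool.Agent.H405.GP174.Hcmp
import Pool.Agent.H224.GP174.cltg
import Pool.Agent.H779.GP174.helm
import Pool.Agent.H155.GP174.H2
import Pool.Agent.H163.GP174.gmax
import Pool.Agent.H612.GP174.gcmp2
import Pool.Agent.H154.GP174.chain
import Pool.Agent.H372.GP174.thq
import Pool.Agent.H233.GP174.coef
import Pool.Agent.H279.GP174.gindep
import Pool.Agent.H670.GP174.gharris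
import Pool.Agent.H909.GP174.gmaxS
import Pool.Agent.H190.GP174.gshift
import Pool.Agent.H505.GP174.slep
import Pool.Agent.H725.GP174.gcmp3
import Pool.Agent.H280.GP174.low1
import Pool.Agent.H675.GP174.grid
import Pool.Agent.H800.GP174.acr
import Pool.Agent.H358.GP174.brid
import Pool.Agent.H174.GP174.back0
import Pool.Agent.H25.GP174.gargmax
import Pool.Agent.H972.GP174.quart
import Pool.Agent.H174.GP174.cov3
import Pool.Agent.H747.GP174.rt3

namespace Pool.Agent.H174.GP

theorem t_Gmap : S_Gmap := Pool.Agent.H707.GP174.gp_gmap 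
theorem t_GPP : S_GPP := Pool.Agent.H294.GP174.gp_gpp 
theorem t_AdmG : S_AdmG := Pool.Agent.H719.GP174.gp_admg 
theorem t_gstep : S_gstep := Pool.Agent.H962.GP174.gp_gstep t_Gmap t_GPP t_AdmG t_crude t_harrisN t_L3
theorem t_wdet : S_wdet := Pool.Agent.H344.GP174.wdet.gp_wdet t_abel
theorem t_couple : S_couple := Pool.Agent.H686.GP174.gp_couple t_tautail t_Stail
theorem t_gcmp : S_gcmp := Pool.Agent.H824.GP174.gp_gcmp t_Zmp t_couple t_wdet
theorem t_clt : S_clt := Pool.Agent.H21.GP174.gp_clt t_L3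
theorem t_gtheta : S_gtheta := Pool.Agent.H120.GP174.gp_gtheta t_gcmp t_clt t_gstep t_shiftC t_step t_harrisN
theorem t_conc : S_conc := Pool.Agent.H174.GP.gp_conc t_L3
theorem t_argmax : S_argmax := Pool.Agent.H261.GP174.gp_argmax t_L3 t_indep
theorem t_bback : S_bback := Pool.Agent.H402.GP174.gp_bback t_conc t_L3 t_indep
theorem t_IH : S_IH := Pool.Agent.H280.GP174.gp_ih 
theorem t_Hdet : S_Hdet := Pool.Agent.H75.GP174.gp_hdet 
theorem t_Hcmp : S_Hcmp := Pool.Agent.H405.GP174.gp_hcmp t_Zmp t_couple t_Hdet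
theorem t_cltg : S_cltg := Pool.Agent.H224.GP174.gp_cltg t_L3
theorem t_helm : S_helm := Pool.Agent.H779.GP174.gp_helm 
theorem t_H2 : S_H2 := Pool.Agent.H155.GP174.gp_h2 
theorem t_gmax : S_gmax := Pool.Agent.H163.GP174.gp_gmax 
theorem t_gcmp2 : S_gcmp2 := Pool.Agent.H612.GP174.gp_gcmp2 t_Zmp t_couple t_wdet t_cltg
theorem t_chain : S_chain := Pool.Agent.H154.GP174.gp_chain t_IH t_Hcmp t_cltg t_helm t_H2 t_gmax t_gcmp2 t_shiftC t_step t_harrisN
theorem t_thq : S_thq := Pool.Agent.H372.GP174.thq.gp_thq t_argmax t_bback t_chain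
theorem t_coef : S_coef := Pool.Agent.H233.GP174.gp_coef 
theorem t_gindep : S_gindep := Pool.Agent.H279.GP174.gp_gindep t_Gmap t_GPP t_indep
theorem t_gharris : S_gharris := Pool.Agent.H670.GP174.gp_gharris t_Gmap t_GPP t_harrisN
theorem t_gmaxS : S_gmaxS := Pool.Agent.H909.GP174.gp_gmaxs t_Gmap t_GPP t_levy
theorem t_gshift : S_gshift := Pool.Agent.H190.GP174.gp_gshift 
theorem t_slep : S_slep := Pool.Agent.H505.GP174.gp_slep 
theorem t_gcmp3 : S_gcmp3 := Pool.Agent.H725.GP174.gp_gcmp3 t_Zmp t_couple t_wdet t_cltg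
theorem t_low1 : S_low1 := Pool.Agent.H280.GP174.gp_low1 t_gcmp3 t_H2 t_gmax t_helm t_shiftC
theorem t_grid : S_grid := Pool.Agent.H675.GP174.gp_grid t_gshift t_gharris t_gmaxS
theorem t_acr : S_acr := Pool.Agent.H800.GP174.gp_acr t_gharris t_gindep t_gmaxS
theorem t_brid : S_brid := Pool.Agent.H358.GP174.gp_brid t_gmaxS
theorem t_back0 : S_back0 := Pool.Agent.H174.GP.BK.gp_back0 t_acr t_brid t_gharris t_gindep t_gmaxS
theorem t_gargmax : S_gargmax := Pool.Agent.H25.GP174.gp_gargmax t_gindep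
theorem t_quart : S_quart := Pool.Agent.H972.GP174.quart.gp_quart t_gargmax t_back0
theorem t_cov3 : S_cov3 := Pool.Agent.H174.GP.Cov3.gp_cov3 
theorem t_rt3 : S_rt3 := Pool.Agent.H747.GP174.gp_rt3 t_low1 t_slep t_cov3 t_coef t_grid t_gharris t_acr t_quart

end Pool.Agent.H174.GP
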