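import Mathlib

/-!
# Generalized pseudostandard words: words, antimorphisms, closures

`anti false` is the reversal `R`, `anti true` is the exchange antimorphism `E`.
-/

namespace Pool.Agent.H174.GP

/-- `xw false` is the identity, `xw true` exchanges the two letters. -/
def xw (b : Bool) (w : List Bool) : List Bool := w.map (fun c => b ^^ c)

/-- `anti false` is the reversal `R`, `anti true` is the exchange antimorphism `E`. -/
def anti (t : Bool) (w : List Bool) : List Bool := (w.map (fun c => t ^^ c)).reverse

@[simp] theorem xw_nil (b : Bool) : xw b [] = [] := rfl
@[simp] theorem xw_cons (b c : Bool) (w : List Bool) : xw b (c :: w) = (b ^^ c) :: xw b w := rfl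
@[simp] theorem xw_append (b : Bool) (u v : List Bool) : xw b (u ++ v) = xw b u ++ xw b v := by
  simp [xw]
@[simp] theorem xw_length (b : Bool) (w : List Bool) : (xw b w).length = w.length := by simp [xw]
@[simp] theorem xw_false (w : List Bool) : xw false w = w := by simp [xw]
@[simp] theorem xw_xw (b c : Bool) (w : List Bool) : xw b (xw c w) = xw (b ^^ c) w := by
  simp only [xw, List.map_map]
  congr 1
  funext x
  simp [Function.comp]

theorem xw_inj {b : Bool} {u v : List Bool} (h : xw b u = xw b v) : u = v := by
  have := congrArg (xw b) h
  simpa using this

@[simp] theorem xw_eq_nil {b : Bool} {u : List Bool} : xw b u = [] ↔ u = [] := by simp [xw]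

@[simp] theorem anti_nil (t : Bool) : anti t [] = [] := rfl
@[simp] theorem anti_append (t : Bool) (u v : List Bool) :
    anti t (u ++ v) = anti t v ++ anti t u := by simp [anti]
theorem anti_singleton (t c : Bool) : anti t [c] = [t ^^ c] := rfl
theorem anti_cons (t c : Bool) (w : List Bool) : anti t (c :: w) = anti t w ++ [t ^^ c] := by
  simp [anti]
@[simp] theorem anti_length (t : Bool) (w : List Bool) : (anti t w).length = w.length := by
  simp [anti]
@[simp] theorem anti_anti (t : Bool) (w : List Bool) : anti t (anti t w) = w := by
  simp only [anti, List.map_reverse, List.reverse_reverse, List.map_map]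
  conv_rhs => rw [← List.map_id w]
  congr 1
  funext x
  simp [Function.comp]
theorem anti_xw (t b : Bool) (w : List Bool) : anti t (xw b w) = xw b (anti t w) := by
  simp only [anti, xw, List.map_reverse, List.map_map]
  congr 2
  funext x
  simp only [Function.comp]
  cases t <;> cases b <;> cases x <;> rfl
theorem anti_eq_xw (t s : Bool) (w : List Bool) : anti t w = xw (t ^^ s) (anti s w) := by
  simp only [anti, xw, List.map_reverse, List.map_map]
  congr 2
  funext x
  simp only [Function.comp]
  cases t <;> cases s <;> cases x <;> rfl

theorem exists_pal_suffix (t : Bool) (w : List Bool) :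
    ∃ i, anti t (w.drop i) = w.drop i := ⟨w.length, by simp⟩

/-- The starting position of the longest suffix which is a pseudopalindrome. -/
def pidx (t : Bool) (w : List Bool) : ℕ := Nat.find (exists_pal_suffix t w)

/-- The pseudopalindromic closure: the shortest word `v` with prefix `w` and `anti t v = v`. -/
def pclosure (t : Bool) (w : List Bool) : List Bool := w ++ anti t (w.take (pidx t w))

theorem pidx_spec (t : Bool) (w : List Bool) :
    anti t (w.drop (pidx t w)) = w.drop (pidx t w) := Nat.find_spec (exists_pal_suffix t w)

theorem pidx_le (t : Bool) (w : List Bool) (i : ℕ) (h : anti t (w.drop i) = w.drop i) :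
    pidx t w ≤ i := Nat.find_min' (exists_pal_suffix t w) h

theorem pidx_le_length (t : Bool) (w : List Bool) : pidx t w ≤ w.length :=
  pidx_le t w _ (by simp)

theorem pclosure_pal (t : Bool) (w : List Bool) : anti t (pclosure t w) = pclosure t w := by
  unfold pclosure
  have h := pidx_spec t w
  set i := pidx t w
  conv_lhs => rw [← List.take_append_drop i w]
  conv_rhs => rw [← List.take_append_drop i w]
  rw [List.take_append_drop, anti_append, anti_anti]
  conv_lhs => rw [← List.take_append_drop i w, anti_append, h]
  rw [List.take_append_drop, ← List.append_assoc, List.take_append_drop]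

theorem prefix_pclosure (t : Bool) (w : List Bool) : w <+: pclosure t w := ⟨_, rfl⟩

/-- `pclosure t w` is the shortest pseudopalindrome with prefix `w`. -/
theorem pclosure_min (t : Bool) (w v : List Bool) (hv : anti t v = v) (hw : w <+: v) :
    (pclosure t w).length ≤ v.length := by
  obtain ⟨z, rfl⟩ := hw
  have hlen : (pclosure t w).length = w.length + pidx t w := by
    unfold pclosure
    rw [List.length_append, anti_length, List.length_take, min_eq_left (pidx_le_length t w)]
  rw [hlen, List.length_append]
  have : pidx t w ≤ z.length := by
    by_cases hz : z.length ≤ w.length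
    · apply pidx_le
      have h1 : anti t z ++ anti t w = w ++ z := by rw [← anti_append]; exact hv
      have h2 : w.take z.length = anti t z := by
        have := congrArg (List.take z.length) h1
        rw [List.take_append_of_le_length (by simp), List.take_append_of_le_length hz] at this
        rw [← this, List.take_of_length_le (by simp)]
      have h3 : anti t w = w.drop z.length ++ z := by
        have := congrArg (List.drop z.length) h1
        rw [List.drop_append_of_le_length (by simp), List.drop_append_of_le_length hz] at this
        rw [← this, List.drop_eq_nil_of_le (by simp)]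
        rfl
      have h4 : anti t w = anti t (w.drop z.length) ++ anti t (w.take z.length) := by
        rw [← anti_append, List.take_append_drop]
      rw [h3] at h4
      have := List.append_inj_left h4 (by simp)
      exact this.symm
    · exact le_trans (pidx_le_length t w) (by omega)
  omega

theorem pclosure_eq_of (t : Bool) (w : List Bool) (i : ℕ) (h : anti t (w.drop i) = w.drop i)
    (h' : ∀ j < i, anti t (w.drop j) ≠ w.drop j) : pclosure t w = w ++ anti t (w.take i) := by
  have : pidx t w = i := by
    apply le_antisymm (pidx_le t w i h)
    by_contra hlt
    exact h' _ (by omega) (pidx_spec t w)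
  rw [pclosure, this]

theorem pclosure_of_pal (t : Bool) (w : List Bool) (h : anti t w = w) : pclosure t w = w := by
  rw [pclosure_eq_of t w 0 (by simpa using h) (by simp)]
  simp

/-- If no pseudopalindromic suffix starts in the first part, the closure commutes. -/
theorem pclosure_append (t : Bool) (A z : List Bool)
    (h : ∀ j < A.length, anti t ((A ++ z).drop j) ≠ (A ++ z).drop j) :
    pclosure t (A ++ z) = A ++ pclosure t z ++ anti t A := by
  have h1 : pidx t (A ++ z) = A.length + pidx t z := by
    apply le_antisymm
    · apply pidx_le
      rw [← List.drop_drop, List.drop_left]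
      exact pidx_spec t z
    · have hge : A.length ≤ pidx t (A ++ z) := by
        by_contra hlt
        exact h _ (by omega) (pidx_spec t _)
      obtain ⟨k, hk⟩ := Nat.exists_eq_add_of_le hge
      have h2 := pidx_spec t (A ++ z)
      rw [hk, ← List.drop_drop, List.drop_left] at h2
      have := pidx_le t z k h2
      omega
  unfold pclosure
  rw [h1, List.take_length_add_append, anti_append]
  simp

theorem pclosure_xw (t b : Bool) (w : List Bool) : pclosure t (xw b w) = xw b (pclosure t w) := by
  have h1 : pidx t (xw b w) = pidx t w := by
    have key : ∀ i, anti t ((xw b w).drop i) = (xw b w).drop i ↔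
        anti t (w.drop i) = w.drop i := by
      intro i
      have : (xw b w).drop i = xw b (w.drop i) := by simp [xw, List.map_drop]
      rw [this, anti_xw]
      constructor
      · exact fun h => xw_inj h
      · exact fun h => by rw [h]
    apply le_antisymm
    · exact pidx_le _ _ _ ((key _).2 (pidx_spec t w))
    · exact pidx_le _ _ _ ((key _).1 (pidx_spec t _))
  unfold pclosure
  rw [h1, xw_append]
  have : (xw b w).take (pidx t w) = xw b (w.take (pidx t w)) := by simp [xw, List.map_take]
  rw [this, anti_xw]

end Pool.Agent.H174.GP
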