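import Pool.Agent.H174.GP.RS

/-!
# Counting words of given length
-/

namespace Pool.Agent.H174.GP

/-- number of words of length `n` in a language -/
noncomputable def cnt (F : List Bool → Prop) (n : ℕ) : ℕ := Set.ncard {v : List Bool | v.length = n ∧ F v}

theorem fin_len (n : ℕ) (F : List Bool → Prop) : {v : List Bool | v.length = n ∧ F v}.Finite :=
  (List.finite_length_eq Bool n).subset (fun _ hv => hv.1)

theorem cnt_mono {F G : List Bool → Prop} (h : ∀ v, F v → G v) (n : ℕ) : cnt F n ≤ cnt G n :=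
  Set.ncard_le_ncard (fun _ hv => ⟨hv.1, h _ hv.2⟩) (fin_len n G)

theorem cnt_succ (F : List Bool → Prop) (hF : ∀ v k, F (v ++ [k]) → F v) (n : ℕ) :
    cnt F (n + 1) ≤ cnt F n + cnt (fun v => ∀ k, F (v ++ [k])) n := by
  set S : Bool → Set (List Bool) := fun k => {v | v.length = n ∧ F (v ++ [k])} with hS
  have hSfin : ∀ k, (S k).Finite := fun k => fin_len n (fun v => F (v ++ [k]))
  have h1 : {v : List Bool | v.length = n + 1 ∧ F v} =
      (fun v => v ++ [false]) '' S false ∪ (fun v => v ++ [true]) '' S true := by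
    ext v
    constructor
    · rintro ⟨h1, h2⟩
      rcases List.eq_nil_or_concat v with rfl | ⟨u, k, rfl⟩
      · simp at h1
      · simp only [List.concat_eq_append] at h1 h2 ⊢
        have hu : u.length = n := by simpa using h1
        cases k
        · left; exact ⟨u, ⟨hu, h2⟩, rfl⟩
        · right; exact ⟨u, ⟨hu, h2⟩, rfl⟩
    · rintro (⟨u, ⟨hu, h2⟩, rfl⟩ | ⟨u, ⟨hu, h2⟩, rfl⟩)
      · exact ⟨by simp [hu], h2⟩
      · exact ⟨by simp [hu], h2⟩
  have h2 : cnt F (n + 1) ≤ (S false).ncard + (S true).ncard := by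
    unfold cnt
    rw [h1]
    exact (Set.ncard_union_le _ _).trans
      (Nat.add_le_add (Set.ncard_image_le (hSfin _)) (Set.ncard_image_le (hSfin _)))
  have h3 := Set.ncard_union_add_ncard_inter (S false) (S true) (hSfin _) (hSfin _)
  have h4 : (S false ∪ S true).ncard ≤ cnt F n := by
    apply Set.ncard_le_ncard _ (fin_len n F)
    rintro v (⟨hv1, hv2⟩ | ⟨hv1, hv2⟩)
    · exact ⟨hv1, hF _ _ hv2⟩
    · exact ⟨hv1, hF _ _ hv2⟩
  have h5 : (S false ∩ S true).ncard ≤ cnt (fun v => ∀ k, F (v ++ [k])) n := by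
    apply Set.ncard_le_ncard _ (fin_len n _)
    rintro v ⟨⟨hv1, hv2⟩, ⟨_, hv3⟩⟩
    refine ⟨hv1, fun k => ?_⟩
    cases k
    · exact hv2
    · exact hv3
  omega

/-- Words which are suffixes of few words (up to complement) are few. -/
theorem cnt_le_of_suffix (F : List Bool → Prop) (n : ℕ) (Z : List (List Bool))
    (h : ∀ v, v.length = n → F v → ∃ z ∈ Z, ∃ b, v <:+ xw b z) :
    cnt F n ≤ 2 * Z.length := by
  classical
  set L : List (List Bool) := Z.flatMap
    (fun z => [(xw false z).drop (z.length - n), (xw true z).drop (z.length - n)]) with hL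
  have h1 : {v : List Bool | v.length = n ∧ F v} ⊆ (L.toFinset : Set (List Bool)) := by
    rintro v ⟨hv1, hv2⟩
    obtain ⟨z, hz, b, hb⟩ := h v hv1 hv2
    simp only [hL, Finset.mem_coe, List.mem_toFinset, List.mem_flatMap]
    refine ⟨z, hz, ?_⟩
    have h2 : v = (xw b z).drop (z.length - n) := by
      have := List.suffix_iff_eq_drop.1 hb
      rw [hv1, xw_length] at this
      exact this
    cases b
    · rw [← h2]; simp
    · rw [← h2]; simp
  have h2 : L.length = 2 * Z.length := by
    rw [hL, List.length_flatMap]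
    simp [mul_comm]
  unfold cnt
  calc Set.ncard _ ≤ Set.ncard (L.toFinset : Set (List Bool)) :=
        Set.ncard_le_ncard h1 (Finset.finite_toSet _)
    _ = L.toFinset.card := Set.ncard_coe_finset _
    _ ≤ L.length := List.toFinset_card_le _
    _ = _ := h2

/-- summation with constant increments -/
theorem cnt_range (F : List Bool → Prop) (hF : ∀ v k, F (v ++ [k]) → F v) (m c : ℕ)
    (n : ℕ) (hmn : m ≤ n) (h : ∀ i, m ≤ i → i < n → cnt (fun v => ∀ k, F (v ++ [k])) i ≤ c) :
    cnt F n ≤ cnt F m + c * (n - m) := by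
  induction n, hmn using Nat.le_induction with
  | base => simp
  | succ n hmn ih =>
    have h1 := cnt_succ F hF n
    have h2 := h n hmn (by omega)
    have h3 := ih (fun i h1 h2 => h i h1 (by omega))
    have h4 : c * (n + 1 - m) = c * (n - m) + c := by
      rw [Nat.succ_sub hmn, Nat.mul_succ]
    omega

theorem Full.left {B : Ty → Bool} {P : List Bool} {lam : Ty → List Bool} (v : List Bool)
    (k : Bool) (h : Full B P lam (v ++ [k])) : Full B P lam v := by
  obtain ⟨b, l, hl, hv⟩ := h
  exact ⟨b, l, hl, (List.infix_append' [] v [k]).trans hv⟩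

theorem Full.sub {B : Ty → Bool} {P : List Bool} {lam : Ty → List Bool} {f0 : Ty}
    (hf0 : B f0 = true) {B' : Ty → Bool} {c : Ty → List Ty}
    (c1 : ∀ f, B' f = true → ∀ g ∈ c f, B g = true ∧ g ≠ f0)
    (c3 : ∀ f, B' f = true → fl (c f ++ [f0]) = f.2) (v : List Bool)
    (h : Full B' (P ++ lam f0) (lam' lam f0 c) v) : Full B P lam v := by
  obtain ⟨b, l, hl, hv⟩ := h
  rw [pw_blow P lam f0 c c3 l hl] at hv
  refine ⟨b, _, ?_, hv⟩
  intro g hg
  simp only [List.mem_cons, blow, List.mem_flatMap, List.mem_append, List.not_mem_nil,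
    or_false] at hg
  rcases hg with rfl | ⟨f, hf, hg | rfl⟩
  · exact hf0
  · exact (c1 f (hl f hf) g hg).1
  · exact hf0

end Pool.Agent.H174.GP
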