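import Mathlib

/-!
# Project GP (helper174): decay exponent of the probability that a partition is graphical

Common definitions. Everything random lives on ONE probability space: `PP` on `ℕ → ℝ`, the
coordinates `ω j` are independent with the Laplace distribution `lap` (density `exp(-|x|)/2`).
-/

open MeasureTheory ProbabilityTheory Finset

namespace Pool.Agent.H174.GP

/-- Laplace distribution, density `exp(-|x|)/2`. -/
noncomputable def lap : Measure ℝ :=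
  volume.withDensity (fun x => ENNReal.ofReal (Real.exp (-|x|) / 2))

theorem lap_univ : lap Set.univ = 1 := by
  have h1 : (∫ x : ℝ, Real.exp (-|x|) / 2) = 1 := by
    have h2 : (∫ x : ℝ, (fun y : ℝ => Real.exp (-y) / 2) |x|) = 2 * ∫ x in Set.Ioi (0:ℝ), (fun y : ℝ => Real.exp (-y) / 2) x :=
      integral_comp_abs (f := fun y : ℝ => Real.exp (-y) / 2)
    simp only at h2
    rw [h2, integral_div, integral_exp_neg_Ioi_zero]
    norm_num
  have hi : Integrable (fun x : ℝ => Real.exp (-|x|) / 2) := by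
    by_contra hcon
    rw [integral_undef hcon] at h1
    norm_num at h1
  unfold lap
  rw [withDensity_apply _ MeasurableSet.univ, Measure.restrict_univ,
    ← ofReal_integral_eq_lintegral_ofReal hi (Filter.Eventually.of_forall (fun x => by positivity)), h1]
  simp

instance : IsProbabilityMeasure lap := ⟨lap_univ⟩

/-- The probability space: independent Laplace coordinates. -/
noncomputable def PP : Measure (ℕ → ℝ) := Measure.infinitePi (fun _ : ℕ => lap)

instance : IsProbabilityMeasure PP := by unfold PP; infer_instance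

/-- `Cs y L x = ∑_{j=1}^L min(j,x) y_j`. -/
noncomputable def Cs (y : ℕ → ℝ) (L x : ℕ) : ℝ :=
  ∑ j ∈ Finset.Icc 1 L, ((min j x : ℕ) : ℝ) * y j

/-- The Laplace process `Ch ω L x = ∑_{j=1}^L min(j,x) ω_j / j`. -/
noncomputable def Ch (ω : ℕ → ℝ) (L x : ℕ) : ℝ := Cs (fun j => ω j / (j : ℝ)) L x

/-- Persistence probability of the Laplace process. -/
noncomputable def uu (L : ℕ) : ℝ :=
  PP.real {ω | ∀ x ∈ Finset.Icc 1 L, 0 ≤ Ch ω L x}

/-- The rounding constant, `0 ≤ cq a ≤ 1/2` for `a > 0`. -/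
noncomputable def cq (a : ℝ) : ℝ := Real.log (2 / (1 + Real.exp (-a))) / a

/-- Quantile map: `Tq a` maps the Laplace distribution to the two-sided geometric distribution
`P(k) = (1 - ρ)/(1 + ρ) * ρ^|k|`, `ρ = exp(-a)`. It is odd, monotone and `|Tq a x - x/a| ≤ 1`. -/
noncomputable def Tq (a x : ℝ) : ℤ :=
  if 0 ≤ x then ⌊x / a + cq a⌋ else - ⌊(-x) / a + cq a⌋

/-- The two-sided geometric variables `X_j = geo σ ω j`, parameter `exp(-σ j)`. -/
noncomputable def geo (σ : ℝ) (ω : ℕ → ℝ) (j : ℕ) : ℤ := Tq (σ * j) (ω j)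

/-- The geometric process `∑_{j=1}^d min(j,k) X_j`. -/
noncomputable def Cg (σ : ℝ) (ω : ℕ → ℝ) (d k : ℕ) : ℝ := Cs (fun j => (geo σ ω j : ℝ)) d k

/-- The sum `∑_{j=1}^d j |X_j|` as an integer. -/
noncomputable def sX (σ : ℝ) (ω : ℕ → ℝ) (d : ℕ) : ℤ := ∑ j ∈ Finset.Icc 1 d, (j : ℤ) * |geo σ ω j|

/-- Its mean. -/
noncomputable def m1 (d : ℕ) (σ : ℝ) : ℝ :=
  ∑ j ∈ Finset.Icc 1 d, (j : ℝ) * (2 * Real.exp (-(σ * j)) / (1 - Real.exp (-(2 * σ * j))))

/-- The mean of `∑ j γ_j`, `γ_j` geometric with parameter `exp(-2σ j)`. -/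
noncomputable def mu (d : ℕ) (σ : ℝ) : ℝ :=
  ∑ j ∈ Finset.Icc 1 d, (j : ℝ) * (Real.exp (-(2 * σ * j)) / (1 - Real.exp (-(2 * σ * j))))

/-- Number of `γ : Fin d → ℕ` with `∑ (i+1) γ_i = m` (partitions of `m` into parts `≤ d`). -/
noncomputable def Nd (d m : ℕ) : ℕ :=
  Set.ncard {γ : Fin d → ℕ | ∑ i : Fin d, ((i : ℕ) + 1) * γ i = m}

/-- `aa d σ m = P(∑ j γ_j = m)`, `γ_j` independent geometric with parameter `exp(-2σ j)`. -/
noncomputable def aa (d : ℕ) (σ : ℝ) (m : ℤ) : ℝ :=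
  if 0 ≤ m then (Nd d m.toNat : ℝ) * Real.exp (-(2 * σ * m)) *
    ∏ j ∈ Finset.Icc 1 d, (1 - Real.exp (-(2 * σ * j))) else 0

open Classical in
/-- The weight of the common part given `X`. -/
noncomputable def wA (d n : ℕ) (σ : ℝ) (ω : ℕ → ℝ) : ℝ :=
  if Even ((2 * n : ℤ) - (d : ℤ) ^ 2 - sX σ ω d) then
    aa d σ (((2 * n : ℤ) - (d : ℤ) ^ 2 - sX σ ω d) / 2) else 0

/-- Pairs `(g,h)` with `d² + ∑ (i+1)(g_i + h_i) = m`: partitions of `m` with Durfee size `d`. -/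
noncomputable def cnt (d m : ℕ) : ℕ :=
  Set.ncard {gh : (Fin d → ℕ) × (Fin d → ℕ) | d ^ 2 + ∑ i : Fin d, ((i : ℕ) + 1) * (gh.1 i + gh.2 i) = m}

/-- The same with the Erdős–Gallai condition `∑_{j≤d} min(j,k)(h_j - g_j) ≥ k` for `1 ≤ k ≤ d`. -/
noncomputable def cntP (d m : ℕ) : ℕ :=
  Set.ncard {gh : (Fin d → ℕ) × (Fin d → ℕ) | d ^ 2 + ∑ i : Fin d, ((i : ℕ) + 1) * (gh.1 i + gh.2 i) = m ∧
    ∀ k ∈ Finset.Icc 1 d, (k : ℤ) ≤ ∑ i : Fin d, ((min ((i : ℕ) + 1) k : ℕ) : ℤ) * ((gh.2 i : ℤ) - (gh.1 i : ℤ))}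

/-- A partition is graphical if its parts are the degrees of a finite simple graph. -/
def IsGraphical {m : ℕ} (p : Nat.Partition m) : Prop :=
  ∃ (G : SimpleGraph (Fin (Multiset.card p.parts))) (_ : DecidableRel G.Adj),
    (Finset.univ : Finset (Fin (Multiset.card p.parts))).val.map (fun v => G.degree v) = p.parts

/-- Probability that a uniformly random partition of `m` is graphical. -/
noncomputable def pg (m : ℕ) : ℝ :=
  (Nat.card {p : Nat.Partition m // IsGraphical p} : ℝ) / (Nat.card (Nat.Partition m) : ℝ)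

/-- Admissible families of increasing odd functions of one Laplace coordinate with variance of order
`A²/j²`. -/
structure Adm (φ : ℕ → ℝ → ℝ) (A : ℝ) (L : ℕ) (cv Cv κ : ℝ) : Prop where
  pos : 0 < A
  odd : ∀ j ∈ Finset.Icc 1 L, ∀ x, φ j (-x) = - φ j x
  mono : ∀ j ∈ Finset.Icc 1 L, Monotone (φ j)
  lo : ∀ j ∈ Finset.Icc 1 L, cv * A ^ 2 / (j : ℝ) ^ 2 ≤ ∫ x, (φ j x) ^ 2 ∂lap
  hi : ∀ j ∈ Finset.Icc 1 L, ∫ x, (φ j x) ^ 2 ∂lap ≤ Cv * A ^ 2 / (j : ℝ) ^ 2
  four : ∀ j ∈ Finset.Icc 1 L, ∫ x, (φ j x) ^ 4 ∂lap ≤ κ * A ^ 4 / (j : ℝ) ^ 4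
  int : ∀ j ∈ Finset.Icc 1 L, Integrable (fun x => (φ j x) ^ 4) lap

/-- The set `F` depends only on the coordinates in `I`. -/
def DepOn (I : Finset ℕ) (F : Set (ℕ → ℝ)) : Prop :=
  ∀ ω ω' : ℕ → ℝ, (∀ j ∈ I, ω j = ω' j) → ω ∈ F → ω' ∈ F

/-- The multiset `s` is the multiset of degrees of a finite simple graph. -/
def GrM (s : Multiset ℕ) : Prop :=
  ∃ (G : SimpleGraph (Fin (Multiset.card s))) (_ : DecidableRel G.Adj),
    (Finset.univ : Finset (Fin (Multiset.card s))).val.map (fun v => G.degree v) = s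

/-- The parts in the first `d` rows: `d + ∑_{l ≥ i} g_l`. -/
def topP (d : ℕ) (g : Fin d → ℕ) (i : Fin d) : ℕ :=
  d + ∑ l ∈ Finset.univ.filter (fun l : Fin d => i ≤ l), g l

/-- The multiset of parts of the partition with Durfee size `d` and data `(g, h)`. -/
def toP (d : ℕ) (g h : Fin d → ℕ) : Multiset ℕ :=
  (Finset.univ : Finset (Fin d)).val.map (topP d g) + ∑ l : Fin d, Multiset.replicate (h l) ((l : ℕ) + 1)

/-- `1/K` as an element of the unit interval. -/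
noncomputable def pK (K : ℕ) : unitInterval :=
  ⟨1 / (K : ℝ), by positivity, by
    rcases Nat.eq_zero_or_pos K with h | h
    · subst h; simp
    · rw [div_le_one (by exact_mod_cast h)]; exact_mod_cast h⟩

/-- Independent geometric variables on `{0,1,...}` with success probability `1/K`. -/
noncomputable def GG (K : ℕ) : Measure (ℕ → ℕ) :=
  Measure.infinitePi (fun _ : ℕ => geometricMeasure (pK K))

instance (K : ℕ) : IsProbabilityMeasure (GG K) := by unfold GG; infer_instance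

/-- Partial sums `S_j = ω_1 + ... + ω_j`. -/
noncomputable def S (ω : ℕ → ℝ) (j : ℕ) : ℝ := ∑ i ∈ Finset.Icc 1 j, ω i

/-- Times `τ_i = ∑_{l<i} (g_l + 1)`. -/
def tau (g : ℕ → ℕ) (i : ℕ) : ℕ := ∑ l ∈ Finset.range i, (g l + 1)

/-- The coarse sequence: `Z_0 = ω_0`, `Z_i = K^{-1/2} (S_{τ_i} - S_{τ_{i-1}})` for `i ≥ 1`. -/
noncomputable def Z (K : ℕ) (p : (ℕ → ℝ) × (ℕ → ℕ)) (i : ℕ) : ℝ :=
  if i = 0 then p.1 0 else (S p.1 (tau p.2 i) - S p.1 (tau p.2 (i - 1))) / Real.sqrt K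

end Pool.Agent.H174.GP
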