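import Pool.Agent.H174.GP.StB

open MeasureTheory ProbabilityTheory Finset

namespace Pool.Agent.H174.GP

/-- `t` dominates `s` (partial sums of the parts in nonincreasing order). -/
def DomM (s t : Multiset ℕ) : Prop :=
  ∀ k : ℕ, ((s.sort (· ≥ ·)).take k).sum ≤ ((t.sort (· ≥ ·)).take k).sum

/-- Probability that two independent uniformly random partitions of `n` are comparable. -/
noncomputable def rcomp (n : ℕ) : ℝ :=
  (Nat.card {pq : Nat.Partition n × Nat.Partition n //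
    DomM pq.1.parts pq.2.parts ∨ DomM pq.2.parts pq.1.parts} : ℝ) / (Nat.card (Nat.Partition n) : ℝ) ^ 2

/-- Number of pairs (`λ` with Durfee size `d`, `μ` with Durfee size `d'`) of partitions of `n`, `λ`
dominating `μ`. -/
noncomputable def cntD (d d' n : ℕ) : ℕ :=
  Set.ncard {q : ((Fin d → ℕ) × (Fin d → ℕ)) × ((Fin d' → ℕ) × (Fin d' → ℕ)) |
    d ^ 2 + ∑ i : Fin d, ((i : ℕ) + 1) * (q.1.1 i + q.1.2 i) = n ∧
    d' ^ 2 + ∑ i : Fin d', ((i : ℕ) + 1) * (q.2.1 i + q.2.2 i) = n ∧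
    DomM (toP d' q.2.1 q.2.2) (toP d q.1.1 q.1.2)}

/-- Geometric variables `g_j = ⌊|ω_j|/(σj)⌋` with parameter `e^{-σj}`. -/
noncomputable def gs (σ : ℝ) (ω : ℕ → ℝ) (j : ℕ) : ℕ := ⌊|ω j| / (σ * j)⌋₊

/-- The same as a function on `Fin d` (`i ↦ g_{i+1}`). -/
noncomputable def gF (d : ℕ) (σ : ℝ) (ω : ℕ → ℝ) (i : Fin d) : ℕ := gs σ ω ((i : ℕ) + 1)

/-- `∏_{j≤d} 1/(1-e^{-σj})`. -/
noncomputable def Zf (d : ℕ) (σ : ℝ) : ℝ := ∏ j ∈ Finset.Icc 1 d, (1 / (1 - Real.exp (-(σ * j))))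

/-- `a2 d σ m = P(∑_{j≤d} j (g_j + h_j) = m)`, `g_j, h_j` independent geometric, parameter `e^{-σj}`. -/
noncomputable def a2 (d : ℕ) (σ : ℝ) (m : ℤ) : ℝ :=
  if 0 ≤ m then ∑ j ∈ Finset.range (m.toNat + 1), aa d (σ / 2) j * aa d (σ / 2) (m - j) else 0

/-- Four independent sequences: `((ω1, ω2), (ω3, ω4))`. -/
noncomputable def Q4 : Measure (((ℕ → ℝ) × (ℕ → ℝ)) × ((ℕ → ℝ) × (ℕ → ℝ))) := (PP.prod PP).prod (PP.prod PP)

instance : IsProbabilityMeasure Q4 := by unfold Q4; infer_instance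

/-- The set `F` of pairs of integer valued sequences depends only on the coordinates `1..N`. -/
def DepZ {α β : Type} (N : ℕ) (F : Set ((ℕ → α) × (ℕ → β))) : Prop :=
  ∀ p p' : (ℕ → α) × (ℕ → β), (∀ j ∈ Finset.Icc 1 N, p.1 j = p'.1 j ∧ p.2 j = p'.2 j) → p ∈ F → p' ∈ F

/-- The pair `(X_i, X_{i+D})` is `(1,-1)` or `(-1,1)`. -/
def prD (D : ℕ) (σ : ℝ) (ω : ℕ → ℝ) (i : ℕ) : Prop :=
  (geo σ ω i = 1 ∧ geo σ ω (i + D) = -1) ∨ (geo σ ω i = -1 ∧ geo σ ω (i + D) = 1)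

open Classical in
/-- Indices `i ∈ (D,2D]` of flippable pairs. -/
noncomputable def IP (D : ℕ) (σ : ℝ) (ω : ℕ → ℝ) : Finset ℕ :=
  (Finset.Ioc D (2 * D)).filter (fun i => prD D σ ω i)

open Classical in
/-- `X` with the flippable pairs `(i, i+D)`, `i ∈ (D,2D]`, replaced by `(0,0)`. -/
noncomputable def X0 (D : ℕ) (σ : ℝ) (ω : ℕ → ℝ) (j : ℕ) : ℤ :=
  if j ∈ IP D σ ω ∨ (D ≤ j ∧ j - D ∈ IP D σ ω) then 0 else geo σ ω j

/-- Fair sign. -/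
noncomputable def sg (x : ℝ) : ℤ := if 0 ≤ x then 1 else -1

open Classical in
/-- `X` with the flippable pairs replaced by `(-ε_i, ε_i)`, `ε_i = sg (ω''_i)`. -/
noncomputable def XT (D : ℕ) (σ : ℝ) (p : (ℕ → ℝ) × (ℕ → ℝ)) (j : ℕ) : ℤ :=
  if j ∈ IP D σ p.1 then - sg (p.2 j) else
    if D ≤ j ∧ j - D ∈ IP D σ p.1 then sg (p.2 (j - D)) else geo σ p.1 j

end Pool.Agent.H174.GP
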