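import Pool.Agent.H174.GP.Special

/-!
# All prefixes of generalized pseudostandard words are levels
-/

namespace Pool.Agent.H174.GP

def GoodAny (s : St) (P : List Bool) (th : Bool) (lam : Ty → List Bool) : Prop :=
  (∃ k, P = List.replicate k false ∧ th = false ∧ GoodI s k lam) ∨ GoodR s P th lam

theorem GoodAny.lv {s : St} {P : List Bool} {th : Bool} {lam : Ty → List Bool}
    (h : GoodAny s P th lam) : Lv s P th lam := by
  rcases h with ⟨k, rfl, rfl, h⟩ | h
  · exact h.lv
  · exact h.lv

theorem GoodAny.step {s : St} {P : List Bool} {th : Bool} {lam : Ty → List Bool}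
    (h : GoodAny s P th lam) {f0 : Ty} (hf0 : Bs s f0 = true) :
    GoodAny (nx s f0) (P ++ lam f0) (th ^^ f0.2) (lam' lam f0 (blk s f0)) := by
  rcases h with ⟨k, rfl, rfl, h⟩ | h
  · have hcases : f0 = (false, false) ∨ f0 = (true, true) ∨ (s = .s2 ∧ f0 = (true, false)) := by
      rcases h.hs with ⟨rfl, rfl⟩ | ⟨rfl, hk⟩ <;> rcases f0 with ⟨_ | _, _ | _⟩ <;>
        simp_all [Bs]
    rcases hcases with rfl | rfl | ⟨rfl, rfl⟩
    · left
      refine ⟨k + 1, ?_, rfl, ?_⟩
      · rw [h.l00, List.replicate_succ']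
      · have hnx : nx s (false, false) = .s2 := by
          rcases h.hs with ⟨rfl, rfl⟩ | ⟨rfl, hk⟩ <;> rfl
        rw [hnx]
        exact h.step0
    · right
      have hnx : nx s (true, true) = .s3 := by
        rcases h.hs with ⟨rfl, rfl⟩ | ⟨rfl, hk⟩ <;> rfl
      rw [hnx]
      exact h.step3
    · right
      exact h.step4
  · right
    exact h.step hf0

theorem GoodAny.closure {s : St} {P : List Bool} {th : Bool} {lam : Ty → List Bool}
    (h : GoodAny s P th lam) (t a : Bool) :
    ∃ s' P2 th2 lam2, GoodAny s' P2 th2 lam2 ∧ pclosure t (P ++ [a]) = P2 := by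
  have h1 := h.lv.clos (a, th ^^ t)
  have h2 : (th ^^ (a, th ^^ t).2) = t := by cases th <;> cases t <;> rfl
  rw [h2] at h1
  simp only at h1
  rw [h1]
  set f : Ty := (a, th ^^ t) with hf
  cases hB : Bs s f with
  | true =>
    refine ⟨_, _, _, _, h.step hB, ?_⟩
    rw [Bs_cp s f hB]; simp
  | false =>
    have hcases : (cp s f = [(f.1, true), (f.1, true)] ∧ Bs s (f.1, true) = true ∧
        Bs (nx s (f.1, true)) (!f.1, true) = true) ∨
        (cp s f = [(false, false), (true, true), (false, false)] ∧ Bs s (false, false) = true ∧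
        nx s (false, false) = .s2 ∧ blk s (false, false) (true, true) = [(true, true)]) := by
      revert hB
      generalize f = g
      rcases s with _ | _ | _ | _ | c <;> rcases g with ⟨_ | _, _ | _⟩ <;>
        first | (cases c <;> decide) | decide
    rcases hcases with ⟨e1, e2, e3⟩ | ⟨e1, e2, e3, e4⟩
    · have g1 := h.step e2
      have g2 := g1.step e3
      refine ⟨_, _, _, _, g2, ?_⟩
      rw [e1]
      have hb : blk s (f.1, true) (!f.1, true) = [] := by simp [blk]
      rw [lam', hb]
      simp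
    · have g1 := h.step e2
      have e5 : Bs (nx s (false, false)) (true, true) = true := by rw [e3]; rfl
      have g2 := g1.step e5
      refine ⟨_, _, _, _, g2, ?_⟩
      rw [e1, lam', e4]
      simp

/-- the edges of the first level -/
def lam1 (f : Ty) : List Bool := [f.1]

theorem gr1 : Gr (Bs .s1) [false] lam1 := by
  refine ⟨by simp, ?_, ?_, ?_, ?_⟩
  · intro f _; exact ⟨[], rfl⟩
  · rintro ⟨_ | _, _ | _⟩ hf
    · exact ⟨[false], rfl⟩
    · simp [Bs] at hf
    · simp [Bs] at hf
    · exact ⟨[false], rfl⟩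
  · intro f _ b A C h
    have := congrArg List.length h
    simp [lam1] at this
    by_contra hh
    push Not at hh
    have h1 := List.length_pos_of_ne_nil hh.1
    have h2 := List.length_pos_of_ne_nil hh.2
    omega
  · rintro ⟨_ | _, _ | _⟩ ⟨_ | _, _ | _⟩ h1 h2 h3 <;> simp_all [Bs, lam1]

theorem pclosure_eq_dec (t : Bool) (w : List Bool) (i : ℕ)
    (h : decide (anti t (w.drop i) = w.drop i) = true)
    (h' : ∀ j < i, decide (anti t (w.drop j) = w.drop j) = false) :
    pclosure t w = w ++ anti t (w.take i) :=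
  pclosure_eq_of t w i (of_decide_eq_true h) (fun j hj => of_decide_eq_false (h' j hj))

theorem lv1 : Lv .s1 [false] false lam1 := by
  refine ⟨gr1, rfl, ?_⟩
  rintro ⟨_ | _, _ | _⟩
  · exact pclosure_eq_dec false [false, false] 0 (by decide) (by decide)
  · exact pclosure_eq_dec true [false, false] 2 (by decide) (by decide)
  · exact pclosure_eq_dec false [false, true] 1 (by decide) (by decide)
  · exact pclosure_eq_dec true [false, true] 0 (by decide) (by decide)

theorem good1 : GoodI .s1 1 lam1 := by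
  refine ⟨Or.inl ⟨rfl, rfl⟩, lv1, rfl, rfl, fun h => absurd h (by decide), ?_, ?_⟩
  · intro v hlen _
    rcases List.eq_nil_or_concat v with rfl | ⟨u, k, rfl⟩
    · simp at hlen
    · refine ⟨k, Or.inl (Or.inr ?_)⟩
      rw [List.concat_eq_append]
      have : xw k (List.replicate 1 false) = [k] := by cases k <;> rfl
      rw [this]
      exact List.suffix_append _ _
  · intro n h1 h2
    have hn : n = 1 := by omega
    subst hn
    have := cnt_le_of_suffix (Full (Bs .s1) (List.replicate 1 false) lam1) 1 [[false]] (by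
      intro v hv _
      obtain ⟨x, rfl⟩ := List.length_eq_one_iff.1 hv
      exact ⟨[false], by simp, x, by cases x <;> exact List.suffix_refl _⟩)
    simp only [List.length_singleton, mul_one] at this
    omega

theorem closure_first (t a : Bool) :
    ∃ s P th lam, GoodAny s P th lam ∧ pclosure t [a] = xw a P := by
  have g1 : GoodAny .s1 [false] false lam1 := Or.inl ⟨1, rfl, rfl, good1⟩
  have h1 : ([a] : List Bool) = xw a [false] := by cases a <;> rfl
  cases t with
  | false =>
    refine ⟨_, _, _, _, g1, ?_⟩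
    rw [h1, pclosure_xw]
    congr 1
    exact pclosure_eq_dec false [false] 0 (by decide) (by decide)
  | true =>
    refine ⟨_, _, _, _, g1.step (f0 := (true, true)) rfl, ?_⟩
    rw [h1, pclosure_xw]
    congr 1
    exact pclosure_eq_dec true [false] 1 (by decide) (by decide)

/-- The prefixes are levels. -/
theorem levels (Δ Θ : ℕ → Bool) (w : ℕ → List Bool) (h0 : w 0 = [])
    (hw : ∀ k, w (k + 1) = pclosure (Θ k) (w k ++ [Δ k])) (m : ℕ) :
    ∃ s P th lam b, GoodAny s P th lam ∧ w (m + 1) = xw b P := by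
  induction m with
  | zero =>
    obtain ⟨s, P, th, lam, h1, h2⟩ := closure_first (Θ 0) (Δ 0)
    refine ⟨s, P, th, lam, Δ 0, h1, ?_⟩
    rw [hw, h0]
    exact h2
  | succ m ih =>
    obtain ⟨s, P, th, lam, b, h1, h2⟩ := ih
    obtain ⟨s', P2, th2, lam2, h3, h4⟩ := h1.closure (Θ (m + 1)) (b ^^ Δ (m + 1))
    refine ⟨s', P2, th2, lam2, b, h3, ?_⟩
    rw [hw, h2, ← h4, ← pclosure_xw]
    congr 1
    rw [xw_append]
    simp

theorem GoodAny.count {s : St} {P : List Bool} {th : Bool} {lam : Ty → List Bool}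
    (h : GoodAny s P th lam) (n : ℕ) (h1 : 1 ≤ n) (h2 : n ≤ P.length) :
    cnt (Full (Bs s) P lam) n + 4 ≤ 6 * n := by
  rcases h with ⟨k, rfl, rfl, h⟩ | h
  · have := h.cn n h1 (by simpa using h2)
    omega
  · exact h.cn n h1 h2

/-- The number of factors of length `n` of a prefix. -/
theorem factor_count (Δ Θ : ℕ → Bool) (w : ℕ → List Bool) (h0 : w 0 = [])
    (hw : ∀ k, w (k + 1) = pclosure (Θ k) (w k ++ [Δ k])) (m n : ℕ) (h1 : 1 ≤ n)
    (h2 : n ≤ (w (m + 1)).length) :
    cnt (fun v => v <:+: w (m + 1)) n + 4 ≤ 6 * n := by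
  obtain ⟨s, P, th, lam, b, h3, h4⟩ := levels Δ Θ w h0 hw m
  rw [h4, xw_length] at h2
  have h5 := h3.count n h1 h2
  have h6 : cnt (fun v => v <:+: w (m + 1)) n ≤ cnt (Full (Bs s) P lam) n := by
    apply cnt_mono
    intro v hv
    refine ⟨b, [], by simp, ?_⟩
    rw [h4] at hv
    simpa [pw] using hv
  omega

end Pool.Agent.H174.GP
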