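import Pool.Agent.H174.GP.Regular

/-!
# The initial steps and the invariants
-/

namespace Pool.Agent.H174.GP

/-- The invariant for the levels `0^k`. -/
structure GoodI (s : St) (k : ℕ) (lam : Ty → List Bool) : Prop where
  hs : (s = .s1 ∧ k = 1) ∨ (s = .s2 ∧ 2 ≤ k)
  lv : Lv s (List.replicate k false) false lam
  l00 : lam (false, false) = [false]
  l11 : lam (true, true) = List.replicate k true
  l10 : s = .s2 → lam (true, false) = true :: List.replicate k false
  hyp : Hyp (Bs s) (List.replicate k false) lam (act s) (fun _ => [true])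
  cn : ∀ n, 1 ≤ n → n ≤ k → cnt (Full (Bs s) (List.replicate k false) lam) n + 2 ≤ 4 * n

/-- The invariant for the other levels. -/
structure GoodR (s : St) (P : List Bool) (th : Bool) (lam : Ty → List Bool) : Prop where
  hs : s ≠ .s1 ∧ s ≠ .s2
  lv : Lv s P th lam
  hyp : ∃ q, Qp (Bs s) lam (act s) q ∧ Hyp (Bs s) P lam (act s) q
  cn : ∀ n, 1 ≤ n → n ≤ P.length → cnt (Full (Bs s) P lam) n + 4 ≤ 6 * n

theorem GoodR.step {s : St} {P : List Bool} {th : Bool} {lam : Ty → List Bool}
    (h : GoodR s P th lam) {f0 : Ty} (hf0 : Bs s f0 = true) :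
    GoodR (nx s f0) (P ++ lam f0) (th ^^ f0.2) (lam' lam f0 (blk s f0)) := by
  obtain ⟨q, hq, hH⟩ := h.hyp
  have hs' : ¬ (s = .s2 ∧ f0 = (true, false)) := fun hh => h.hs.2 hh.1
  have hsub : ∀ v, Full (Bs (nx s f0)) (P ++ lam f0) (lam' lam f0 (blk s f0)) v →
      Full (Bs s) P lam v := Full.sub hf0 (tbl1 s f0 hf0) (fun f _ => tbl3 s f0 hf0 f)
  have hP : 1 ≤ P.length := by
    have := h.lv.gr.ne
    rcases P with _ | ⟨x, P⟩
    · exact absurd rfl this
    · simp
  refine ⟨?_, h.lv.step hf0, ⟨_, gQp h.lv.gr hf0 h.hs hq, ghyp h.lv.gr hf0 hs' hq hH⟩, ?_⟩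
  · obtain ⟨h1, h2⟩ := h.hs
    rcases s with _ | _ | _ | _ | c
    · exact absurd rfl h1
    · exact absurd rfl h2
    all_goals
      simp only [nx]
      cases f0.2 <;> simp
  · intro n h1 h2
    by_cases hn : n ≤ P.length
    · have := h.cn n h1 hn
      have := cnt_mono hsub n
      omega
    · push Not at hn
      have h3 := h.cn P.length hP le_rfl
      have h4 := cnt_mono hsub P.length
      have h5 := cnt_range (Full (Bs (nx s f0)) (P ++ lam f0) (lam' lam f0 (blk s f0)))
        Full.left P.length 6 n hn.le
        (fun i hi1 hi2 => gcount h.lv.gr hf0 hs' hq hH i hi1 (by omega))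
      omega

theorem GoodI.qp {s : St} {k : ℕ} {lam : Ty → List Bool} (h : GoodI s k lam) :
    Qp (Bs s) lam (act s) (fun _ => [true]) := by
  rcases h.hs with ⟨rfl, rfl⟩ | ⟨rfl, hk⟩
  · constructor
    · intro a ha hB
      exfalso
      cases a <;> simp [act, Bs] at ha hB
    · intro a ha hB
      cases a
      · simp [act] at ha
      · exact ⟨rfl, by rw [h.l11]; rfl⟩
  · constructor
    · intro a ha hB
      cases a
      · simp [act] at ha
      · obtain ⟨k', rfl⟩ : ∃ k', k = k' + 2 := ⟨k - 2, by omega⟩
        refine ⟨rfl, false, List.replicate (k' + 1) false, List.replicate k' true, ?_, ?_⟩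
        · rw [h.l10 rfl]; rfl
        · rw [h.l11]; rfl
    · intro a ha hB
      exfalso
      cases a <;> simp [act, Bs] at ha hB

theorem GoodI.b00 {s : St} {k : ℕ} {lam : Ty → List Bool} (h : GoodI s k lam) :
    Bs s (false, false) = true := by
  rcases h.hs with ⟨rfl, rfl⟩ | ⟨rfl, hk⟩ <;> rfl

theorem GoodI.b11 {s : St} {k : ℕ} {lam : Ty → List Bool} (h : GoodI s k lam) :
    Bs s (true, true) = true := by
  rcases h.hs with ⟨rfl, rfl⟩ | ⟨rfl, hk⟩ <;> rfl

theorem GoodI.actf {s : St} {k : ℕ} {lam : Ty → List Bool} (h : GoodI s k lam) (a : Bool) :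
    act s a = a := by
  rcases h.hs with ⟨rfl, rfl⟩ | ⟨rfl, hk⟩ <;> rfl

theorem GoodI.step0 {s : St} {k : ℕ} {lam : Ty → List Bool} (h : GoodI s k lam) :
    GoodI .s2 (k + 1) (lam' lam (false, false) (blk s (false, false))) := by
  have hnx : nx s (false, false) = .s2 := by
    rcases h.hs with ⟨rfl, rfl⟩ | ⟨rfl, hk⟩ <;> rfl
  have hP : List.replicate k false ++ lam (false, false) = List.replicate (k + 1) false := by
    rw [h.l00, List.replicate_succ']
  have hs' : ¬ (s = .s2 ∧ (false, false) = ((true, false) : Ty)) := by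
    rintro ⟨-, hh⟩; exact Bool.noConfusion (congrArg Prod.fst hh)
  have hk1 : 1 ≤ k := by rcases h.hs with ⟨-, rfl⟩ | ⟨-, hk⟩ <;> omega
  have hlv := h.lv.step h.b00
  have hsub := Full.sub (P := List.replicate k false) (lam := lam) h.b00
    (tbl1 s _ h.b00) (fun f _ => tbl3 s _ h.b00 f)
  have hhyp := ghyp h.lv.gr h.b00 hs' h.qp h.hyp
  have hgs := gstep h.lv.gr h.b00 hs' h.qp h.hyp
  rw [hnx, hP] at hlv hhyp
  simp only [hnx, hP] at hsub hgs
  refine ⟨Or.inr ⟨rfl, by omega⟩, ?_, ?_, ?_, ?_, ?_, ?_⟩
  · simpa using hlv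
  · have hb : blk s (false, false) (false, false) = [] := by simp [blk]
    rw [lam', hb]
    simp [h.l00]
  · have hb : blk s (false, false) (true, true) = [(true, true)] := by
      rcases h.hs with ⟨rfl, rfl⟩ | ⟨rfl, hk⟩ <;> rfl
    rw [lam', hb]
    simp [h.l00, h.l11, List.replicate_succ']
  · intro _
    rcases h.hs with ⟨rfl, rfl⟩ | ⟨rfl, hk⟩
    · have hb : blk .s1 (false, false) (true, false) = [(true, true), (true, true)] := rfl
      rw [lam', hb]
      simp [h.l00, h.l11, List.replicate_succ]
    · have hb : blk .s2 (false, false) (true, false) = [(true, false)] := rfl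
      rw [lam', hb]
      simp [h.l00, h.l10 rfl, List.replicate_succ']
  · exact hhyp
  · intro n h1 h2
    by_cases hn : n ≤ k
    · have := h.cn n h1 hn
      have := cnt_mono hsub n
      omega
    · have hnk : n = k + 1 := by omega
      subst hnk
      have h3 := h.cn k hk1 le_rfl
      have h4 := cnt_mono hsub k
      have h5 := cnt_succ (Full (Bs .s2) (List.replicate (k + 1) false)
        (lam' lam (false, false) (blk s (false, false)))) Full.left k
      have h6 := cnt_le_of_suffix (fun v => RS (Bs .s2) (List.replicate (k + 1) false)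
        (lam' lam (false, false) (blk s (false, false))) v) k
        [List.replicate (k + 1) false, List.replicate (k + 1) false ++ [true]] (by
          intro v hvn hv
          obtain ⟨b, h1 | ⟨-, h1⟩ | ⟨h2, -⟩ | ⟨h2, -⟩⟩ := hgs v (by simp [hvn]) hv
          · refine ⟨_, List.mem_cons_self, b, suffix_of_cmp h1 ?_⟩
            rw [xw_length, List.length_replicate]; omega
          · refine ⟨_, List.mem_cons_of_mem _ List.mem_cons_self, b, ?_⟩
            have : xw false [true] = [true] := rfl
            rw [this] at h1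
            refine suffix_of_cmp h1 ?_
            rw [xw_length, List.length_append, List.length_replicate]; omega
          · rw [h.actf] at h2; exact Bool.noConfusion h2
          · rw [h.actf] at h2; exact Bool.noConfusion h2)
      have h7 : cnt (fun v => ∀ k_1, Full (Bs .s2) (List.replicate (k + 1) false)
        (lam' lam (false, false) (blk s (false, false))) (v ++ [k_1])) k ≤ 4 := h6
      omega

theorem GoodI.step3 {s : St} {k : ℕ} {lam : Ty → List Bool} (h : GoodI s k lam) :
    GoodR .s3 (List.replicate k false ++ lam (true, true)) true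
      (lam' lam (true, true) (blk s (true, true))) := by
  have hnx : nx s (true, true) = .s3 := by
    rcases h.hs with ⟨rfl, rfl⟩ | ⟨rfl, hk⟩ <;> rfl
  have hs' : ¬ (s = .s2 ∧ (true, true) = ((true, false) : Ty)) := by
    rintro ⟨-, hh⟩; exact Bool.noConfusion (congrArg Prod.snd hh)
  have hk1 : 1 ≤ k := by rcases h.hs with ⟨-, rfl⟩ | ⟨-, hk⟩ <;> omega
  have hlv := h.lv.step h.b11
  have hsub := Full.sub (P := List.replicate k false) (lam := lam) h.b11
    (tbl1 s _ h.b11) (fun f _ => tbl3 s _ h.b11 f)
  have hgs := gstep h.lv.gr h.b11 hs' h.qp h.hyp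
  have hgc := gcount h.lv.gr h.b11 hs' h.qp h.hyp
  rw [hnx] at hlv
  simp only [hnx] at hsub hgs hgc
  refine ⟨by simp, ?_, ⟨fun a => lam' lam (true, true) (blk s (true, true)) (a, true), ?_, ?_⟩,
    ?_⟩
  · simpa using hlv
  · constructor
    · intro a _ hB
      simp [Bs] at hB
    · intro a _ _
      exact ⟨rfl, rfl⟩
  · intro v hlen hv
    have hl : (List.replicate k false).length ≤ v.length := by
      rw [List.length_append] at hlen; omega
    obtain ⟨b, h1 | ⟨ha, h1⟩ | ⟨ha, h2, h1⟩ | ⟨ha, h2, h1⟩⟩ := hgs v hl hv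
    · exact ⟨b, Or.inl h1⟩
    · rw [h.actf] at ha; exact Bool.noConfusion ha
    · exact Bool.noConfusion h2
    · refine ⟨b, Or.inl ?_⟩
      have hp := h.qp.prefix0 h.b11 ha
      have h3 : xw b (List.replicate k false ++ [true]) = v := by
        symm
        apply List.IsSuffix.eq_of_length_le h1
        have := hp.length_le
        rw [xw_length, List.length_append]
        rw [List.length_append] at hlen
        omega
      have h4 : [true] = lam (true, true) := by
        apply List.IsPrefix.eq_of_length_le hp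
        have := congrArg List.length h3
        rw [xw_length, List.length_append] at this
        rw [List.length_append] at hlen
        omega
      left
      rw [← h3, h4]
  · intro n h1 h2
    by_cases hn : n ≤ k
    · have := h.cn n h1 hn
      have := cnt_mono hsub n
      omega
    · push Not at hn
      have h3 := h.cn k hk1 le_rfl
      have h4 := cnt_mono hsub k
      have h5 := cnt_range (Full (Bs .s3) (List.replicate k false ++ lam (true, true))
        (lam' lam (true, true) (blk s (true, true))))
        Full.left k 6 n hn.le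
        (fun i hi1 hi2 => hgc i (by simpa using hi1) (by omega))
      omega

end Pool.Agent.H174.GP
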