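import Pool.Agent.H174.GP.Step

/-!
# Levels: the closures of the prefixes of generalized pseudostandard words
-/

namespace Pool.Agent.H174.GP

structure Lv (s : St) (P : List Bool) (th : Bool) (lam : Ty → List Bool) : Prop where
  gr : Gr (Bs s) P lam
  pal : anti th P = P
  clos : ∀ f : Ty, pclosure (th ^^ f.2) (P ++ [f.1]) = P ++ real lam false (cp s f)

theorem Lv.edge_pal {s : St} {P : List Bool} {th : Bool} {lam : Ty → List Bool}
    (h : Lv s P th lam) {f : Ty} (hf : Bs s f = true) :
    anti (th ^^ f.2) (P ++ lam f) = P ++ lam f := by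
  have h1 := h.clos f
  rw [Bs_cp s f hf] at h1
  simp at h1
  rw [← h1]
  exact pclosure_pal _ _

theorem Lv.step {s : St} {P : List Bool} {th : Bool} {lam : Ty → List Bool}
    (h : Lv s P th lam) {f0 : Ty} (hf0 : Bs s f0 = true) :
    Lv (nx s f0) (P ++ lam f0) (th ^^ f0.2) (lam' lam f0 (blk s f0)) := by
  have hgr := h.gr.step hf0 (Bs (nx s f0)) (blk s f0) (tbl1 s f0 hf0)
    (fun f g hf hg => tbl2 s f0 hf0 f g hf hg) (fun f _ => tbl3 s f0 hf0 f)
    (fun f _ => tbl4 s f0 hf0 f)
  have hpal := h.edge_pal hf0
  refine ⟨hgr, hpal, ?_⟩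
  intro f
  -- the decomposition `P' = A ++ Y`
  obtain ⟨w, hw⟩ := h.gr.head f0 hf0
  set t' := (th ^^ f0.2) ^^ f.2 with ht'
  set A := anti (th ^^ f0.2) (lam f0) with hA
  set Y := xw f0.2 P with hY
  have hAY : P ++ lam f0 = A ++ Y := by
    rw [← hpal, anti_append]
    congr 1
    rw [anti_eq_xw _ th, h.pal]
    congr 1
    cases th <;> cases f0.2 <;> rfl
  have hAlen : A.length = (lam f0).length := by simp [hA]
  have hA' : A = anti (th ^^ f0.2) w ++ [(th ^^ f0.2) ^^ f0.1] := by
    rw [hA, hw, anti_cons]
  have hY' : anti t' Y = xw f.2 P := by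
    rw [hY, anti_xw, anti_eq_xw _ th, h.pal, xw_xw]
    congr 1
    rw [ht']
    cases th <;> cases f0.2 <;> cases f.2 <;> rfl
  have hantiA : anti t' A = xw f.2 (lam f0) := by
    have h1 : anti t' (A ++ Y) = xw f.2 (P ++ lam f0) := by
      rw [← hAY, anti_eq_xw _ (th ^^ f0.2), hpal]
      congr 1
      rw [ht']
      cases th <;> cases f0.2 <;> cases f.2 <;> rfl
    rw [anti_append, hY', xw_append] at h1
    exact List.append_cancel_left h1
  -- pseudopalindromic suffixes starting early
  have early : ∀ j, j < A.length →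
      anti t' ((A ++ (Y ++ [f.1])).drop j) = (A ++ (Y ++ [f.1])).drop j →
      j + 1 = A.length ∧ f = (f0.2 ^^ f0.1, f0.2) := by
    intro j hj hpj
    obtain ⟨x, A2, hx⟩ : ∃ x A2, A.drop j = x :: A2 := by
      cases hd : A.drop j with
      | nil => exfalso; have := congrArg List.length hd; simp at this; omega
      | cons x A2 => exact ⟨x, A2, rfl⟩
    have hd : (A ++ (Y ++ [f.1])).drop j = x :: ((A2 ++ Y) ++ [f.1]) := by
      rw [List.drop_append_of_le_length (by omega), hx]
      simp
    rw [hd] at hpj
    have h2 : anti t' (x :: ((A2 ++ Y) ++ [f.1])) =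
        (t' ^^ f.1) :: (anti t' (A2 ++ Y) ++ [t' ^^ x]) := by
      rw [anti_cons, anti_append, anti_singleton]; simp
    rw [h2] at hpj
    simp only [List.cons.injEq] at hpj
    obtain ⟨e1, e2⟩ := hpj
    have e3 : anti t' (A2 ++ Y) = A2 ++ Y := List.append_inj_left' e2 (by simp)
    have hA3 : A = A.take (j + 1) ++ A2 := by
      have : A.drop (j + 1) = A2 := by
        rw [← List.drop_drop, hx]; rfl
      rw [← this, List.take_append_drop]
    -- occurrence of `anti t' Y`
    have h3 : P ++ lam f0 = A.take (j + 1) ++ (xw f.2 P ++ anti t' A2) := by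
      rw [hAY]
      conv_lhs => rw [hA3, List.append_assoc, ← e3, anti_append, hY']
    rcases h.gr.sync f0 hf0 _ _ _ h3 with h4 | h4
    · exfalso
      have := congrArg List.length h4
      simp only [List.length_take, List.length_nil] at this
      omega
    · have hA2 : A2 = [] := by
        have := congrArg List.length h4
        simpa using this
      subst hA2
      have hj1 : j + 1 = A.length := by
        have := congrArg List.length hx
        simp at this
        omega
      refine ⟨hj1, ?_⟩
      simp only [List.nil_append] at e3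
      rw [hY', hY] at e3
      have h6 := h.gr.xw_P_inj e3
      -- the last letter of `A`
      have h7 : x = ((th ^^ f0.2) ^^ f0.1) := by
        have h8 : A = A.take j ++ [x] := by
          rw [← hx, List.take_append_drop]
        rw [hA'] at h8
        have h9 := congrArg List.getLast? h8
        simpa using h9.symm
      have h10 : f.1 = (f0.2 ^^ f0.1) := by
        rw [h7] at e1
        rw [ht', h6] at e1
        revert e1
        cases th <;> cases f0.2 <;> cases f0.1 <;> cases f.1 <;> simp
      exact Prod.ext h10 h6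
  have goal2 : P ++ lam f0 ++ real (lam' lam f0 (blk s f0)) false (cp (nx s f0) f) =
      A ++ (Y ++ real lam f0.2 (blk s f0 f ++ [f0])) := by
    rw [real_blow lam f0 (blk s f0) (B' := Bs (nx s f0)) (fun g _ => tbl3 s f0 hf0 g) _
      (tbl6 (nx s f0) f), ← tbl5 s f0 hf0 f, hAY]
    simp
  rw [goal2, hAY]
  by_cases hdir : f = (f0.2 ^^ f0.1, f0.2)
  · -- direct case
    have hb : blk s f0 f = [] := by simp [blk, hdir]
    have hf1 : f.1 = (f0.2 ^^ f0.1) := by rw [hdir]
    have hf2 : f.2 = f0.2 := by rw [hdir]
    have ht2 : t' = th := by rw [ht', hf2]; cases th <;> cases f0.2 <;> rfl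
    have hsplit : A ++ Y ++ [f.1] =
        anti (th ^^ f0.2) w ++ ([(th ^^ f0.2) ^^ f0.1] ++ Y ++ [f.1]) := by
      rw [hA']; simp
    rw [hsplit, pclosure_append]
    · have hz : anti t' ([(th ^^ f0.2) ^^ f0.1] ++ Y ++ [f.1]) =
          [(th ^^ f0.2) ^^ f0.1] ++ Y ++ [f.1] := by
        rw [anti_append, anti_append, hY', anti_singleton, anti_singleton, hY, hf2, hf1, ht2]
        have e1 : (th ^^ (f0.2 ^^ f0.1)) = ((th ^^ f0.2) ^^ f0.1) := by
          cases th <;> cases f0.2 <;> cases f0.1 <;> rfl
        have e2 : (th ^^ ((th ^^ f0.2) ^^ f0.1)) = (f0.2 ^^ f0.1) := by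
          cases th <;> cases f0.2 <;> cases f0.1 <;> rfl
        rw [e1, e2]; simp
      rw [pclosure_of_pal _ _ hz, hb]
      have h11 : anti t' A = f.1 :: anti t' (anti (th ^^ f0.2) w) := by
        rw [hA', anti_append, anti_singleton, ht2, hf1]
        have e2 : (th ^^ ((th ^^ f0.2) ^^ f0.1)) = (f0.2 ^^ f0.1) := by
          cases th <;> cases f0.2 <;> cases f0.1 <;> rfl
        rw [e2]; rfl
      have h12 : real lam f0.2 ([] ++ [f0]) = f.1 :: anti t' (anti (th ^^ f0.2) w) := by
        rw [← h11, hantiA, hf2]; simp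
      rw [h12, hA']; simp
    · intro j hj hpj
      have hjA : j < A.length := by
        rw [hA', List.length_append]
        exact Nat.lt_of_lt_of_le hj (Nat.le_add_right _ _)
      rw [← hsplit, List.append_assoc] at hpj
      have := (early j hjA hpj).1
      rw [hA', List.length_append] at this
      simp at this
      simp at hj
      omega
  · -- the other case
    have hb : blk s f0 f = cp s (rel f0 f) := by simp [blk, hdir]
    rw [List.append_assoc, pclosure_append]
    · have h1 : Y ++ [f.1] = xw f0.2 (P ++ [(rel f0 f).1]) := by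
        rw [xw_append, hY]
        simp [rel]
      have h2 : t' = (th ^^ (rel f0 f).2) := by
        rw [ht']; simp only [rel]
        cases th <;> cases f0.2 <;> cases f.2 <;> rfl
      rw [hantiA, h1, h2, pclosure_xw, h.clos (rel f0 f), hb, real_append, tbl7]
      have h3 : (f0.2 ^^ (rel f0 f).2) = f.2 := by
        simp only [rel]
        cases f0.2 <;> cases f.2 <;> rfl
      rw [h3, xw_append, xw_real]
      simp [hY]
    · intro j hj hpj
      exact hdir (early j hj hpj).2

end Pool.Agent.H174.GP
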