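import Pool.Agent.H174.GP.Basic

/-!
# Path words over the level graph

A type is a pair (letter, flip).  `real lam b l` is the word read along the path with types `l`
starting at the vertex of parity `b`.
-/

namespace Pool.Agent.H174.GP

abbrev Ty := Bool × Bool

/-- total flip of a path -/
def fl : List Ty → Bool
  | [] => false
  | f :: l => f.2 ^^ fl l

@[simp] theorem fl_nil : fl [] = false := rfl
@[simp] theorem fl_cons (f : Ty) (l : List Ty) : fl (f :: l) = (f.2 ^^ fl l) := rfl
@[simp] theorem fl_append (l m : List Ty) : fl (l ++ m) = (fl l ^^ fl m) := by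
  induction l with
  | nil => simp
  | cons f l ih => simp [ih]

/-- the word read along a path -/
def real (lam : Ty → List Bool) : Bool → List Ty → List Bool
  | _, [] => []
  | b, f :: l => xw b (lam f) ++ real lam (b ^^ f.2) l

@[simp] theorem real_nil (lam : Ty → List Bool) (b : Bool) : real lam b [] = [] := rfl
@[simp] theorem real_cons (lam : Ty → List Bool) (b : Bool) (f : Ty) (l : List Ty) :
    real lam b (f :: l) = xw b (lam f) ++ real lam (b ^^ f.2) l := rfl

theorem real_append (lam : Ty → List Bool) (b : Bool) (l m : List Ty) :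
    real lam b (l ++ m) = real lam b l ++ real lam (b ^^ fl l) m := by
  induction l generalizing b with
  | nil => simp
  | cons f l ih => simp [ih]

theorem xw_real (lam : Ty → List Bool) (b c : Bool) (l : List Ty) :
    xw b (real lam c l) = real lam (b ^^ c) l := by
  induction l generalizing c with
  | nil => simp
  | cons f l ih => simp [ih]

/-- The path word: the starting vertex word followed by the word read along the path. -/
def pw (P : List Bool) (lam : Ty → List Bool) (b : Bool) (l : List Ty) : List Bool :=
  xw b P ++ real lam b l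

/-- The combinatorial properties of the level graph. -/
structure Gr (B : Ty → Bool) (P : List Bool) (lam : Ty → List Bool) : Prop where
  ne : P ≠ []
  head : ∀ f, B f = true → ∃ w, lam f = f.1 :: w
  edge : ∀ f, B f = true → ∃ A, P ++ lam f = A ++ xw f.2 P
  sync : ∀ f, B f = true → ∀ b A C, P ++ lam f = A ++ (xw b P ++ C) → A = [] ∨ C = []
  inc : ∀ f g, B f = true → B g = true → (P ++ lam f) <+: (P ++ lam g) → f = g

variable {B : Ty → Bool} {P : List Bool} {lam : Ty → List Bool}

theorem Gr.lam_ne (h : Gr B P lam) {f : Ty} (hf : B f = true) : lam f ≠ [] := by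
  obtain ⟨w, hw⟩ := h.head f hf
  simp [hw]

theorem Gr.edge' (h : Gr B P lam) {f : Ty} (hf : B f = true) :
    ∃ A : List Bool, A.length = (lam f).length ∧ P ++ lam f = A ++ xw f.2 P := by
  obtain ⟨A, hA⟩ := h.edge f hf
  refine ⟨A, ?_, hA⟩
  have := congrArg List.length hA
  simp at this
  omega

/-- A path word decomposed at its first edge. -/
theorem Gr.pw_cons (h : Gr B P lam) {f : Ty} (hf : B f = true) (b : Bool) (l : List Ty) :
    ∃ A : List Bool, A.length = (lam f).length ∧ xw b P ++ xw b (lam f) = A ++ xw (b ^^ f.2) P ∧
      pw P lam b (f :: l) = A ++ pw P lam (b ^^ f.2) l := by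
  obtain ⟨A, hA, hA'⟩ := h.edge' hf
  have h2 : xw b P ++ xw b (lam f) = xw b A ++ xw (b ^^ f.2) P := by
    rw [← xw_append, hA', xw_append, xw_xw]
  refine ⟨xw b A, by simp [hA], h2, ?_⟩
  unfold pw
  rw [real_cons, ← List.append_assoc, h2, List.append_assoc]

/-- A path word ends with its last vertex. -/
theorem Gr.pw_end (h : Gr B P lam) (b : Bool) (l : List Ty) (hl : ∀ f ∈ l, B f = true) :
    ∃ A : List Bool, pw P lam b l = A ++ xw (b ^^ fl l) P := by
  induction l generalizing b with
  | nil => exact ⟨[], by simp [pw]⟩
  | cons f l ih =>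
    obtain ⟨A, -, -, hA⟩ := h.pw_cons (hl f (by simp)) b l
    obtain ⟨A', hA'⟩ := ih (b ^^ f.2) (fun g hg => hl g (by simp [hg]))
    refine ⟨A ++ A', ?_⟩
    rw [hA, hA', List.append_assoc]
    simp

theorem Gr.xw_P_inj (h : Gr B P lam) {b c : Bool} (hbc : xw b P = xw c P) : b = c := by
  obtain ⟨x, w, hx⟩ := List.exists_cons_of_ne_nil h.ne
  rw [hx] at hbc
  simp at hbc
  exact hbc.1

theorem pw_append (b : Bool) (l m : List Ty) :
    pw P lam b (l ++ m) = pw P lam b l ++ real lam (b ^^ fl l) m := by
  simp [pw, real_append]

/-- Vertex words occur only at vertices. -/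
theorem Gr.syncPath (h : Gr B P lam) (l : List Ty) (hl : ∀ f ∈ l, B f = true) :
    ∀ (b b' : Bool) (A C : List Bool), pw P lam b l = A ++ (xw b' P ++ C) →
      ∃ l1 l2, l = l1 ++ l2 ∧ b' = (b ^^ fl l1) ∧ A ++ xw b' P = pw P lam b l1 ∧
        C = real lam b' l2 := by
  induction l with
  | nil =>
    intro b b' A C hh
    have hlen := congrArg List.length hh
    simp [pw] at hlen
    have hA : A = [] := by
      rw [← List.length_eq_zero_iff]; omega
    have hC : C = [] := by
      rw [← List.length_eq_zero_iff]; omega
    subst hA hC
    simp [pw] at hh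
    have := h.xw_P_inj hh
    subst this
    exact ⟨[], [], rfl, by simp, by simp [pw], by simp⟩
  | cons f l ih =>
    intro b b' A C hh
    have hf : B f = true := hl f (by simp)
    obtain ⟨M, hMlen, hM, hM'⟩ := h.pw_cons hf b l
    by_cases hA : M.length ≤ A.length
    · have h1 : M <+: A := by
        rw [hM'] at hh
        have h2 : A ++ (xw b' P ++ C) = M ++ pw P lam (b ^^ f.2) l := hh.symm
        exact List.prefix_of_prefix_length_le ⟨_, rfl⟩ ⟨xw b' P ++ C, by rw [h2]⟩ hA
      obtain ⟨A', rfl⟩ := h1
      rw [hM', List.append_assoc] at hh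
      have h3 := List.append_cancel_left hh
      obtain ⟨l1, l2, e1, e2, e3, e4⟩ := ih (fun g hg => hl g (by simp [hg])) _ _ _ _ h3
      refine ⟨f :: l1, l2, by simp [e1], by simp [e2], ?_, e4⟩
      obtain ⟨M2, hM2len, hM2, hM2'⟩ := h.pw_cons hf b l1
      have : M2 = M := by
        have h4 : M2 ++ xw (b ^^ f.2) P = M ++ xw (b ^^ f.2) P := by rw [← hM2, hM]
        exact List.append_cancel_right h4
      subst this
      rw [List.append_assoc, e3, hM2']
    · push Not at hA
      -- the occurrence lies in the first edge word
      have h1 : (A ++ xw b' P) <+: (xw b P ++ xw b (lam f)) := by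
        have h2 : (A ++ xw b' P) <+: pw P lam b (f :: l) := ⟨C, by rw [hh, List.append_assoc]⟩
        have h3 : (xw b P ++ xw b (lam f)) <+: pw P lam b (f :: l) :=
          ⟨real lam (b ^^ f.2) l, by simp [pw]⟩
        refine List.prefix_of_prefix_length_le h2 h3 ?_
        simp only [List.length_append, xw_length]
        omega
      obtain ⟨C', hC'⟩ := h1
      have h4 : P ++ lam f = xw b A ++ (xw (b ^^ b') P ++ xw b C') := by
        have := congrArg (xw b) hC'
        simp only [xw_append, xw_xw] at this
        simp only [Bool.xor_self, xw_false] at this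
        rw [← this]
        simp
      rcases h.sync f hf _ _ _ h4 with h5 | h5
      · have hA0 : A = [] := by simpa using h5
        subst hA0
        have h6 : xw b' P = xw b P := by
          have : xw b P ++ real lam b (f :: l) = xw b' P ++ C := by simpa [pw] using hh
          exact (List.append_inj_left this (by simp)).symm
        have := h.xw_P_inj h6
        subst this
        refine ⟨[], f :: l, rfl, by simp, by simp [pw], ?_⟩
        have : xw b' P ++ real lam b' (f :: l) = xw b' P ++ C := by simpa [pw] using hh
        exact (List.append_cancel_left this).symm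
      · exfalso
        have hC0 : C' = [] := by simpa using h5
        subst hC0
        have := congrArg List.length hC'
        simp at this
        omega

/-- Unique decoding: prefixes of path words come from prefixes of paths. -/
theorem Gr.decode (h : Gr B P lam) (l1 : List Ty) :
    ∀ (b : Bool) (l2 : List Ty), (∀ f ∈ l1, B f = true) → (∀ f ∈ l2, B f = true) →
      pw P lam b l1 <+: pw P lam b l2 → l1 <+: l2 := by
  induction l1 with
  | nil => intro b l2 _ _ _; exact List.nil_prefix
  | cons f l1 ih =>
    intro b l2 h1 h2 hp
    have hf : B f = true := h1 f (by simp)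
    cases l2 with
    | nil =>
      exfalso
      have := hp.length_le
      simp [pw] at this
      exact h.lam_ne hf this.1
    | cons g l2 =>
      have hg : B g = true := h2 g (by simp)
      have hfg : f = g := by
        have p1 : (xw b P ++ xw b (lam f)) <+: pw P lam b (g :: l2) :=
          List.IsPrefix.trans ⟨real lam (b ^^ f.2) l1, by simp [pw]⟩ hp
        have p2 : (xw b P ++ xw b (lam g)) <+: pw P lam b (g :: l2) :=
          ⟨real lam (b ^^ g.2) l2, by simp [pw]⟩
        have cancel : ∀ u v : Ty, (xw b P ++ xw b (lam u)) <+: (xw b P ++ xw b (lam v)) →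
            (P ++ lam u) <+: (P ++ lam v) := by
          rintro u v ⟨t, ht⟩
          refine ⟨xw b t, ?_⟩
          have := congrArg (xw b) ht
          simp only [xw_append, xw_xw, Bool.xor_self, xw_false] at this
          exact this
        rcases List.prefix_or_prefix_of_prefix p1 p2 with h3 | h3
        · exact h.inc f g hf hg (cancel _ _ h3)
        · exact (h.inc g f hg hf (cancel _ _ h3)).symm
      subst hfg
      obtain ⟨M, hMlen, hM, hM'⟩ := h.pw_cons hf b l1
      obtain ⟨M2, hM2len, hM2, hM2'⟩ := h.pw_cons hf b l2
      have : M2 = M := by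
        have h4 : M2 ++ xw (b ^^ f.2) P = M ++ xw (b ^^ f.2) P := by rw [← hM2, hM]
        exact List.append_cancel_right h4
      subst this
      rw [hM', hM2'] at hp
      have h5 := (List.prefix_append_right_inj M2).1 hp
      have := ih _ _ (fun g hg => h1 g (by simp [hg])) (fun g hg => h2 g (by simp [hg])) h5
      exact (List.prefix_cons_inj f).2 this

end Pool.Agent.H174.GP
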