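import Pool.Agent.H174.GP.Level

/-!
# Right special words of the level languages
-/

namespace Pool.Agent.H174.GP

/-- the language of all factors of path words -/
def Full (B : Ty → Bool) (P : List Bool) (lam : Ty → List Bool) (v : List Bool) : Prop :=
  ∃ b l, (∀ f ∈ l, B f = true) ∧ v <:+: pw P lam b l

/-- right special words -/
def RS (B : Ty → Bool) (P : List Bool) (lam : Ty → List Bool) (v : List Bool) : Prop :=
  ∀ k : Bool, Full B P lam (v ++ [k])

theorem bool_eq_of_ne_not {a b : Bool} (h : ¬ a = !b) : a = b := by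
  revert h; cases a <;> cases b <;> decide

/-- comparable as suffixes -/
def cmp (u v : List Bool) : Prop := u <:+ v ∨ v <:+ u

theorem cmp_of {u v w : List Bool} (h1 : u <:+ w) (h2 : v <:+ w) : cmp u v := by
  rcases List.suffix_or_suffix_of_suffix h1 h2 with h | h
  · exact Or.inl h
  · exact Or.inr h

theorem cmp.append {u v : List Bool} (h : cmp u v) (x : List Bool) : cmp (u ++ x) (v ++ x) := by
  rcases h with ⟨t, ht⟩ | ⟨t, ht⟩
  · left; exact ⟨t, by rw [← ht]; simp⟩
  · right; exact ⟨t, by rw [← ht]; simp⟩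

/-- all decompositions of a list -/
def splits {α : Type} : List α → List (List α × α × List α)
  | [] => []
  | x :: l => ([], x, l) :: (splits l).map (fun t => (x :: t.1, t.2.1, t.2.2))

theorem mem_splits {α : Type} (p : List α) (e : α) (r : List α) :
    (p, e, r) ∈ splits (p ++ e :: r) := by
  induction p with
  | nil => simp [splits]
  | cons x p ih => simp [splits, ih]

/-- structure of the blown up paths -/
theorem blow_split (f0 : Ty) (c : Ty → List Ty) (l : List Ty) :
    ∀ s1 e s2, f0 :: blow f0 c l = s1 ++ e :: s2 → (s1 = [] ∧ e = f0) ∨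
      ∃ s1' p r f, f ∈ l ∧ s1 = s1' ++ f0 :: p ∧ c f ++ [f0] = p ++ e :: r := by
  induction l with
  | nil =>
    intro s1 e s2 h
    cases s1 with
    | nil => left; simp at h; exact ⟨rfl, h.1.symm⟩
    | cons x s1 => simp at h
  | cons f l ih =>
    intro s1 e s2 h
    cases s1 with
    | nil => left; simp at h; exact ⟨rfl, h.1.symm⟩
    | cons x s1 =>
      right
      rw [blow_cons] at h
      simp only [List.cons_append, List.cons.injEq] at h
      obtain ⟨rfl, h⟩ := h
      rcases List.append_eq_append_iff.1 h with ⟨s3, e1, e2⟩ | ⟨s3, e1, e2⟩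
      · -- s1 = (c f ++ [f0]) ++ s3
        have h2 : f0 :: blow f0 c l = (f0 :: s3) ++ e :: s2 := by rw [e2]; rfl
        rcases ih _ _ _ h2 with ⟨h3, -⟩ | ⟨s1', p, r, f', hf', e3, e4⟩
        · simp at h3
        · refine ⟨f0 :: c f ++ s1', p, r, f', by simp [hf'], ?_, e4⟩
          rw [e1]
          have : f0 :: (c f ++ [f0] ++ s3) = (f0 :: c f) ++ (f0 :: s3) := by simp
          rw [this, e3]; simp
      · -- c f ++ [f0] = s1 ++ s3
        cases s3 with
        | nil =>
          -- s1 = c f ++ [f0], continue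
          simp only [List.append_nil, List.nil_append] at e1 e2
          have h2 : f0 :: blow f0 c l = (f0 :: []) ++ e :: s2 := by rw [← e2]; rfl
          rcases ih _ _ _ h2 with ⟨h3, -⟩ | ⟨s1', p, r, f', hf', e3, e4⟩
          · simp at h3
          · refine ⟨f0 :: c f ++ s1', p, r, f', by simp [hf'], ?_, e4⟩
            rw [← e1]
            have : f0 :: (c f ++ [f0]) = (f0 :: c f) ++ (f0 :: []) := by simp
            rw [this, e3]; simp
        | cons y s3 =>
          simp only [List.cons_append, List.cons.injEq] at e2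
          obtain ⟨rfl, e2⟩ := e2
          exact ⟨[], s1, s3, f, by simp, by simp, e1⟩

variable {B : Ty → Bool} {P : List Bool} {lam : Ty → List Bool}

theorem Gr.end_block (h : Gr B P lam) (b : Bool) (s1 : List Ty) (f0 : Ty) (p : List Ty)
    (hs : ∀ f ∈ s1, B f = true) :
    xw (b ^^ fl s1) (P ++ lam f0 ++ real lam f0.2 p) <:+ pw P lam b (s1 ++ f0 :: p) := by
  obtain ⟨A, hA⟩ := h.pw_end b s1 hs
  refine ⟨A, ?_⟩
  rw [pw_append, hA, real_cons, xw_append, xw_append, xw_real]
  simp

/-- Extraction of the position of a vertex in a word of the next level. -/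
theorem Gr.ext (h : Gr B P lam) {f0 : Ty} (hf0 : B f0 = true) {B' : Ty → Bool}
    {c : Ty → List Ty}
    (c1 : ∀ f, B' f = true → ∀ g ∈ c f, B g = true ∧ g ≠ f0)
    (c3 : ∀ f, B' f = true → fl (c f ++ [f0]) = f.2)
    {v' x : List Bool} {b' k : Bool}
    (hv : Full B' (P ++ lam f0) (lam' lam f0 c) (v' ++ xw b' P ++ x ++ [k])) :
    ∃ b s1 e s2, (∀ f ∈ s1, B f = true) ∧ B e = true ∧ (∀ f ∈ s2, B f = true) ∧
      b' = (b ^^ fl s1) ∧
      (v' ++ xw b' P) <:+ pw P lam b s1 ∧ (x ++ [k]) <+: real lam b' (e :: s2) ∧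
      ((s1 = [] ∧ e = f0) ∨ ∃ s1' p r f, B' f = true ∧ s1 = s1' ++ f0 :: p ∧
        c f ++ [f0] = p ++ e :: r) := by
  obtain ⟨b, l, hl, A, C, hAC⟩ := hv
  rw [pw_blow P lam f0 c c3 l hl] at hAC
  have hall : ∀ g ∈ f0 :: blow f0 c l, B g = true := by
    intro g hg
    simp only [List.mem_cons, blow, List.mem_flatMap, List.mem_append, List.not_mem_nil,
      or_false] at hg
    rcases hg with rfl | ⟨f, hf, hg | rfl⟩
    · exact hf0
    · exact (c1 f (hl f hf) g hg).1
    · exact hf0
  have hh : pw P lam b (f0 :: blow f0 c l) = (A ++ v') ++ (xw b' P ++ (x ++ [k] ++ C)) := by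
    rw [← hAC]; simp
  obtain ⟨s1, s2, e1, e2, e3, e4⟩ := h.syncPath _ hall _ _ _ _ hh
  cases s2 with
  | nil => simp at e4
  | cons e s2 =>
    refine ⟨b, s1, e, s2, ?_, ?_, ?_, e2, ⟨A, by rw [← e3]; simp⟩, ⟨C, by rw [← e4]⟩, ?_⟩
    · intro f hf; exact hall f (by rw [e1]; simp [hf])
    · exact hall e (by rw [e1]; simp)
    · intro f hf; exact hall f (by rw [e1]; simp [hf])
    · rcases blow_split f0 c l s1 e s2 e1 with h1 | ⟨s1', p, r, f, hf, h1, h2⟩
      · exact Or.inl h1
      · exact Or.inr ⟨s1', p, r, f, hl f hf, h1, h2⟩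

theorem Gr.next_letter (h : Gr B P lam) {e : Ty} (he : B e = true) {k b' : Bool} {s2 : List Ty}
    (hk : ([] ++ [k]) <+: real lam b' (e :: s2)) : k = (b' ^^ e.1) := by
  obtain ⟨w, hw⟩ := h.head e he
  rw [real_cons, hw] at hk
  simpa using hk

/-- properties of the words `q` -/
structure Qp (B : Ty → Bool) (lam : Ty → List Bool) (act : Bool → Bool)
    (q : Bool → List Bool) : Prop where
  both : ∀ a, act a = true → B (a, false) = true →
    B (a, true) = true ∧ ∃ k w1 w2, lam (a, false) = q a ++ k :: w1 ∧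
      lam (a, true) = q a ++ (!k) :: w2
  one : ∀ a, act a = true → B (a, false) = false → B (a, true) = true ∧ q a = lam (a, true)

/-- right special words are comparable with one of few words -/
def Hyp (B : Ty → Bool) (P : List Bool) (lam : Ty → List Bool) (act : Bool → Bool)
    (q : Bool → List Bool) : Prop :=
  ∀ v, P.length ≤ v.length → RS B P lam v →
    ∃ b, cmp v (xw b P) ∨ ∃ a, act a = true ∧ cmp v (xw b (P ++ q a))

theorem Gr.hstepX (h : Gr B P lam) {f0 : Ty} (hf0 : B f0 = true) {B' : Ty → Bool}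
    {c : Ty → List Ty}
    (c1 : ∀ f, B' f = true → ∀ g ∈ c f, B g = true ∧ g ≠ f0)
    (c3 : ∀ f, B' f = true → fl (c f ++ [f0]) = f.2)
    {act : Bool → Bool} {q : Bool → List Bool} (hq : Qp B lam act q)
    (tE : ∀ f, B' f = true → ∀ p e r, c f ++ [f0] = p ++ e :: r → e.1 = !f0.1 → p = [] ∨
      (p = [e] ∧ e = (!f0.1, true) ∧ B (!f0.1, false) = false ∧ act (!f0.1) = true))
    {v' : List Bool} {b' : Bool}
    (hv : RS B' (P ++ lam f0) (lam' lam f0 c) (v' ++ xw b' P)) :
    ∃ b, cmp (v' ++ xw b' P) (xw b (P ++ lam f0)) ∨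
      (act (!f0.1) = true ∧
        cmp (v' ++ xw b' P) (xw b (P ++ lam f0 ++ xw f0.2 (q (!f0.1))))) := by
  have h1 := hv (b' ^^ !f0.1)
  have h2 : v' ++ xw b' P ++ [b' ^^ !f0.1] = v' ++ xw b' P ++ [] ++ [b' ^^ !f0.1] := by simp
  rw [h2] at h1
  obtain ⟨b, s1, e, s2, hs1, he, hs2, hb', hsuf, hpre, hstr⟩ := h.ext hf0 c1 c3 h1
  have hk := h.next_letter he hpre
  have he1 : e.1 = !f0.1 := by
    have : (b' ^^ (b' ^^ !f0.1)) = (b' ^^ (b' ^^ e.1)) := by rw [hk]
    simpa using this.symm
  rcases hstr with ⟨-, h3⟩ | ⟨s1', p, r, f, hf, h3, h4⟩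
  · exfalso
    rw [h3] at he1
    cases hh : f0.1 <;> rw [hh] at he1 <;> simp at he1
  · have hend := h.end_block b s1' f0 p (fun g hg => hs1 g (by rw [h3]; simp [hg]))
    rw [← h3] at hend
    refine ⟨b ^^ fl s1', ?_⟩
    rcases tE f hf p e r h4 he1 with h5 | ⟨h5, h6, h7, h8⟩
    · left
      rw [h5] at hend
      simp only [real_nil, List.append_nil] at hend
      exact cmp_of hsuf hend
    · right
      refine ⟨h8, ?_⟩
      rw [h5] at hend
      have h9 : real lam f0.2 [e] = xw f0.2 (q (!f0.1)) := by
        rw [(hq.one _ h8 h7).2, h6]; simp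
      rw [h9] at hend
      exact cmp_of hsuf hend

theorem Gr.hstep (h : Gr B P lam) {f0 : Ty} (hf0 : B f0 = true) {B' : Ty → Bool}
    {c : Ty → List Ty}
    (c1 : ∀ f, B' f = true → ∀ g ∈ c f, B g = true ∧ g ≠ f0)
    (c3 : ∀ f, B' f = true → fl (c f ++ [f0]) = f.2)
    {act : Bool → Bool} {q : Bool → List Bool} (hq : Qp B lam act q)
    (hH : Hyp B P lam act q)
    (hsub : ∀ v, Full B' (P ++ lam f0) (lam' lam f0 c) v → Full B P lam v)
    (tE : ∀ f, B' f = true → ∀ p e r, c f ++ [f0] = p ++ e :: r → e.1 = !f0.1 → p = [] ∨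
      (p = [e] ∧ e = (!f0.1, true) ∧ B (!f0.1, false) = false ∧ act (!f0.1) = true))
    (tF : ∀ f, B' f = true → ∀ p e r, c f ++ [f0] = p ++ e :: r → e.1 = f0.1 → e ≠ f0 →
      p = [] ∧ f0.2 = false)
    (v : List Bool) (hlen : P.length ≤ v.length)
    (hv : RS B' (P ++ lam f0) (lam' lam f0 c) v) :
    ∃ b, cmp v (xw b (P ++ lam f0)) ∨
      (act (!f0.1) = true ∧ cmp v (xw b (P ++ lam f0 ++ xw f0.2 (q (!f0.1))))) ∨
      (act f0.1 = true ∧ f0.2 = false ∧ cmp v (xw b (P ++ lam f0 ++ q f0.1))) ∨
      (act f0.1 = true ∧ f0.2 = true ∧ v <:+ xw b (P ++ q f0.1)) := by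
  have hRS : RS B P lam v := fun k => hsub _ (hv k)
  obtain ⟨b', hcase⟩ := hH v hlen hRS
  -- the case of a vertex as suffix
  have caseX : ∀ v' b', v = v' ++ xw b' P → ∃ b, cmp v (xw b (P ++ lam f0)) ∨
      (act (!f0.1) = true ∧ cmp v (xw b (P ++ lam f0 ++ xw f0.2 (q (!f0.1))))) ∨
      (act f0.1 = true ∧ f0.2 = false ∧ cmp v (xw b (P ++ lam f0 ++ q f0.1))) ∨
      (act f0.1 = true ∧ f0.2 = true ∧ v <:+ xw b (P ++ q f0.1)) := by
    intro v' b' hvv
    rw [hvv] at hv
    obtain ⟨b, hb⟩ := h.hstepX hf0 c1 c3 hq tE hv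
    rw [← hvv] at hb
    refine ⟨b, ?_⟩
    rcases hb with hb | hb
    · exact Or.inl hb
    · exact Or.inr (Or.inl hb)
  rcases hcase with hX | ⟨a, ha, hQ⟩
  · rcases hX with hX | hX
    · have : v = xw b' P := by
        apply List.IsSuffix.eq_of_length_le hX
        simpa using hlen
      exact caseX [] b' (by simpa using this)
    · obtain ⟨v', hv'⟩ := hX
      exact caseX v' b' hv'.symm
  · obtain ⟨A, hAlen, hA⟩ := h.edge' hf0
    have hsufP : ∀ x, xw b' (P ++ x) <:+ xw (b' ^^ f0.2) (P ++ lam f0 ++ xw f0.2 x) := by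
      intro x
      rw [hA]
      refine ⟨xw (b' ^^ f0.2) A, ?_⟩
      simp only [xw_append, xw_xw]
      have : ((b' ^^ f0.2) ^^ f0.2) = b' := by cases b' <;> cases f0.2 <;> rfl
      rw [this]; simp
    rcases hQ with hQ | hQ
    · -- `v` is a suffix of `Q`
      by_cases haa : a = !f0.1
      · subst haa
        exact ⟨b' ^^ f0.2, Or.inr (Or.inl ⟨ha, Or.inl (hQ.trans (hsufP _))⟩)⟩
      · have ha0 : a = f0.1 := bool_eq_of_ne_not haa
        subst ha0
        cases hfl : f0.2 with
        | false =>
          refine ⟨b', Or.inr (Or.inr (Or.inl ⟨ha, rfl, Or.inl (hQ.trans ?_)⟩))⟩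
          have := hsufP (q f0.1)
          rw [hfl] at this
          simpa using this
        | true => exact ⟨b', Or.inr (Or.inr (Or.inr ⟨ha, rfl, hQ⟩))⟩
    · obtain ⟨v', hv'⟩ := hQ
      cases hBa : B (a, false) with
      | false =>
        obtain ⟨hBt, hqa⟩ := hq.one a ha hBa
        obtain ⟨M, -, hM⟩ := h.edge' hBt
        refine caseX (v' ++ xw b' M) (b' ^^ true) ?_
        rw [← hv', hqa, hM]
        simp
      | true =>
        obtain ⟨hBt, k0, w1, w2, hw1, hw2⟩ := hq.both a ha hBa
        -- the first letter of `q a`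
        obtain ⟨q1, hq1⟩ : ∃ q1, q a = a :: q1 := by
          obtain ⟨u1, hu1⟩ := h.head _ hBa
          obtain ⟨u2, hu2⟩ := h.head _ hBt
          rw [hu1] at hw1
          rw [hu2] at hw2
          cases hqa : q a with
          | nil =>
            exfalso
            rw [hqa] at hw1 hw2
            simp at hw1 hw2
            rw [hw1.1] at hw2
            cases k0 <;> simp at hw2
          | cons y q1 =>
            rw [hqa] at hw1
            simp at hw1
            rw [← hw1.1]
            exact ⟨q1, rfl⟩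
        have hveq : v = v' ++ xw b' P ++ xw b' (q a) := by
          rw [← hv', xw_append, List.append_assoc]
        have first : ∀ (e : Ty) (s2 : List Ty) (k : Bool), B e = true →
            (xw b' (q a) ++ [k]) <+: real lam b' (e :: s2) → e.1 = a := by
          intro e s2 k he hp
          obtain ⟨w, hw⟩ := h.head e he
          rw [hq1, real_cons, hw] at hp
          simp at hp
          exact hp.1.symm
        by_cases haa : a = !f0.1
        · subst haa
          have h1 := hv false
          rw [hveq] at h1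
          obtain ⟨b, s1, e, s2, hs1, he, hs2, hb', hsuf, hpre, hstr⟩ := h.ext hf0 c1 c3 h1
          have he1 := first e s2 _ he hpre
          rcases hstr with ⟨-, h3⟩ | ⟨s1', p, r, f, hf, h3, h4⟩
          · exfalso
            rw [h3] at he1
            cases hh : f0.1 <;> rw [hh] at he1 <;> simp at he1
          · rcases tE f hf p e r h4 he1 with h5 | ⟨h5, h6, h7, h8⟩
            · have hend := h.end_block b s1' f0 p
                (fun g hg => hs1 g (by rw [h3]; simp [hg]))
              rw [← h3, h5] at hend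
              simp only [real_nil, List.append_nil] at hend
              have h9 := (cmp_of hsuf hend).append (xw b' (q (!f0.1)))
              have h10 : b' = ((b ^^ fl s1') ^^ f0.2) := by
                rw [hb', h3, h5]
                simp
              refine ⟨b ^^ fl s1', Or.inr (Or.inl ⟨ha, ?_⟩)⟩
              rw [xw_append _ (P ++ lam f0), xw_xw, ← h10, hveq]
              exact h9
            · exfalso
              rw [h7] at hBa
              exact Bool.noConfusion hBa
        · have ha0 : a = f0.1 := bool_eq_of_ne_not haa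
          subst ha0
          -- the letter which leads into the other edge
          obtain ⟨k1, w, w', hlf0, hlf1⟩ : ∃ k1 w w', lam f0 = q f0.1 ++ (!k1) :: w ∧
              lam (f0.1, !f0.2) = q f0.1 ++ k1 :: w' := by
            cases hfl : f0.2 with
            | false =>
              refine ⟨!k0, w1, w2, ?_, ?_⟩
              · have : f0 = (f0.1, false) := by rw [← hfl]
                rw [this]; simpa using hw1
              · simpa using hw2
            | true =>
              refine ⟨k0, w2, w1, ?_, ?_⟩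
              · have : f0 = (f0.1, true) := by rw [← hfl]
                rw [this]; simpa using hw2
              · simpa using hw1
          have h1 := hv (b' ^^ k1)
          rw [hveq] at h1
          obtain ⟨b, s1, e, s2, hs1, he, hs2, hb', hsuf, hpre, hstr⟩ := h.ext hf0 c1 c3 h1
          have he1 := first e s2 _ he hpre
          have hne : e ≠ f0 := by
            rintro rfl
            rw [real_cons, hlf0] at hpre
            simp only [xw_append, xw_cons, List.append_assoc, List.cons_append,
              List.prefix_append_right_inj] at hpre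
            simp at hpre
          rcases hstr with ⟨-, h3⟩ | ⟨s1', p, r, f, hf, h3, h4⟩
          · exact absurd h3 hne
          · obtain ⟨h5, h6⟩ := tF f hf p e r h4 he1 hne
            have hend := h.end_block b s1' f0 p
              (fun g hg => hs1 g (by rw [h3]; simp [hg]))
            rw [← h3, h5] at hend
            simp only [real_nil, List.append_nil] at hend
            have h9 := (cmp_of hsuf hend).append (xw b' (q f0.1))
            have h10 : b' = (b ^^ fl s1') := by
              rw [hb', h3, h5]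
              simp [h6]
            refine ⟨b ^^ fl s1', Or.inr (Or.inr (Or.inl ⟨ha, h6, ?_⟩))⟩
            rw [xw_append _ (P ++ lam f0), ← h10, hveq]
            rw [← h10] at h9
            exact h9

end Pool.Agent.H174.GP
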