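import Pool.Agent.H174.GP.Count

/-!
# The steps of the induction, except for the step from `0^k` to `0^k 1 0^k`
-/

namespace Pool.Agent.H174.GP

/-- the letters for which a word `q` is used -/
def act : St → Bool → Bool
  | .s1, a => a
  | .s2, a => a
  | _, _ => true

theorem tblE (s : St) (f0 : Ty) (h0 : Bs s f0 = true) (hs : ¬ (s = .s2 ∧ f0 = (true, false)))
    (f : Ty) (hf : Bs (nx s f0) f = true) (p : List Ty) (e : Ty) (r : List Ty)
    (he : blk s f0 f ++ [f0] = p ++ e :: r) (he1 : e.1 = !f0.1) : p = [] ∨
      (p = [e] ∧ e = (!f0.1, true) ∧ Bs s (!f0.1, false) = false ∧ act s (!f0.1) = true) := by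
  have hm : (p, e, r) ∈ splits (blk s f0 f ++ [f0]) := by rw [he]; exact mem_splits p e r
  have key : ∀ t ∈ splits (blk s f0 f ++ [f0]), t.2.1.1 = !f0.1 → t.1 = [] ∨
      (t.1 = [t.2.1] ∧ t.2.1 = (!f0.1, true) ∧ Bs s (!f0.1, false) = false ∧
        act s (!f0.1) = true) := by
    clear hm he
    rcases s with _ | _ | _ | _ | c <;> rcases f0 with ⟨_ | _, _ | _⟩ <;>
      rcases f with ⟨_ | _, _ | _⟩ <;> revert h0 hs hf <;>
      first | (cases c <;> decide) | decide
  exact key _ hm he1

theorem tblF (s : St) (f0 : Ty) (h0 : Bs s f0 = true) (hs : ¬ (s = .s2 ∧ f0 = (true, false)))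
    (f : Ty) (hf : Bs (nx s f0) f = true) (p : List Ty) (e : Ty) (r : List Ty)
    (he : blk s f0 f ++ [f0] = p ++ e :: r) (he1 : e.1 = f0.1) (hne : e ≠ f0) :
    p = [] ∧ f0.2 = false := by
  have hm : (p, e, r) ∈ splits (blk s f0 f ++ [f0]) := by rw [he]; exact mem_splits p e r
  have key : ∀ t ∈ splits (blk s f0 f ++ [f0]), t.2.1.1 = f0.1 → t.2.1 ≠ f0 →
      t.1 = [] ∧ f0.2 = false := by
    clear hm he
    rcases s with _ | _ | _ | _ | c <;> rcases f0 with ⟨_ | _, _ | _⟩ <;>
      rcases f with ⟨_ | _, _ | _⟩ <;> revert h0 hs hf <;>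
      first | (cases c <;> decide) | decide
  exact key _ hm he1 hne

theorem Qp.prefix0 {B : Ty → Bool} {lam : Ty → List Bool} {act : Bool → Bool}
    {q : Bool → List Bool} (hq : Qp B lam act q) {f0 : Ty} (hf0 : B f0 = true)
    (ha : act f0.1 = true) : q f0.1 <+: lam f0 := by
  cases hb : B (f0.1, false) with
  | true =>
    obtain ⟨_, k, w1, w2, e1, e2⟩ := hq.both _ ha hb
    cases hfl : f0.2 with
    | false =>
      have : f0 = (f0.1, false) := by rw [← hfl]
      rw [this] at e1 ⊢
      exact ⟨_, e1.symm⟩
    | true =>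
      have : f0 = (f0.1, true) := by rw [← hfl]
      rw [this] at e2 ⊢
      exact ⟨_, e2.symm⟩
  | false =>
    obtain ⟨_, e⟩ := hq.one _ ha hb
    cases hfl : f0.2 with
    | false =>
      exfalso
      have : f0 = (f0.1, false) := by rw [← hfl]
      rw [← this, hf0] at hb
      exact Bool.noConfusion hb
    | true =>
      have : f0 = (f0.1, true) := by rw [← hfl]
      rw [this]
      rw [this] at e
      simp only at e
      rw [e]

/-- the general step for the position of right special words -/
theorem gstep {s : St} {P : List Bool} {lam : Ty → List Bool} (h : Gr (Bs s) P lam) {f0 : Ty}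
    (hf0 : Bs s f0 = true) (hs : ¬ (s = .s2 ∧ f0 = (true, false)))
    {q : Bool → List Bool} (hq : Qp (Bs s) lam (act s) q) (hH : Hyp (Bs s) P lam (act s) q)
    (v : List Bool) (hlen : P.length ≤ v.length)
    (hv : RS (Bs (nx s f0)) (P ++ lam f0) (lam' lam f0 (blk s f0)) v) :
    ∃ b, cmp v (xw b (P ++ lam f0)) ∨
      (act s (!f0.1) = true ∧ cmp v (xw b (P ++ lam f0 ++ xw f0.2 (q (!f0.1))))) ∨
      (act s f0.1 = true ∧ f0.2 = false ∧ cmp v (xw b (P ++ lam f0 ++ q f0.1))) ∨
      (act s f0.1 = true ∧ f0.2 = true ∧ v <:+ xw b (P ++ q f0.1)) :=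
  h.hstep hf0 (tbl1 s f0 hf0) (fun f _ => tbl3 s f0 hf0 f) hq hH
    (Full.sub hf0 (tbl1 s f0 hf0) (fun f _ => tbl3 s f0 hf0 f))
    (fun f hf p e r => tblE s f0 hf0 hs f hf p e r) (fun f hf p e r => tblF s f0 hf0 hs f hf p e r)
    v hlen hv

theorem suffix_of_cmp {v z : List Bool} (h : cmp v z) (hl : v.length ≤ z.length) : v <:+ z := by
  rcases h with h | h
  · exact h
  · have := List.IsSuffix.eq_of_length_le h hl
    rw [this]

/-- counting right special words in the general step -/
theorem gcount {s : St} {P : List Bool} {lam : Ty → List Bool} (h : Gr (Bs s) P lam) {f0 : Ty}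
    (hf0 : Bs s f0 = true) (hs : ¬ (s = .s2 ∧ f0 = (true, false)))
    {q : Bool → List Bool} (hq : Qp (Bs s) lam (act s) q) (hH : Hyp (Bs s) P lam (act s) q)
    (n : ℕ) (hn : P.length ≤ n) (hn' : n ≤ (P ++ lam f0).length) :
    cnt (fun v => RS (Bs (nx s f0)) (P ++ lam f0) (lam' lam f0 (blk s f0)) v) n ≤ 6 := by
  have := cnt_le_of_suffix
    (fun v => RS (Bs (nx s f0)) (P ++ lam f0) (lam' lam f0 (blk s f0)) v) n
    [P ++ lam f0, P ++ lam f0 ++ xw f0.2 (q (!f0.1)),
      if f0.2 then P ++ q f0.1 else P ++ lam f0 ++ q f0.1] (by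
    intro v hvn hv
    obtain ⟨b, h1 | ⟨-, h1⟩ | ⟨-, h2, h1⟩ | ⟨-, h2, h1⟩⟩ :=
      gstep h hf0 hs hq hH v (by omega) hv
    · refine ⟨_, List.mem_cons_self, b, suffix_of_cmp h1 ?_⟩
      rw [xw_length]; omega
    · refine ⟨_, List.mem_cons_of_mem _ List.mem_cons_self, b, suffix_of_cmp h1 ?_⟩
      rw [xw_length, List.length_append (as := P ++ lam f0)]; omega
    · refine ⟨_, List.mem_cons_of_mem _ (List.mem_cons_of_mem _ List.mem_cons_self), b, ?_⟩
      rw [h2]
      simp only [Bool.false_eq_true, if_false]
      refine suffix_of_cmp h1 ?_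
      rw [xw_length, List.length_append (as := P ++ lam f0)]; omega
    · refine ⟨_, List.mem_cons_of_mem _ (List.mem_cons_of_mem _ List.mem_cons_self), b, ?_⟩
      rw [h2]
      exact h1)
  simpa using this

/-- the words `q` of the next level -/
def q' (lam : Ty → List Bool) (f0 : Ty) (q : Bool → List Bool) (a : Bool) : List Bool :=
  if f0.2 then (if a = !f0.1 then xw true (lam f0) else xw true (q (!f0.1))) else q a

/-- The hypothesis on right special words passes to the next level, if the set of active
letters is the expected one. -/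
theorem ghyp {s : St} {P : List Bool} {lam : Ty → List Bool} (h : Gr (Bs s) P lam) {f0 : Ty}
    (hf0 : Bs s f0 = true) (hs : ¬ (s = .s2 ∧ f0 = (true, false)))
    {q : Bool → List Bool} (hq : Qp (Bs s) lam (act s) q) (hH : Hyp (Bs s) P lam (act s) q) :
    Hyp (Bs (nx s f0)) (P ++ lam f0) (lam' lam f0 (blk s f0)) (act (nx s f0)) (q' lam f0 q) := by
  intro v hlen hv
  have hl : P.length ≤ v.length := by
    rw [List.length_append] at hlen; omega
  obtain ⟨b, h1 | ⟨ha, h1⟩ | ⟨ha, h2, h1⟩ | ⟨ha, h2, h1⟩⟩ := gstep h hf0 hs hq hH v hl hv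
  · exact ⟨b, Or.inl h1⟩
  · refine ⟨b, Or.inr ?_⟩
    cases hfl : f0.2 with
    | false =>
      refine ⟨!f0.1, ?_, ?_⟩
      · revert hf0 hs ha
        rcases f0 with ⟨a, d⟩
        simp only at hfl
        subst hfl
        rcases s with _ | _ | _ | _ | c <;> cases a <;>
          first | (cases c <;> decide) | decide
      · rw [hfl] at h1
        simpa [q', hfl] using h1
    | true =>
      refine ⟨f0.1, ?_, ?_⟩
      · revert hf0 hs ha
        rcases f0 with ⟨a, d⟩
        simp only at hfl
        subst hfl
        rcases s with _ | _ | _ | _ | c <;> cases a <;>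
          first | (cases c <;> decide) | decide
      · rw [hfl] at h1
        have hne : (f0.1 = !f0.1) = False := by
          cases f0.1 <;> simp
        simp only [q', hfl, if_true, hne, if_false]
        exact h1
  · refine ⟨b, Or.inr ⟨f0.1, ?_, ?_⟩⟩
    · revert hf0 hs ha
      rcases f0 with ⟨a, d⟩
      simp only at h2
      subst h2
      rcases s with _ | _ | _ | _ | c <;> cases a <;>
        first | (cases c <;> decide) | decide
    · simpa [q', h2] using h1
  · refine ⟨b, Or.inl ?_⟩
    have hp := hq.prefix0 hf0 ha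
    have h3 : xw b (P ++ q f0.1) = v := by
      symm
      apply List.IsSuffix.eq_of_length_le h1
      have := hp.length_le
      rw [xw_length, List.length_append]
      rw [List.length_append] at hlen
      omega
    have h4 : q f0.1 = lam f0 := by
      apply List.IsPrefix.eq_of_length_le hp
      have := congrArg List.length h3
      rw [xw_length, List.length_append] at this
      rw [List.length_append] at hlen
      omega
    left
    rw [← h3, h4]

/-- the words `q` of the next level for the regular states -/
theorem gQp {s : St} {P : List Bool} {lam : Ty → List Bool} (h : Gr (Bs s) P lam) {f0 : Ty}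
    (hf0 : Bs s f0 = true) (hs : s ≠ .s1 ∧ s ≠ .s2)
    {q : Bool → List Bool} (hq : Qp (Bs s) lam (act s) q) :
    Qp (Bs (nx s f0)) (lam' lam f0 (blk s f0)) (act (nx s f0)) (q' lam f0 q) := by
  obtain ⟨w0, hw0⟩ := h.head f0 hf0
  have hact : ∀ a, act s a = true := by
    intro a
    rcases s with _ | _ | _ | _ | c <;> simp_all [act]
  rcases f0 with ⟨a0, d⟩
  cases d with
  | false =>
    -- the next state is `s4`
    have hnx : nx s (a0, false) = .s4 := by
      rcases s with _ | _ | _ | _ | c <;> simp_all [nx]
    have hB1 : Bs s (a0, true) = true := by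
      rcases s with _ | _ | _ | _ | c <;> simp_all [Bs]
    obtain ⟨-, k, w1, w2, e1, e2⟩ := hq.both a0 (hact _) hf0
    rw [hnx]
    constructor
    · intro a _ _
      refine ⟨rfl, ?_⟩
      by_cases haa : a = !a0
      · subst haa
        have hb0 : blk s (a0, false) (!a0, false) = cp s (!a0, false) := by
          have : ¬ ((!a0, false) = (false ^^ a0, false)) := by
            intro h; have := congrArg Prod.fst h; cases a0 <;> simp at this
          simp [blk, rel]
        have hb1 : blk s (a0, false) (!a0, true) = cp s (!a0, true) := by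
          simp [blk, rel]
        have hB2 : Bs s (!a0, true) = true := by
          rcases s with _ | _ | _ | _ | c <;> simp_all [Bs]
        have hc1 : cp s (!a0, true) = [(!a0, true)] := Bs_cp _ _ hB2
        cases hB3 : Bs s (!a0, false) with
        | true =>
          obtain ⟨-, k, w1, w2, e1, e2⟩ := hq.both (!a0) (hact _) hB3
          refine ⟨k, w1 ++ lam (a0, false), w2 ++ xw true (lam (a0, false)), ?_, ?_⟩
          · rw [lam', hb0, Bs_cp _ _ hB3]
            simp [q', e1]
          · rw [lam', hb1, hc1]
            simp [q', e2]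
        | false =>
          obtain ⟨-, e⟩ := hq.one (!a0) (hact _) hB3
          obtain ⟨w3, hw3⟩ := h.head _ hB2
          have hc0 : cp s (!a0, false) = [(!a0, true), (!a0, true)] := by
            rcases s with _ | _ | _ | _ | c <;> simp_all [Bs, cp]
          refine ⟨a0, xw true w3 ++ lam (a0, false), xw true w0, ?_, ?_⟩
          · rw [lam', hb0, hc0]
            simp only [q', e]
            simp [hw3]
          · rw [lam', hb1, hc1]
            simp only [q', e]
            simp [hw0]
      · have ha0 : a = a0 := bool_eq_of_ne_not haa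
        subst ha0
        have hb0 : blk s (a, false) (a, false) = [] := by simp [blk]
        have hb1 : blk s (a, false) (a, true) = cp s (a, true) := by simp [blk, rel]
        refine ⟨k, w1, w2 ++ xw true (lam (a, false)), ?_, ?_⟩
        · rw [lam', hb0]
          simp [q', e1]
        · rw [lam', hb1, Bs_cp _ _ hB1]
          simp [q', e2]
    · intro a _ hB
      exact absurd hB (by simp [Bs])
  | true =>
    have hnx : nx s (a0, true) = .s5 a0 := by
      rcases s with _ | _ | _ | _ | c <;> simp_all [nx]
    have hB2 : Bs s (!a0, true) = true := by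
      rcases s with _ | _ | _ | _ | c <;> simp_all [Bs]
    have hc1 : cp s (!a0, true) = [(!a0, true)] := Bs_cp _ _ hB2
    rw [hnx]
    constructor
    · intro a _ hB
      have ha0 : a = a0 := by simpa [Bs] using hB
      subst ha0
      refine ⟨by simp [Bs], ?_⟩
      have hb0 : blk s (a, true) (a, false) = cp s (!a, true) := by
        simp [blk, rel]
      have hb1 : blk s (a, true) (a, true) = cp s (!a, false) := by
        simp [blk, rel]
      have hq' : q' lam (a, true) q a = xw true (q (!a)) := by
        have hne : (a = !a) = False := by cases a <;> simp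
        simp [q']
      cases hB3 : Bs s (!a, false) with
      | true =>
        obtain ⟨-, k, w1, w2, e1, e2⟩ := hq.both (!a) (hact _) hB3
        refine ⟨k, xw true w2 ++ lam (a, true), xw true w1 ++ xw true (lam (a, true)), ?_, ?_⟩
        · rw [lam', hb0, hc1, hq']
          simp [e2]
        · rw [lam', hb1, Bs_cp _ _ hB3, hq']
          simp [e1]
      | false =>
        obtain ⟨-, e⟩ := hq.one (!a) (hact _) hB3
        obtain ⟨w3, hw3⟩ := h.head _ hB2
        have hc0 : cp s (!a, false) = [(!a, true), (!a, true)] := by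
          rcases s with _ | _ | _ | _ | c <;> simp_all [Bs, cp]
        refine ⟨a, w0, w3 ++ xw true (lam (a, true)), ?_, ?_⟩
        · rw [lam', hb0, hc1, hq', e]
          simp [hw0]
        · rw [lam', hb1, hc0, hq', e]
          simp [hw3]
    · intro a _ hB
      have ha0 : a = !a0 := by
        simp only [Bs, Bool.false_or, beq_eq_false_iff_ne, ne_eq] at hB
        revert hB; cases a <;> cases a0 <;> simp
      subst ha0
      refine ⟨by simp [Bs], ?_⟩
      have hb0 : blk s (a0, true) (!a0, true) = [] := by simp [blk]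
      rw [lam', hb0]
      simp [q']

end Pool.Agent.H174.GP
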