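import Pool.Agent.H174.GP.Init

/-!
# The step from `0^k` to `0^k 1 0^k`
-/

namespace Pool.Agent.H174.GP

/-- Extraction of the position of a vertex, with the full path. -/
theorem Gr.ext2 {B : Ty → Bool} {P : List Bool} {lam : Ty → List Bool} (h : Gr B P lam)
    {f0 : Ty} (hf0 : B f0 = true) {B' : Ty → Bool}
    {c : Ty → List Ty}
    (c1 : ∀ f, B' f = true → ∀ g ∈ c f, B g = true ∧ g ≠ f0)
    (c3 : ∀ f, B' f = true → fl (c f ++ [f0]) = f.2)
    {v' x : List Bool} {b' k : Bool}
    (hv : Full B' (P ++ lam f0) (lam' lam f0 c) (v' ++ xw b' P ++ x ++ [k])) :
    ∃ l s1 s2, (∀ f ∈ l, B' f = true) ∧ f0 :: blow f0 c l = s1 ++ s2 ∧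
      (∀ f ∈ s2, B f = true) ∧ (x ++ [k]) <+: real lam b' s2 := by
  obtain ⟨b, l, hl, A, C, hAC⟩ := hv
  rw [pw_blow P lam f0 c c3 l hl] at hAC
  have hall : ∀ g ∈ f0 :: blow f0 c l, B g = true := by
    intro g hg
    simp only [List.mem_cons, blow, List.mem_flatMap, List.mem_append, List.not_mem_nil,
      or_false] at hg
    rcases hg with rfl | ⟨f, hf, hg | rfl⟩
    · exact hf0
    · exact (c1 f (hl f hf) g hg).1
    · exact hf0
  have hh : pw P lam b (f0 :: blow f0 c l) = (A ++ v') ++ (xw b' P ++ (x ++ [k] ++ C)) := by
    rw [← hAC]; simp
  obtain ⟨s1, s2, e1, e2, e3, e4⟩ := h.syncPath _ hall _ _ _ _ hh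
  exact ⟨l, s1, s2, hl, e1, fun f hf => hall f (by rw [e1]; simp [hf]), ⟨C, by rw [← e4]⟩⟩

theorem sp1 (f : Ty) (p : List Ty) (e : Ty) (r : List Ty)
    (he : blk .s2 (true, false) f ++ [(true, false)] = p ++ e :: r) (he1 : e.1 = false) :
    p = [] ∨ p = [(false, false), (true, true)] := by
  have hm : (p, e, r) ∈ splits (blk .s2 (true, false) f ++ [(true, false)]) := by
    rw [he]; exact mem_splits p e r
  have key : ∀ t ∈ splits (blk .s2 (true, false) f ++ [(true, false)]), t.2.1.1 = false →
      t.1 = [] ∨ t.1 = [(false, false), (true, true)] := by
    clear hm he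
    rcases f with ⟨_ | _, _ | _⟩ <;> decide
  exact key _ hm he1

theorem sp2 (f : Ty) (p : List Ty) (e : Ty) (r : List Ty)
    (he : blk .s2 (true, false) f ++ [(true, false)] = p ++ e :: r) (he1 : e = (true, true)) :
    p = [] ∨ p = [(false, false)] := by
  have hm : (p, e, r) ∈ splits (blk .s2 (true, false) f ++ [(true, false)]) := by
    rw [he]; exact mem_splits p e r
  have key : ∀ t ∈ splits (blk .s2 (true, false) f ++ [(true, false)]), t.2.1 = (true, true) →
      t.1 = [] ∨ t.1 = [(false, false)] := by
    clear hm he
    rcases f with ⟨_ | _, _ | _⟩ <;> decide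
  exact key _ hm he1

theorem sp3 (f : Ty) (p : List Ty) (e : Ty) (r : List Ty)
    (he : blk .s2 (true, false) f ++ [(true, false)] = p ++ e :: r) (he1 : e.1 = true) :
    p = [] ∨ p = [(false, false)] ∨ p = [(true, true)] ∨
      p = [(false, false), (true, true), (false, false)] := by
  have hm : (p, e, r) ∈ splits (blk .s2 (true, false) f ++ [(true, false)]) := by
    rw [he]; exact mem_splits p e r
  have key : ∀ t ∈ splits (blk .s2 (true, false) f ++ [(true, false)]), t.2.1.1 = true →
      t.1 = [] ∨ t.1 = [(false, false)] ∨ t.1 = [(true, true)] ∨
      t.1 = [(false, false), (true, true), (false, false)] := by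
    clear hm he
    rcases f with ⟨_ | _, _ | _⟩ <;> decide
  exact key _ hm he1

theorem bs2_cases (e : Ty) (he : Bs .s2 e = true) :
    e = (false, false) ∨ e = (true, false) ∨ e = (true, true) := by
  rcases e with ⟨_ | _, _ | _⟩ <;> simp_all [Bs]

/-- abbreviation for the language after the special step -/
theorem GoodI.sstep {k : ℕ} {lam : Ty → List Bool} (h : GoodI .s2 k lam)
    (v : List Bool) (hlen : k ≤ v.length)
    (hv : RS (Bs .s4) (List.replicate k false ++ lam (true, false))
      (lam' lam (true, false) (blk .s2 (true, false))) v) :
    ∃ b, cmp v (xw b (List.replicate k false ++ lam (true, false))) ∨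
      cmp v (xw b (List.replicate k false ++ lam (true, false) ++
        (false :: List.replicate k true))) ∨
      cmp v (xw b (List.replicate k false ++ lam (true, false) ++ [true])) ∨
      cmp v (xw b (List.replicate k false ++ lam (true, false) ++ [false, true])) := by
  have hk : 2 ≤ k := by
    rcases h.hs with ⟨h1, -⟩ | ⟨-, h1⟩
    · exact absurd h1 (by decide)
    · exact h1
  have hb10 : Bs .s2 (true, false) = true := rfl
  have hgr := h.lv.gr
  have hsub := Full.sub (P := List.replicate k false) (lam := lam) hb10
    (tbl1 .s2 _ hb10) (fun f _ => tbl3 .s2 _ hb10 f)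
  have hext := @Gr.ext _ _ _ hgr (true, false) hb10 _ _ (tbl1 .s2 _ hb10)
    (fun f _ => tbl3 .s2 _ hb10 f)
  have hnx : nx .s2 (true, false) = .s4 := rfl
  rw [hnx] at hsub hext
  have hRS : RS (Bs .s2) (List.replicate k false) lam v := fun c => hsub _ (hv c)
  obtain ⟨b', hcase⟩ := h.hyp v (by simpa using hlen) hRS
  have l10 := h.l10 rfl
  -- a vertex as suffix
  have caseX : ∀ v' b', v = v' ++ xw b' (List.replicate k false) →
      ∃ b, cmp v (xw b (List.replicate k false ++ lam (true, false))) ∨
      cmp v (xw b (List.replicate k false ++ lam (true, false) ++
        (false :: List.replicate k true))) ∨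
      cmp v (xw b (List.replicate k false ++ lam (true, false) ++ [true])) ∨
      cmp v (xw b (List.replicate k false ++ lam (true, false) ++ [false, true])) := by
    intro v' b' hvv
    have h1 := hv b'
    have h2 : v ++ [b'] = v' ++ xw b' (List.replicate k false) ++ [] ++ [b'] := by
      rw [hvv]; simp
    rw [h2] at h1
    obtain ⟨b, s1, e, s2, hs1, he, hs2, hb', hsuf, hpre, hstr⟩ := hext h1
    have he1 : e.1 = false := by
      have := hgr.next_letter he hpre
      revert this; cases b' <;> cases e.1 <;> simp
    rcases hstr with ⟨-, h3⟩ | ⟨s1', p, r, f, hf, h3, h4⟩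
    · exfalso; rw [h3] at he1; exact Bool.noConfusion he1
    · have hend := hgr.end_block b s1' (true, false) p
        (fun g hg => hs1 g (by rw [h3]; simp [hg]))
      rw [← h3] at hend
      refine ⟨b ^^ fl s1', ?_⟩
      rcases sp1 f p e r h4 he1 with h5 | h5
      · left
        rw [h5] at hend
        simp only [real_nil, List.append_nil] at hend
        rw [hvv]
        exact cmp_of hsuf hend
      · right; left
        rw [h5] at hend
        have h6 : real lam (true, false).2 [(false, false), (true, true)] =
            false :: List.replicate k true := by
          simp [h.l00, h.l11]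
        rw [h6] at hend
        rw [hvv]
        exact cmp_of hsuf hend
  have hPsuf : List.replicate k false ++ [true] <:+
      List.replicate k false ++ lam (true, false) ++ [true] := by
    rw [l10]
    exact ⟨List.replicate k false ++ [true], by simp⟩
  rcases hcase with hX | ⟨a, ha, hQ⟩
  · rcases hX with hX | hX
    · have : v = xw b' (List.replicate k false) := by
        apply List.IsSuffix.eq_of_length_le hX
        simpa using hlen
      exact caseX [] b' (by simpa using this)
    · obtain ⟨v', hv'⟩ := hX
      exact caseX v' b' hv'.symm
  · rcases hQ with hQ | hQ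
    · refine ⟨b', Or.inr (Or.inr (Or.inl (Or.inl (hQ.trans ?_))))⟩
      obtain ⟨t, ht⟩ := hPsuf
      exact ⟨xw b' t, by rw [← xw_append, ht]⟩
    · obtain ⟨v', hv'⟩ := hQ
      have hveq : v = v' ++ xw b' (List.replicate k false) ++ xw b' [true] := by
        rw [← hv', xw_append, List.append_assoc]
      have h1 := hv (b' ^^ true)
      rw [hveq] at h1
      obtain ⟨b, s1, e, s2, hs1, he, hs2, hb', hsuf, hpre, hstr⟩ := hext h1
      have he11 : e = (true, true) := by
        rcases bs2_cases e he with rfl | rfl | rfl
        · exfalso
          rw [real_cons, h.l00] at hpre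
          simp at hpre
        · exfalso
          obtain ⟨k', rfl⟩ : ∃ k', k = k' + 2 := ⟨k - 2, by omega⟩
          rw [real_cons, l10, List.replicate_succ] at hpre
          simp at hpre
        · rfl
      rcases hstr with ⟨-, h3⟩ | ⟨s1', p, r, f, hf, h3, h4⟩
      · exfalso; rw [he11] at h3
        exact Bool.noConfusion (congrArg Prod.snd h3)
      · have hend := hgr.end_block b s1' (true, false) p
          (fun g hg => hs1 g (by rw [h3]; simp [hg]))
        rw [← h3] at hend
        rcases sp2 f p e r h4 he11 with h5 | h5
        · have hb2 : b' = (b ^^ fl s1') := by rw [hb', h3, h5]; simp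
          rw [h5] at hend
          simp only [real_nil, List.append_nil] at hend
          refine ⟨b', Or.inr (Or.inr (Or.inl ?_))⟩
          rw [xw_append _ _ [true], hveq]
          rw [← hb2] at hend
          exact (cmp_of hsuf hend).append _
        · have hb2 : b' = (b ^^ fl s1') := by rw [hb', h3, h5]; simp
          rw [h5] at hend
          have h6 : real lam (true, false).2 [(false, false)] = [false] := by simp [h.l00]
          rw [h6] at hend
          refine ⟨b', Or.inr (Or.inr (Or.inr ?_))⟩
          have h7 : List.replicate k false ++ lam (true, false) ++ [false, true] =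
              List.replicate k false ++ lam (true, false) ++ [false] ++ [true] := by simp
          rw [h7, xw_append _ _ [true], hveq]
          rw [← hb2] at hend
          exact (cmp_of hsuf hend).append _

/-- The second kind of words is short. -/
theorem GoodI.sexcl {k : ℕ} {lam : Ty → List Bool} (h : GoodI .s2 k lam)
    (v : List Bool) (hlen : 2 * k + 1 ≤ v.length)
    (hv : RS (Bs .s4) (List.replicate k false ++ lam (true, false))
      (lam' lam (true, false) (blk .s2 (true, false))) v) (b : Bool)
    (hc : cmp v (xw b (List.replicate k false ++ lam (true, false) ++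
        (false :: List.replicate k true)))) : False := by
  have hk : 2 ≤ k := by
    rcases h.hs with ⟨h1, -⟩ | ⟨-, h1⟩
    · exact absurd h1 (by decide)
    · exact h1
  have hb10 : Bs .s2 (true, false) = true := rfl
  have hgr := h.lv.gr
  have l10 := h.l10 rfl
  -- `v` ends with `0^(k+1) 1^k`
  have h1 : xw b ([false] ++ List.replicate k false ++ List.replicate k true) <:+ v := by
    have h2 : xw b ([false] ++ List.replicate k false ++ List.replicate k true) <:+
        xw b (List.replicate k false ++ lam (true, false) ++
          (false :: List.replicate k true)) := by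
      refine ⟨xw b (List.replicate k false ++ [true]), ?_⟩
      rw [← xw_append, l10]
      have h3 : [false] ++ List.replicate k false = List.replicate k false ++ [false] := by
        rw [← List.replicate_succ', List.replicate_succ]; rfl
      rw [h3]
      simp
    rcases hc with hc | hc
    · apply List.suffix_of_suffix_length_le h2 hc
      simp only [xw_length, List.length_append, List.length_cons, List.length_nil,
        List.length_replicate]
      omega
    · exact h2.trans hc
  obtain ⟨v', hv'⟩ := h1
  have hveq : v = (v' ++ xw b [false]) ++ xw b (List.replicate k false) ++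
      xw b (List.replicate k true) := by
    rw [← hv']; simp
  -- rewrite with the zero moved to the right
  have hveq2 : v = v' ++ xw b (List.replicate k false) ++
      xw b (false :: List.replicate k true) := by
    rw [← hv']
    have h3 : [false] ++ List.replicate k false = List.replicate k false ++ [false] := by
      rw [← List.replicate_succ', List.replicate_succ]; rfl
    rw [h3]
    simp
  have h4 := hv b
  rw [hveq2] at h4
  have hnx : nx .s2 (true, false) = .s4 := rfl
  have hext := @Gr.ext2 _ _ _ hgr (true, false) hb10 _ _ (tbl1 .s2 _ hb10)
    (fun f _ => tbl3 .s2 _ hb10 f)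
  rw [hnx] at hext
  obtain ⟨l, s1, s2, hl, e1, hs2, hpre⟩ := hext h4
  obtain ⟨k', rfl⟩ : ∃ k', k = k' + 2 := ⟨k - 2, by omega⟩
  -- decode three edges
  cases s2 with
  | nil => simp at hpre
  | cons e s2 =>
    have he : e = (false, false) := by
      rcases bs2_cases e (hs2 e (by simp)) with rfl | rfl | rfl
      · rfl
      · exfalso
        rw [real_cons, l10] at hpre
        simp at hpre
      · exfalso
        rw [real_cons, h.l11, List.replicate_succ] at hpre
        simp at hpre
    subst he
    have hpre2 : (xw b (List.replicate (k' + 2) true) ++ [b]) <+: real lam b s2 := by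
      rw [real_cons, h.l00] at hpre
      simpa using hpre
    cases s2 with
    | nil => simp at hpre2
    | cons e s2 =>
      have he : e = (true, true) := by
        rcases bs2_cases e (hs2 e (by simp)) with rfl | rfl | rfl
        · exfalso
          rw [real_cons, h.l00, List.replicate_succ] at hpre2
          simp at hpre2
        · exfalso
          rw [real_cons, l10, List.replicate_succ, List.replicate_succ,
            List.replicate_succ] at hpre2
          simp at hpre2
        · rfl
      subst he
      have hpre3 : [b] <+: real lam (b ^^ true) s2 := by
        rw [real_cons, h.l11, List.prefix_append_right_inj] at hpre2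
        exact hpre2
      cases s2 with
      | nil => simp at hpre3
      | cons e s2 =>
        have he : e.1 = true := by
          have := hgr.next_letter (hs2 e (by simp))
            (show ([] ++ [b]) <+: real lam (b ^^ true) (e :: s2) from hpre3)
          revert this; cases b <;> cases e.1 <;> simp
        have h5 : (true, false) :: blow (true, false) (blk .s2 (true, false)) l =
            (s1 ++ [(false, false), (true, true)]) ++ e :: s2 := by
          rw [e1]; simp
        rcases blow_split _ _ _ _ _ _ h5 with ⟨h6, -⟩ | ⟨s1', p, r, f, hf, h6, h7⟩
        · simp at h6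
        · have h8 := congrArg List.reverse h6
          rcases sp3 f p e r h7 he with rfl | rfl | rfl | rfl
          · simp at h8
          · simp at h8
          · simp at h8
          · simp at h8

theorem GoodI.step4 {k : ℕ} {lam : Ty → List Bool} (h : GoodI .s2 k lam) :
    GoodR .s4 (List.replicate k false ++ lam (true, false)) false
      (lam' lam (true, false) (blk .s2 (true, false))) := by
  have hk : 2 ≤ k := by
    rcases h.hs with ⟨h1, -⟩ | ⟨-, h1⟩
    · exact absurd h1 (by decide)
    · exact h1
  have hb10 : Bs .s2 (true, false) = true := rfl
  have l10 := h.l10 rfl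
  have hlv := h.lv.step hb10
  have hsub := Full.sub (P := List.replicate k false) (lam := lam) hb10
    (tbl1 .s2 _ hb10) (fun f _ => tbl3 .s2 _ hb10 f)
  have hnx : nx .s2 (true, false) = .s4 := rfl
  rw [hnx] at hlv hsub
  have hP'len : (List.replicate k false ++ lam (true, false)).length = 2 * k + 1 := by
    rw [l10, List.length_append, List.length_cons, List.length_replicate]; omega
  refine ⟨by simp, by simpa using hlv,
    ⟨fun a => if a then [true] else [false, true], ?_, ?_⟩, ?_⟩
  · obtain ⟨k', rfl⟩ : ∃ k', k = k' + 2 := ⟨k - 2, by omega⟩
    constructor
    · intro a _ _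
      refine ⟨rfl, ?_⟩
      cases a
      · refine ⟨false, List.replicate (k' + 1) false,
          List.replicate k' true ++ true :: false :: List.replicate (k' + 2) true, ?_, ?_⟩
        · have hb : blk .s2 (true, false) (false, false) = [(false, false)] := rfl
          rw [lam', hb]
          simp [h.l00, l10, List.replicate_succ]
        · have hb : blk .s2 (true, false) (false, true) =
              [(false, false), (true, true), (false, false)] := rfl
          rw [lam', hb]
          simp [h.l00, l10, h.l11, List.replicate_succ, xw]
      · refine ⟨false, List.replicate (k' + 1) false,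
          List.replicate k' true ++ false :: List.replicate (k' + 2) true, ?_, ?_⟩
        · have hb : blk .s2 (true, false) (true, false) = [] := rfl
          rw [lam', hb]
          simp [l10, List.replicate_succ]
        · have hb : blk .s2 (true, false) (true, true) = [(true, true)] := rfl
          rw [lam', hb]
          simp [l10, h.l11, List.replicate_succ, xw]
    · intro a _ hB
      simp [Bs] at hB
  · intro v hlen hv
    rw [hP'len] at hlen
    obtain ⟨b, h1 | h1 | h1 | h1⟩ := h.sstep v (by omega) hv
    · exact ⟨b, Or.inl h1⟩
    · exact (h.sexcl v hlen hv b h1).elim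
    · exact ⟨b, Or.inr ⟨true, rfl, h1⟩⟩
    · exact ⟨b, Or.inr ⟨false, rfl, h1⟩⟩
  · -- counting
    set F := Full (Bs .s4) (List.replicate k false ++ lam (true, false))
      (lam' lam (true, false) (blk .s2 (true, false))) with hF
    have c8 : ∀ i, k ≤ i → i ≤ 2 * k + 1 → cnt (fun v => ∀ c, F (v ++ [c])) i ≤ 8 := by
      intro i hi1 hi2
      have := cnt_le_of_suffix (fun v => ∀ c, F (v ++ [c])) i
        [List.replicate k false ++ lam (true, false),
          List.replicate k false ++ lam (true, false) ++ (false :: List.replicate k true),
          List.replicate k false ++ lam (true, false) ++ [true],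
          List.replicate k false ++ lam (true, false) ++ [false, true]] (by
        intro v hvn hv
        obtain ⟨b, h1 | h1 | h1 | h1⟩ := h.sstep v (by omega) hv
        · refine ⟨_, by simp, b, suffix_of_cmp h1 ?_⟩
          rw [xw_length, hP'len]; omega
        · refine ⟨_, by simp, b, suffix_of_cmp h1 ?_⟩
          rw [xw_length, List.length_append, hP'len]; omega
        · refine ⟨_, by simp, b, suffix_of_cmp h1 ?_⟩
          rw [xw_length, List.length_append, hP'len]; omega
        · refine ⟨_, by simp, b, suffix_of_cmp h1 ?_⟩
          rw [xw_length, List.length_append, hP'len]; omega)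
      simpa using this
    have c4 : ∀ i, k ≤ i → i ≤ k + 1 → cnt (fun v => ∀ c, F (v ++ [c])) i ≤ 4 := by
      intro i hi1 hi2
      have := cnt_le_of_suffix (fun v => ∀ c, F (v ++ [c])) i
        [true :: List.replicate k false, List.replicate k false ++ [true]] (by
        intro v hvn hv
        have suf : ∀ (z z' : List Bool) (b b' : Bool), cmp v (xw b z) → xw b' z' <:+ xw b z →
            i ≤ z.length → i ≤ z'.length → v <:+ xw b' z' := by
          intro z z' b b' h1 h2 h3 h4
          have h5 := suffix_of_cmp h1 (by rw [xw_length]; omega)
          exact List.suffix_of_suffix_length_le h5 h2 (by rw [xw_length]; omega)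
        obtain ⟨b, h1 | h1 | h1 | h1⟩ := h.sstep v (by omega) hv
        · refine ⟨true :: List.replicate k false, by simp, b,
            suf _ _ b b h1 ?_ (by rw [hP'len]; omega) (by simp; omega)⟩
          rw [l10, xw_append]
          exact List.suffix_append _ _
        · refine ⟨true :: List.replicate k false, by simp, !b,
            suf _ _ b (!b) h1 ?_ ?_ (by simp; omega)⟩
          · have : xw (!b) (true :: List.replicate k false) =
                xw b (false :: List.replicate k true) := by
              cases b <;> simp [xw]
            rw [this, xw_append]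
            exact List.suffix_append _ _
          · rw [List.length_append, hP'len]; omega
        · refine ⟨List.replicate k false ++ [true], by simp, b,
            suf _ _ b b h1 ?_ ?_ (by simp; omega)⟩
          · rw [l10]
            refine ⟨xw b (List.replicate k false ++ [true]), ?_⟩
            rw [← xw_append]; simp
          · rw [List.length_append, hP'len]; omega
        · refine ⟨List.replicate k false ++ [true], by simp, b,
            suf _ _ b b h1 ?_ ?_ (by simp; omega)⟩
          · rw [l10]
            refine ⟨xw b (List.replicate k false ++ [true, false]), ?_⟩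
            rw [← xw_append]
            have h3 : [false] ++ List.replicate k false = List.replicate k false ++ [false] := by
              rw [← List.replicate_succ', List.replicate_succ]; rfl
            have h4 : List.replicate k false ++ true :: List.replicate k false ++ [false, true] =
                List.replicate k false ++ [true] ++ (List.replicate k false ++ [false]) ++
                  [true] := by simp
            rw [h4, ← h3]
            simp
          · rw [List.length_append, hP'len]; omega)
      simpa using this
    have hck := h.cn k (by omega) le_rfl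
    have hckm := cnt_mono hsub k
    intro n h1 h2
    rw [hP'len] at h2
    by_cases hn : n ≤ k
    · have := h.cn n h1 hn
      have := cnt_mono hsub n
      omega
    · push Not at hn
      by_cases hn2 : n ≤ k + 2
      · have h5 := cnt_range F Full.left k 4 n hn.le (fun i hi1 hi2 => c4 i hi1 (by omega))
        omega
      · push Not at hn2
        have h5 := cnt_range F Full.left k 4 (k + 2) (by omega)
          (fun i hi1 hi2 => c4 i hi1 (by omega))
        have h6 := cnt_range F Full.left (k + 2) 8 n hn2.le
          (fun i hi1 hi2 => c8 i (by omega) (by omega))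
        omega

end Pool.Agent.H174.GP
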