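import Pool.Agent.H174.GP.Path

/-!
# The states of the level graph and the step from one level to the next
-/

namespace Pool.Agent.H174.GP

/-- The level `P'` obtained from the edge `f0`, for blocks `c`. -/
def lam' (lam : Ty → List Bool) (f0 : Ty) (c : Ty → List Ty) (f : Ty) : List Bool :=
  real lam f0.2 (c f ++ [f0])

/-- the path of the old level which corresponds to a path of the new level (without the
initial `f0`) -/
def blow (f0 : Ty) (c : Ty → List Ty) (l : List Ty) : List Ty := l.flatMap (fun f => c f ++ [f0])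

@[simp] theorem blow_nil (f0 : Ty) (c : Ty → List Ty) : blow f0 c [] = [] := rfl
@[simp] theorem blow_cons (f0 : Ty) (c : Ty → List Ty) (f : Ty) (l : List Ty) :
    blow f0 c (f :: l) = c f ++ [f0] ++ blow f0 c l := by simp [blow]

theorem real_blow {B' : Ty → Bool} (lam : Ty → List Bool) (f0 : Ty) (c : Ty → List Ty)
    (c3 : ∀ f, B' f = true → fl (c f ++ [f0]) = f.2) (l : List Ty) (hl : ∀ f ∈ l, B' f = true) :
    ∀ b, real (lam' lam f0 c) b l = real lam (b ^^ f0.2) (blow f0 c l) := by
  induction l with
  | nil => intro b; simp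
  | cons f l ih =>
    intro b
    have hf := c3 f (hl f (by simp))
    rw [real_cons, blow_cons, real_append, ih (fun g hg => hl g (by simp [hg]))]
    unfold lam'
    rw [xw_real, hf]
    congr 2
    cases b <;> cases f.2 <;> cases f0.2 <;> rfl

theorem pw_blow {B' : Ty → Bool} (P : List Bool) (lam : Ty → List Bool) (f0 : Ty)
    (c : Ty → List Ty) (c3 : ∀ f, B' f = true → fl (c f ++ [f0]) = f.2) (l : List Ty)
    (hl : ∀ f ∈ l, B' f = true) (b : Bool) :
    pw (P ++ lam f0) (lam' lam f0 c) b l = pw P lam b (f0 :: blow f0 c l) := by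
  unfold pw
  rw [real_blow lam f0 c c3 l hl, real_cons]
  simp

theorem Gr.step {B : Ty → Bool} {P : List Bool} {lam : Ty → List Bool} (h : Gr B P lam)
    {f0 : Ty} (hf0 : B f0 = true) (B' : Ty → Bool) (c : Ty → List Ty)
    (c1 : ∀ f, B' f = true → ∀ g ∈ c f, B g = true ∧ g ≠ f0)
    (c2 : ∀ f g, B' f = true → B' g = true → c f = c g → f = g)
    (c3 : ∀ f, B' f = true → fl (c f ++ [f0]) = f.2)
    (c4 : ∀ f, B' f = true → ∃ x l, c f ++ [f0] = x :: l ∧ (f0.2 ^^ x.1) = f.1) :
    Gr B' (P ++ lam f0) (lam' lam f0 c) := by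
  have hall : ∀ f, B' f = true → ∀ g ∈ f0 :: (c f ++ [f0]), B g = true := by
    intro f hf g hg
    simp at hg
    rcases hg with rfl | hg | rfl
    · exact hf0
    · exact (c1 f hf g hg).1
    · exact hf0
  have hpw : ∀ f, B' f = true →
      (P ++ lam f0) ++ lam' lam f0 c f = pw P lam false (f0 :: (c f ++ [f0])) := by
    intro f _
    simp [pw, lam']
  refine ⟨by simp [h.ne], ?_, ?_, ?_, ?_⟩
  · intro f hf
    obtain ⟨x, l, e1, e2⟩ := c4 f hf
    have hx : B x = true := hall f hf x (by rw [e1]; simp)
    obtain ⟨w, hw⟩ := h.head x hx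
    refine ⟨xw f0.2 w ++ real lam (f0.2 ^^ x.2) l, ?_⟩
    unfold lam'
    rw [e1, real_cons, hw, ← e2]
    simp
  · intro f hf
    rw [hpw f hf]
    have : f0 :: (c f ++ [f0]) = (f0 :: c f) ++ [f0] := rfl
    rw [this, pw_append]
    obtain ⟨A, hA⟩ := h.pw_end false (f0 :: c f) (by
      intro g hg
      refine hall f hf g ?_
      simp at hg ⊢
      tauto)
    refine ⟨A, ?_⟩
    rw [hA]
    have h3 := c3 f hf
    have h4 : (false ^^ fl (f0 :: c f)) = f.2 := by
      simp at h3 ⊢
      rw [← h3, Bool.xor_comm]
    rw [h4]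
    simp
  · intro f hf b A C hh
    rw [hpw f hf] at hh
    have hh2 : pw P lam false (f0 :: (c f ++ [f0])) = A ++ (xw b P ++ (xw b (lam f0) ++ C)) := by
      rw [hh]; simp
    obtain ⟨l1, l2, e1, e2, e3, e4⟩ := h.syncPath _ (hall f hf) _ _ _ _ hh2
    cases l2 with
    | nil =>
      exfalso
      have := congrArg List.length e4
      simp at this
      exact h.lam_ne hf0 this.1
    | cons e l2 =>
      have he : B e = true := hall f hf e (by rw [e1]; simp)
      have hef : e = f0 := by
        rw [real_cons] at e4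
        have p1 : (P ++ lam f0) <+: (P ++ lam e) ∨ (P ++ lam e) <+: (P ++ lam f0) := by
          have q1 : (P ++ lam f0) <+: P ++ xw b (xw b (lam e) ++ real lam (b ^^ e.2) l2) := by
            rw [← e4]; simp
          have q2 : (P ++ lam e) <+: P ++ xw b (xw b (lam e) ++ real lam (b ^^ e.2) l2) := by
            simp
          exact List.prefix_or_prefix_of_prefix q1 q2
        rcases p1 with p1 | p1
        · exact (h.inc _ _ hf0 he p1).symm
        · exact h.inc _ _ he hf0 p1
      subst hef
      cases l1 with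
      | nil =>
        left
        simp at e2
        subst e2
        have : A ++ P = P := by simpa [pw] using e3
        simpa using this
      | cons x l1 =>
        right
        simp only [List.cons_append, List.cons.injEq] at e1
        obtain ⟨e1, e1'⟩ := e1
        -- c f ++ [e] = l1 ++ e :: l2
        have hl2 : l2 = [] := by
          by_contra hne
          have h5 : e ∈ c f := by
            have h6 : (c f ++ [e]).dropLast = (l1 ++ e :: l2).dropLast := by rw [e1']
            rw [List.dropLast_concat, List.dropLast_append_of_ne_nil (by simp),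
              List.dropLast_cons_of_ne_nil hne] at h6
            rw [h6]; simp
          exact (c1 f hf _ h5).2 rfl
        subst hl2
        simp at e4
        exact e4
  · intro f g hf hg hh
    rw [hpw f hf, hpw g hg] at hh
    have h1 := h.decode _ _ _ (hall f hf) (hall g hg) hh
    have h2 : (c f ++ [f0]) <+: (c g ++ [f0]) := by simpa using h1
    apply c2 f g hf hg
    have key : ∀ (u v : List Ty), f0 ∉ u → f0 ∉ v → (u ++ [f0]) <+: (v ++ [f0]) → u = v := by
      intro u
      induction u with
      | nil =>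
        intro v _ hv hp
        cases v with
        | nil => rfl
        | cons y v =>
          exfalso
          simp at hp hv
          exact hv.1 hp
      | cons x u ih =>
        intro v hu hv hp
        cases v with
        | nil =>
          exfalso
          have := hp.length_le
          simp at this
        | cons y v =>
          simp only [List.cons_append, List.cons_prefix_cons] at hp
          obtain ⟨rfl, hp⟩ := hp
          rw [ih v (by simp at hu; tauto) (by simp at hv; tauto) hp]
    exact key _ _ (fun hx => (c1 f hf _ hx).2 rfl) (fun hx => (c1 g hg _ hx).2 rfl) h2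

/-! ### The states -/

inductive St
  | s1 | s2 | s3 | s4 | s5 (c : Bool)
  deriving DecidableEq

/-- the basic types -/
def Bs : St → Ty → Bool
  | .s1, f => f.1 == f.2
  | .s2, f => f.1 || !f.2
  | .s3, f => f.2
  | .s4, _ => true
  | .s5 c, f => f.2 || (f.1 == c)

/-- the path of the closure of type `f` -/
def cp : St → Ty → List Ty
  | .s1, f => if f.1 = f.2 then [f] else if f.1 then [(true, true), (true, true)]
      else [(false, false), (true, true), (false, false)]
  | .s2, f => if f.1 || !f.2 then [f] else [(false, false), (true, true), (false, false)]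
  | .s3, f => if f.2 then [f] else [(f.1, true), (f.1, true)]
  | .s4, f => [f]
  | .s5 c, f => if f.2 || (f.1 == c) then [f] else [(f.1, true), (f.1, true)]

/-- the old relative type of a new type -/
def rel (f0 f : Ty) : Ty := (f0.2 ^^ f.1, f0.2 ^^ f.2)

/-- the blocks -/
def blk (s : St) (f0 f : Ty) : List Ty :=
  if f = (f0.2 ^^ f0.1, f0.2) then [] else cp s (rel f0 f)

/-- the next state -/
def nx : St → Ty → St
  | .s1, f0 => if f0.1 then .s3 else .s2
  | .s2, f0 => if f0.1 then (if f0.2 then .s3 else .s4) else .s2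
  | _, f0 => if f0.2 then .s5 f0.1 else .s4

theorem Bs_cp (s : St) (f : Ty) (h : Bs s f = true) : cp s f = [f] := by
  rcases s with _ | _ | _ | _ | c <;> rcases f with ⟨_ | _, _ | _⟩ <;> revert h <;>
    first | (cases c <;> decide) | decide

theorem tbl1 (s : St) (f0 : Ty) (h0 : Bs s f0 = true) (f : Ty) (hf : Bs (nx s f0) f = true) :
    ∀ g ∈ blk s f0 f, Bs s g = true ∧ g ≠ f0 := by
  rcases s with _ | _ | _ | _ | c <;> rcases f0 with ⟨_ | _, _ | _⟩ <;>
    rcases f with ⟨_ | _, _ | _⟩ <;> revert h0 hf <;>
    first | (cases c <;> decide) | decide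

theorem tbl2 (s : St) (f0 : Ty) (h0 : Bs s f0 = true) (f g : Ty) (hf : Bs (nx s f0) f = true)
    (hg : Bs (nx s f0) g = true) (h : blk s f0 f = blk s f0 g) : f = g := by
  rcases s with _ | _ | _ | _ | c <;> rcases f0 with ⟨_ | _, _ | _⟩ <;>
    rcases f with ⟨_ | _, _ | _⟩ <;> rcases g with ⟨_ | _, _ | _⟩ <;> revert h0 hf hg h <;>
    first | (cases c <;> decide) | decide

theorem tbl3 (s : St) (f0 : Ty) (h0 : Bs s f0 = true) (f : Ty) :
    fl (blk s f0 f ++ [f0]) = f.2 := by
  rcases s with _ | _ | _ | _ | c <;> rcases f0 with ⟨_ | _, _ | _⟩ <;>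
    rcases f with ⟨_ | _, _ | _⟩ <;> revert h0 <;>
    first | (cases c <;> decide) | decide

theorem tbl4 (s : St) (f0 : Ty) (h0 : Bs s f0 = true) (f : Ty) :
    ∃ x l, blk s f0 f ++ [f0] = x :: l ∧ (f0.2 ^^ x.1) = f.1 := by
  have : ((blk s f0 f ++ [f0]).head?).map (fun x => f0.2 ^^ x.1) = some f.1 := by
    rcases s with _ | _ | _ | _ | c <;> rcases f0 with ⟨_ | _, _ | _⟩ <;>
      rcases f with ⟨_ | _, _ | _⟩ <;> revert h0 <;>
      first | (cases c <;> decide) | decide
  cases hl : blk s f0 f ++ [f0] with
  | nil => simp at hl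
  | cons x l =>
    rw [hl] at this
    simp at this
    exact ⟨x, l, rfl, this⟩

theorem tbl5 (s : St) (f0 : Ty) (h0 : Bs s f0 = true) (f : Ty) :
    blk s f0 f ++ [f0] = blow f0 (blk s f0) (cp (nx s f0) f) := by
  rcases s with _ | _ | _ | _ | c <;> rcases f0 with ⟨_ | _, _ | _⟩ <;>
    rcases f with ⟨_ | _, _ | _⟩ <;> revert h0 <;>
    first | (cases c <;> decide) | decide

theorem tbl6 (s : St) (f : Ty) : ∀ g ∈ cp s f, Bs s g = true := by
  rcases s with _ | _ | _ | _ | c <;> rcases f with ⟨_ | _, _ | _⟩ <;>
    first | (cases c <;> decide) | decide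

theorem tbl7 (s : St) (f : Ty) : fl (cp s f) = f.2 := by
  rcases s with _ | _ | _ | _ | c <;> rcases f with ⟨_ | _, _ | _⟩ <;>
    first | (cases c <;> decide) | decide

end Pool.Agent.H174.GP
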